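import Pool.Agent.H.MP_374efc_lc.Fr.Rc2
import Pool.Agent.H.MP_374efc_lc.Fr.Ln1
import Pool.Agent.H.MP_374efc_lc.Red.Bdd
import Pool.Agent.H.MP_374efc_lc.Red.Legal

/-!
# MP_374efc_lc: the level lemma (helper89, /team-store/h89_374efc_LEVEL.md, section 1), right end

If the word `h^i(b)` is a factor of `h^M(u)`, `u` and `b` legal, then its right end is a cut of level
`r t` (an end of a block of `h^(r t)`) as soon as `i` is larger than `r t` by a computable constant.
Recognizability (`align`) at all levels; the state (rest of the token after the common part, next letters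
of the ambient word) at one level determines the state at the level below; pigeonhole.
-/

set_option autoImplicit false

namespace D0L

/-! ### stripping the longest common prefix -/

open Classical in
/-- Removes the longest common prefix of two words. -/
noncomputable def al_strip {α : Type} : List α → List α → List α × List α
  | a :: u, b :: v => if a = b then al_strip u v else (a :: u, b :: v)
  | [], v => ([], v)
  | a :: u, [] => (a :: u, [])

theorem al_strip_nil {α : Type} (v : List α) : al_strip [] v = ([], v) := by
  cases v <;> simp [al_strip]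

theorem al_strip_spec {α : Type} (x y : List α) :
    ∃ w, x = w ++ (al_strip x y).1 ∧ y = w ++ (al_strip x y).2 ∧
      ∀ a u v, (al_strip x y).1 = a :: u → (al_strip x y).2 = a :: v → False := by
  induction x generalizing y with
  | nil =>
    rw [al_strip_nil]
    exact ⟨[], rfl, rfl, fun a u v h1 _ => absurd h1 (by simp)⟩
  | cons a x ih =>
    cases y with
    | nil => exact ⟨[], rfl, rfl, fun b u v _ h2 => absurd h2 (by simp [al_strip])⟩
    | cons b y =>
      by_cases hab : a = b
      · subst hab
        obtain ⟨w, h1, h2, h3⟩ := ih y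
        have e : al_strip (a :: x) (a :: y) = al_strip x y := by simp [al_strip]
        rw [e]
        exact ⟨a :: w, by rw [List.cons_append, ← h1], by rw [List.cons_append, ← h2], h3⟩
      · have e : al_strip (a :: x) (b :: y) = (a :: x, b :: y) := by simp [al_strip, hab]
        rw [e]
        refine ⟨[], rfl, rfl, fun c u v h1 h2 => hab ?_⟩
        rw [(List.cons.inj h1).1, (List.cons.inj h2).1]

theorem al_strip_append {α : Type} (x y z : List α) (hxy : x.length ≤ y.length) :
    al_strip x (y ++ z) = ((al_strip x y).1, (al_strip x y).2 ++ z) := by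
  induction x generalizing y with
  | nil => rw [al_strip_nil, al_strip_nil]
  | cons a x ih =>
    cases y with
    | nil => simp at hxy
    | cons b y =>
      by_cases hab : a = b
      · subst hab
        have e : al_strip (a :: x) (a :: y) = al_strip x y := by simp [al_strip]
        have e' : al_strip (a :: x) (a :: y ++ z) = al_strip x (y ++ z) := by simp [al_strip]
        rw [e, e']
        exact ih y (by simpa using hxy)
      · have e : al_strip (a :: x) (b :: y) = (a :: x, b :: y) := by simp [al_strip, hab]
        have e' : al_strip (a :: x) (b :: y ++ z) = (a :: x, b :: y ++ z) := by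
          simp [al_strip, hab]
        rw [e, e']

/-! ### aligned decompositions -/

/-- The words `X` (of the token) and `Y` (ambient) of level `k` agree except for at most `D` letters
at the ends of `X`; `X3`, `Y3` are the rests at the right, `B` is what follows the token at level `0`. -/
def AlR {α : Type} (h : α → List α) (D k : ℕ) (B X Y X3 Y3 : List α) : Prop :=
  ∃ X1 Z Y1, X = X1 ++ (Z ++ X3) ∧ Y = Y1 ++ (Z ++ Y3) ∧ X1.length ≤ D ∧ X3.length ≤ D ∧
    B.length + (it h k X3).length = (it h k Y3).length

/-- No common first letter. -/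
def NoC {α : Type} (x y : List α) : Prop := ∀ a u v, x = a :: u → y = a :: v → False

theorem al_len_pos {α : Type} {h : α → List α} (hne : ∀ a, h a ≠ []) {k : ℕ} {w : List α}
    (hw : (it h k w).length = 0) : w = [] := by
  have h1 := length_le_it hne k w
  exact List.length_eq_zero_iff.1 (by omega)

theorem al_suffix_eq {α : Type} {h : α → List α} (hne : ∀ a, h a ≠ []) {k : ℕ}
    {P Q u v : List α} (h1 : P ++ u = Q ++ v) (h2 : (it h k u).length = (it h k v).length) :
    u = v := by
  rcases Nat.le_total u.length v.length with hl | hl
  · have h3 : u <:+ v := List.suffix_of_suffix_length_le ⟨P, h1⟩ (List.suffix_append Q v) hl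
    obtain ⟨w, hw⟩ := h3
    rw [← hw, it_append, List.length_append] at h2
    have h4 : w = [] := al_len_pos hne (k := k) (by omega)
    rw [h4, List.nil_append] at hw
    exact hw
  · have h3 : v <:+ u := List.suffix_of_suffix_length_le ⟨Q, h1.symm⟩ (List.suffix_append P u) hl
    obtain ⟨w, hw⟩ := h3
    rw [← hw, it_append, List.length_append] at h2
    have h4 : w = [] := al_len_pos hne (k := k) (by omega)
    rw [h4, List.nil_append] at hw
    exact hw.symm

/-- A decomposition with a common part as long as possible. -/
theorem al_min {α : Type} {h : α → List α} {D k : ℕ} {B X Y : List α} :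
    ∀ (X3 Y3 : List α), AlR h D k B X Y X3 Y3 → ∃ X3' Y3', AlR h D k B X Y X3' Y3' ∧ NoC X3' Y3' := by
  intro X3
  induction X3 with
  | nil =>
    intro Y3 hA
    exact ⟨[], Y3, hA, fun a u v h1 _ => absurd h1 (by simp)⟩
  | cons a X3 ih =>
    intro Y3 hA
    by_cases hc : ∃ v, Y3 = a :: v
    · obtain ⟨v, rfl⟩ := hc
      apply ih v
      obtain ⟨X1, Z, Y1, e1, e2, l1, l2, e3⟩ := hA
      refine ⟨X1, Z ++ [a], Y1, by rw [e1]; simp, by rw [e2]; simp, l1, ?_, ?_⟩
      · rw [List.length_cons] at l2
        omega
      · have e4 : ∀ w : List α, it h k (a :: w) = it h k [a] ++ it h k w := fun w => by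
          rw [← it_append]
          rfl
        rw [e4 X3, e4 v, List.length_append, List.length_append] at e3
        omega
    · refine ⟨a :: X3, Y3, hA, ?_⟩
      intro b u v h1 h2
      apply hc
      rw [(List.cons.inj h1).1]
      exact ⟨v, h2⟩

theorem al_unique_aux {α : Type} {h : α → List α} (hne : ∀ a, h a ≠ []) {D D' k : ℕ}
    {B X Y X3 Y3 X3' Y3' : List α} (h1 : AlR h D k B X Y X3 Y3) (h2 : AlR h D' k B X Y X3' Y3')
    (hn : NoC X3' Y3') (hl : D + D' ≤ X.length) (hle : X3.length ≤ X3'.length) :
    X3 = X3' ∧ Y3 = Y3' := by
  obtain ⟨X1, Z, Y1, e1, e2, l1, l2, e3⟩ := h1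
  obtain ⟨X1', Z', Y1', e1', e2', l1', l2', e3'⟩ := h2
  -- `X3' = V ++ X3` with `V` a suffix of `Z`
  have hXlen : X.length = X1.length + Z.length + X3.length := by
    rw [e1, List.length_append, List.length_append]
    omega
  have hs1 : X3' <:+ X := ⟨X1' ++ Z', by rw [e1']; simp⟩
  have hs2 : Z ++ X3 <:+ X := ⟨X1, e1.symm⟩
  have hs3 : X3' <:+ Z ++ X3 := by
    refine List.suffix_of_suffix_length_le hs1 hs2 ?_
    rw [List.length_append]
    omega
  obtain ⟨W, hW⟩ := hs3
  have hs4 : X3 <:+ X3' := by
    refine List.suffix_of_suffix_length_le (List.suffix_append Z X3) ⟨W, hW⟩ hle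
  obtain ⟨V, hV⟩ := hs4
  have hZ : Z = W ++ V := by
    rw [← hV, ← List.append_assoc] at hW
    exact (List.append_cancel_right hW).symm
  -- `V ++ Y3` and `Y3'` are suffixes of `Y` with images of the same length
  have hYe : V ++ Y3 = Y3' := by
    refine al_suffix_eq hne (k := k) (P := Y1 ++ W) (Q := Y1' ++ Z') ?_ ?_
    · rw [List.append_assoc, List.append_assoc, ← e2', e2, hZ]
      simp
    · rw [it_append, List.length_append, ← e3', ← hV, it_append, List.length_append]
      omega
  have hVn : V = [] := by
    cases hVc : V with
    | nil => rfl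
    | cons a V' =>
      exfalso
      rw [hVc] at hV hYe
      exact hn a (V' ++ X3) (V' ++ Y3) (by rw [← hV]; rfl) (by rw [← hYe]; rfl)
  subst hVn
  exact ⟨by simpa using hV, by simpa using hYe⟩

theorem al_unique {α : Type} {h : α → List α} (hne : ∀ a, h a ≠ []) {D D' k : ℕ}
    {B X Y X3 Y3 X3' Y3' : List α} (h1 : AlR h D k B X Y X3 Y3) (h2 : AlR h D' k B X Y X3' Y3')
    (hn1 : NoC X3 Y3) (hn2 : NoC X3' Y3') (hl : D + D' ≤ X.length) :
    X3 = X3' ∧ Y3 = Y3' := by
  rcases Nat.le_total X3.length X3'.length with hle | hle
  · exact al_unique_aux hne h1 h2 hn2 hl hle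
  · obtain ⟨e1, e2⟩ := al_unique_aux hne h2 h1 hn1 (by omega) hle
    exact ⟨e1.symm, e2.symm⟩

/-! ### one level up -/

theorem al_len_two {α : Type} [Fintype α] {h : α → List α} {m r : ℕ} (hs : Std h m r)
    (w : List α) : 2 * w.length ≤ (app (pw h r) w).length := by
  induction w with
  | nil => simp
  | cons a w ih =>
    rw [app_cons, List.length_append, List.length_cons]
    have := rc2_two hs a
    omega

theorem al_up {α : Type} [Fintype α] {h : α → List α} {m r : ℕ} (hs : Std h m r) {k : ℕ}
    {B x y X3 Y3 : List α} (hx : Legal h x) (hy : Legal h y)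
    (hxl : 2 * D0 (Fintype.card α) m r + 1 ≤ x.length)
    (hA : AlR h (D0 (Fintype.card α) m r) k B (it h r x) (it h r y) X3 Y3) :
    ∃ X3' Y3', AlR h (D0 (Fintype.card α) m r) (k + r) B x y X3' Y3' := by
  have halign := @align α _ h m r hs x y hx hy
  have htwo := rc2_two hs
  have htwol := al_len_two hs
  obtain ⟨D, hD⟩ : ∃ D, D = D0 (Fintype.card α) m r := ⟨_, rfl⟩
  rw [← hD] at halign hxl hA ⊢
  obtain ⟨g, hg⟩ : ∃ g, g = pw h r := ⟨_, rfl⟩
  have hit : ∀ w, it h r w = app g w := fun w => by rw [hg]; exact it_eq_app h r w
  rw [← hg] at halign htwo htwol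
  rw [hit, hit] at hA
  obtain ⟨X1, Z, Y1, e1, e2, l1, l2, e3⟩ := hA
  have hXl : (app g x).length = X1.length + Z.length + X3.length := by
    rw [e1, List.length_append, List.length_append]
    omega
  -- the last letter of `x` away from the right end
  obtain ⟨c, hc⟩ : ∃ c, x.length = c + 1 + D := ⟨x.length - D - 1, by omega⟩
  have hcl : c < x.length := by omega
  have hsx : x = x.take c ++ x[c] :: x.drop (c + 1) := by
    rw [← List.drop_eq_getElem_cons hcl, List.take_append_drop]
  have htc : (x.take c).length = c := by
    rw [List.length_take]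
    omega
  have hdc : (x.drop (c + 1)).length = D := by
    rw [List.length_drop]
    omega
  obtain ⟨p, hp⟩ : ∃ p, p = (app g (x.take c)).length := ⟨_, rfl⟩
  have hgl : (app g x).length = p + (g x[c]).length + (app g (x.drop (c + 1))).length := by
    conv_lhs => rw [hsx]
    rw [app_append, app_cons, List.length_append, List.length_append, hp]
    omega
  have hp1 : 2 * D ≤ p := by
    have := htwol (x.take c)
    rw [htc] at this
    omega
  have hp2 : p + 2 * D < (app g x).length := by
    have h5 := htwol (x.drop (c + 1))
    have h6 := htwo x[c]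
    rw [hdc] at h5
    omega
  obtain ⟨q, hq⟩ : ∃ q, q + X1.length = Y1.length + p := ⟨Y1.length + p - X1.length, by omega⟩
  have hcov : Cov g x p c x[c] 0 := ⟨x.take c, x.drop (c + 1), hsx, htc, by omega, by
    have := htwo x[c]
    omega⟩
  obtain ⟨p', q', a, o, c1, c2, hag⟩ := halign (p := p) (q := q) hp1 hp2 (by
    intro s hs1 hs2
    refine ⟨by omega, ?_⟩
    have g1 : (X1 ++ (Z ++ X3))[s]? = Z[s - X1.length]? := by
      rw [List.getElem?_append_right (by omega), List.getElem?_append_left (by omega)]
    have g2 : (Y1 ++ (Z ++ Y3))[s + q - p]? = Z[s + q - p - Y1.length]? := by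
      rw [List.getElem?_append_right (by omega), List.getElem?_append_left (by omega)]
    rw [e1, e2, g1, g2]
    congr 1
    omega)
  obtain ⟨u1, u2, u3⟩ := hcov.unique c1
  subst u1 u2 u3
  obtain ⟨y1, y2, f1, f2, f3, f4⟩ := c2
  have hagD := (hag D le_rfl (by omega)).1
  have hyl : y.length = q' + 1 + y2.length := by
    rw [f1, List.length_append, List.length_cons, f2]
    omega
  have hqd : (y.drop (q' + 1)) = y2 := by
    rw [f1, List.drop_append, f2]
    have : q' + 1 - q' = 1 := by omega
    rw [this, List.drop_eq_nil_of_le (by omega)]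
    rfl
  -- the middle part
  have hZ : (x.take (c + 1)).drop D = (y.take (q' + 1)).drop (q' + D - c) := by
    apply List.ext_getElem?
    intro j
    rw [List.getElem?_drop, List.getElem?_drop]
    by_cases hj : D + j < c + 1
    · rw [List.getElem?_take_of_lt hj, List.getElem?_take_of_lt (by omega)]
      have h5 := (hag (D + j) (by omega) (by omega)).2
      rw [← h5]
      congr 1
      omega
    · rw [List.getElem?_eq_none (by rw [List.length_take]; omega),
        List.getElem?_eq_none (by rw [List.length_take]; omega)]
  refine ⟨x.drop (c + 1), y.drop (q' + 1), x.take D, (x.take (c + 1)).drop D,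
    y.take (q' + D - c), ?_, ?_, ?_, by omega, ?_⟩
  · have h5 : x.take D = (x.take (c + 1)).take D := by
      rw [List.take_take]
      congr 1
      omega
    rw [h5, ← List.append_assoc, List.take_append_drop, List.take_append_drop]
  · have h5 : y.take (q' + D - c) = (y.take (q' + 1)).take (q' + D - c) := by
      rw [List.take_take]
      congr 1
      omega
    rw [hZ, h5, ← List.append_assoc, List.take_append_drop, List.take_append_drop]
  · rw [List.length_take]
    omega
  · -- lengths at level `0`
    have hlev : ∀ w, it h (k + r) w = it h k (app g w) := fun w => by rw [it_add, hit]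
    rw [hqd, hlev, hlev]
    have hX2 : g x[c] ++ app g (x.drop (c + 1)) = Z.drop (p - X1.length) ++ X3 := by
      have h5 : (app g x).drop p = g x[c] ++ app g (x.drop (c + 1)) := by
        conv_lhs => rw [hsx]
        rw [app_append, app_cons, hp, List.drop_left]
      rw [← h5, e1, List.drop_append, List.drop_eq_nil_of_le (by omega), List.nil_append,
        List.drop_append_of_le_length (by omega)]
    have hY2 : g x[c] ++ app g y2 = Z.drop (p - X1.length) ++ Y3 := by
      have h5 : (app g y).drop q = g x[c] ++ app g y2 := by
        conv_lhs => rw [f1]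
        have h6 : q = (app g y1).length := by omega
        rw [app_append, app_cons, h6, List.drop_left]
      rw [← h5, e2, List.drop_append, List.drop_eq_nil_of_le (by omega), List.nil_append,
        List.drop_append_of_le_length (by omega)]
      congr 2
      omega
    have h7 := congrArg (fun w => (it h k w).length) hX2
    have h8 := congrArg (fun w => (it h k w).length) hY2
    simp only [it_append, List.length_append] at h7 h8
    omega

end D0L
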