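import Pool.Agent.H.MP_374efc_lc.Asm.Al1

/-!
# MP_374efc_lc: the level lemma, right end
-/

set_option autoImplicit false

namespace D0L

/-- States which determine their predecessors: the property `P` is inherited and holds at time `0`. -/
theorem al_dyn {S C : Type} [Fintype C] (s : ℕ → S) (F : S → S) (P : S → Prop)
    (hP : ∀ σ, P σ → P (F σ)) {T K t0 : ℕ} (hF : ∀ t < T, s t = F (s (t + 1))) (h0 : P (s 0))
    (hT : t0 + K ≤ T) (e : S → C) (he : ∀ t t', t ≤ T → t' ≤ T → e (s t) = e (s t') → s t = s t')
    (hC : Fintype.card C ≤ K) : P (s t0) := by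
  have hit : ∀ j t, j ≤ t → t ≤ T → F^[j] (s t) = s (t - j) := by
    intro j
    induction j with
    | zero => intro t _ _; rfl
    | succ j ih =>
      intro t hj ht
      rw [Function.iterate_succ_apply', ih t (by omega) ht, show t - j = (t - (j + 1)) + 1 by omega]
      exact (hF _ (by omega)).symm
  have hPit : ∀ j σ, P σ → P (F^[j] σ) := by
    intro j
    induction j with
    | zero => intro σ h; exact h
    | succ j ih =>
      intro σ h
      rw [Function.iterate_succ_apply']
      exact hP _ (ih σ h)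
  have key : ∀ t1 t2, t1 < t2 → t2 ≤ T → t0 ≤ t1 → s t1 = s t2 → P (s t0) := by
    intro t1 t2 h12 h2 h01 heq
    have hfix : F^[t2 - t1] (s t2) = s t2 := by
      rw [hit _ _ (by omega) h2, show t2 - (t2 - t1) = t1 by omega, heq]
    have hfixk : ∀ k, F^[k * (t2 - t1)] (s t2) = s t2 := by
      intro k
      induction k with
      | zero => rw [Nat.zero_mul]; rfl
      | succ k ih => rw [Nat.succ_mul, Function.iterate_add_apply, hfix, ih]
    have hle : t2 ≤ t2 * (t2 - t1) := Nat.le_mul_of_pos_right _ (by omega)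
    have h3 := hfixk t2
    rw [show t2 * (t2 - t1) = (t2 * (t2 - t1) - t2) + t2 by omega, Function.iterate_add_apply,
      hit t2 t2 le_rfl h2, Nat.sub_self] at h3
    have h4 : P (s t2) := by
      rw [← h3]
      exact hPit _ _ h0
    have h5 := hit (t1 - t0) t1 (by omega) (by omega)
    rw [show t1 - (t1 - t0) = t0 by omega] at h5
    rw [← h5]
    apply hPit
    rw [heq]
    exact h4
  obtain ⟨x, y, hxy, hexy⟩ := Fintype.exists_ne_map_eq_of_card_lt
    (fun j : Fin (K + 1) => e (s (t0 + j))) (by rw [Fintype.card_fin]; omega)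
  have h1 := he (t0 + x) (t0 + y) (by omega) (by omega) hexy
  have hne : (x : ℕ) ≠ y := fun h => hxy (Fin.ext h)
  rcases Nat.lt_or_gt_of_ne hne with hlt | hlt
  · exact key _ _ (by omega) (by omega) (by omega) h1
  · exact key _ _ (by omega) (by omega) (by omega) h1.symm

/-- number of states -/
def alS (n m r : ℕ) : ℕ := (n + 1) ^ D0 n m r * (n + 1) ^ (m ^ r * D0 n m r)

/-- number of levels used for growth -/
def alQ (n m r : ℕ) : ℕ := (m ^ r + 3) * D0 n m r + 1

theorem al_legal_it {α : Type} {h : α → List α} {w : List α} (hw : Legal h w) (n : ℕ) :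
    Legal h (it h n w) := by
  obtain ⟨c, k, hk⟩ := hw
  refine ⟨c, n + k, ?_⟩
  rw [it_add]
  exact Legal_infix n hk

theorem al_grow {α : Type} [Fintype α] {h : α → List α} {m r : ℕ} (hs : Std h m r) {b : List α}
    (hb : b ≠ []) (q : ℕ) : q + 1 ≤ (it h (r * q) b).length := by
  induction q with
  | zero =>
    have := List.length_pos_of_ne_nil hb
    rw [Nat.mul_zero, it_zero]
    omega
  | succ q ih =>
    have h1 : it h (r * (q + 1)) b = app (pw h r) (it h (r * q) b) := by
      rw [show r * (q + 1) = r + r * q by ring, it_add]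
      exact it_eq_app h r _
    rw [h1]
    have := al_len_two hs (it h (r * q) b)
    omega

/-- **Level lemma, right end.** -/
theorem level_right {α : Type} [Fintype α] {h : α → List α} {m r : ℕ} (hs : Std h m r)
    {u b A B : List α} (hu : Legal h u) (hb : Legal h b) (hb0 : b ≠ []) {M i t0 : ℕ} (hMi : i ≤ M)
    (hi : r * (t0 + alS (Fintype.card α) m r + alQ (Fintype.card α) m r) ≤ i)
    (h1 : it h M u = A ++ (it h i b ++ B)) :
    ∃ y1 y2, it h (M - r * t0) u = y1 ++ y2 ∧ it h (r * t0) y2 = B := by
  classical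
  have hup := @al_up α _ h m r hs
  have hgrow := al_grow hs hb0
  have htwol := al_len_two hs
  obtain ⟨D, hD⟩ : ∃ D, D = D0 (Fintype.card α) m r := ⟨_, rfl⟩
  obtain ⟨D', hD'⟩ : ∃ D', D' = m ^ r * D := ⟨_, rfl⟩
  obtain ⟨K, hK⟩ : ∃ K, K = alS (Fintype.card α) m r := ⟨_, rfl⟩
  obtain ⟨Q, hQ⟩ : ∃ Q, Q = alQ (Fintype.card α) m r := ⟨_, rfl⟩
  rw [← hK, ← hQ] at hi
  have hQ1 : D + D' ≤ Q ∧ 2 * D + 1 ≤ Q ∧ D + D ≤ Q := by
    have : Q = D' + 3 * D + 1 := by
      rw [hQ, alQ, ← hD, hD']
      ring
    omega
  rw [← hD] at hup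
  obtain ⟨g, hg⟩ : ∃ g, g = pw h r := ⟨_, rfl⟩
  have hitg : ∀ w, it h r w = app g w := fun w => by rw [hg]; exact it_eq_app h r w
  rw [← hg] at htwol
  have hgm : ∀ a, (g a).length ≤ m ^ r := by
    intro a
    have := length_it_le hs.len r [a]
    rw [hg]
    simpa [pw] using this
  set T := t0 + K with hT
  set X : ℕ → List α := fun t => it h (i - r * t) b with hX
  set Y : ℕ → List α := fun t => it h (M - r * t) u with hY
  have hrT : ∀ t ≤ T, r * t + r * Q ≤ i := by
    intro t ht
    have e1 : r * (t + Q) ≤ r * (T + Q) := Nat.mul_le_mul_left _ (by omega)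
    rw [Nat.mul_add] at e1
    omega
  have hXl : ∀ t ≤ T, Q + 1 ≤ (X t).length := by
    intro t ht
    have e1 := hgrow Q
    have e2 := length_it_mono hs.ne b (m := r * Q) (n := i - r * t) (by have := hrT t ht; omega)
    exact e1.trans e2
  have hXs : ∀ t < T, X t = it h r (X (t + 1)) := by
    intro t ht
    have e1 := hrT (t + 1) ht
    have e2 : r * (t + 1) = r * t + r := by ring
    simp only [hX]
    rw [← it_add]
    congr 1
    omega
  have hYs : ∀ t < T, Y t = it h r (Y (t + 1)) := by
    intro t ht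
    have e1 := hrT (t + 1) ht
    have e2 : r * (t + 1) = r * t + r := by ring
    simp only [hY]
    rw [← it_add]
    congr 1
    omega
  have hbase : AlR h D (r * 0) B (X 0) (Y 0) [] B := by
    refine ⟨[], it h i b, A, ?_, ?_, by simp, by simp, ?_⟩
    · simp [hX]
    · simp only [hY]
      rw [Nat.mul_zero, Nat.sub_zero, h1]
    · rw [Nat.mul_zero, it_zero, it_zero]
      simp
  have hex1 : ∀ t ≤ T, ∃ X3 Y3, AlR h D (r * t) B (X t) (Y t) X3 Y3 := by
    intro t
    induction t with
    | zero => intro _; exact ⟨_, _, hbase⟩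
    | succ t ih =>
      intro ht
      obtain ⟨X3, Y3, hA⟩ := ih (by omega)
      rw [hXs t (by omega), hYs t (by omega)] at hA
      have e1 := hup (k := r * t) (x := X (t + 1)) (y := Y (t + 1)) (al_legal_it hb _)
        (al_legal_it hu _) (by have := hXl (t + 1) ht; omega) hA
      rw [show r * (t + 1) = r * t + r by ring]
      exact e1
  have hex2 : ∀ t, ∃ X3 Y3 : List α, t ≤ T → (AlR h D (r * t) B (X t) (Y t) X3 Y3 ∧ NoC X3 Y3) := by
    intro t
    by_cases ht : t ≤ T
    · obtain ⟨X3, Y3, hA⟩ := hex1 t ht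
      obtain ⟨X3', Y3', hA', hN⟩ := al_min X3 Y3 hA
      exact ⟨X3', Y3', fun _ => ⟨hA', hN⟩⟩
    · exact ⟨[], [], fun h => absurd h ht⟩
  choose X3 Y3 hXY using hex2
  have hlen3 : ∀ t ≤ T, (X3 t).length ≤ D := by
    intro t ht
    obtain ⟨⟨_, _, _, _, _, _, e, _⟩, _⟩ := hXY t ht
    exact e
  have happ : ∀ t ≤ T, (app g (X3 t)).length ≤ D' := by
    intro t ht
    have e1 := length_app_le hgm (X3 t)
    have e2 := Nat.mul_le_mul_left (m ^ r) (hlen3 t ht)
    rw [hD']
    exact e1.trans e2
  set F : List α × List α → List α × List α := fun σ =>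
    ((al_strip (app g σ.1) (app g σ.2)).1, (al_strip (app g σ.1) (app g σ.2)).2.take D') with hF
  set s : ℕ → List α × List α := fun t => (X3 t, (Y3 t).take D') with hsdef
  have hstep : ∀ t < T, s t = F (s (t + 1)) := by
    intro t ht
    obtain ⟨hA1, hN1⟩ := hXY (t + 1) ht
    obtain ⟨hA0, hN0⟩ := hXY t ht.le
    obtain ⟨w, w1, w2, w3⟩ := al_strip_spec (app g (X3 (t + 1))) (app g (Y3 (t + 1)))
    have hA2 : AlR h D' (r * t) B (X t) (Y t)
        (al_strip (app g (X3 (t + 1))) (app g (Y3 (t + 1)))).1
        (al_strip (app g (X3 (t + 1))) (app g (Y3 (t + 1)))).2 := by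
      obtain ⟨X1, Z, Y1, e1, e2, l1, l2, e3⟩ := hA1
      have hap := happ (t + 1) ht
      refine ⟨app g X1, app g Z ++ w, app g Y1, ?_, ?_, ?_, ?_, ?_⟩
      · rw [hXs t ht, e1, hitg, app_append, app_append, List.append_assoc, ← w1]
      · rw [hYs t ht, e2, hitg, app_append, app_append, List.append_assoc, ← w2]
      · have e4 := length_app_le hgm X1
        have e5 := Nat.mul_le_mul_left (m ^ r) l1
        rw [hD']
        exact e4.trans e5
      · have e4 := congrArg List.length w1
        rw [List.length_append] at e4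
        omega
      · have e4 : ∀ v, it h (r * (t + 1)) v = it h (r * t) (app g v) := fun v => by
          rw [show r * (t + 1) = r * t + r by ring, it_add, hitg]
        rw [e4, e4, w1, w2] at e3
        have e5 : (al_strip (w ++ (al_strip (app g (X3 (t + 1))) (app g (Y3 (t + 1)))).1)
          (w ++ (al_strip (app g (X3 (t + 1))) (app g (Y3 (t + 1)))).2)) =
          al_strip (app g (X3 (t + 1))) (app g (Y3 (t + 1))) := by rw [← w1, ← w2]
        rw [it_append, it_append, List.length_append, List.length_append] at e3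
        simp only [← w1, ← w2] at e3
        omega
    have hun := al_unique hs.ne hA0 hA2 hN0 w3 (by have := hXl t ht.le; omega)
    obtain ⟨u1, u2⟩ := hun
    simp only [hsdef, hF]
    by_cases hl : (Y3 (t + 1)).length ≤ D'
    · rw [List.take_of_length_le hl, u1, u2]
    · have hl' : ((Y3 (t + 1)).take D').length = D' := by
        rw [List.length_take]
        omega
      have e1 : app g (Y3 (t + 1)) =
          app g ((Y3 (t + 1)).take D') ++ app g ((Y3 (t + 1)).drop D') := by
        rw [← app_append, List.take_append_drop]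
      have e2 := htwol ((Y3 (t + 1)).take D')
      rw [hl'] at e2
      have e3 := al_strip_append (app g (X3 (t + 1))) (app g ((Y3 (t + 1)).take D'))
        (app g ((Y3 (t + 1)).drop D')) (by have := happ (t + 1) ht; omega)
      rw [← e1] at e3
      rw [u1, u2, e3]
      obtain ⟨w', w1', w2', _⟩ := al_strip_spec (app g (X3 (t + 1)))
        (app g ((Y3 (t + 1)).take D'))
      have e4 := congrArg List.length w1'
      have e5 := congrArg List.length w2'
      rw [List.length_append] at e4 e5
      have e6 := happ (t + 1) ht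
      simp only
      rw [List.take_append_of_le_length (by omega)]
  have hzero : (s 0).1 = [] := by
    obtain ⟨hA0, hN0⟩ := hXY 0 (Nat.zero_le _)
    have := al_unique hs.ne hA0 hbase hN0 (fun a u v h1 _ => absurd h1 (by simp))
      (by have := hXl 0 (Nat.zero_le _); omega)
    exact this.1
  have hmain : (s t0).1 = [] := by
    refine al_dyn s F (fun σ => σ.1 = []) ?_ (T := T) (K := K) (t0 := t0) hstep hzero le_rfl
      (C := (Fin D → Option α) × (Fin D' → Option α))
      (fun σ => (fun j => σ.1[(j : ℕ)]?, fun j => σ.2[(j : ℕ)]?)) ?_ ?_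
    · intro σ hσ
      simp only [hF]
      rw [hσ, app_nil, al_strip_nil]
    · intro t t' ht ht' hee
      rw [Prod.mk.injEq] at hee
      obtain ⟨g1, g2⟩ := hee
      apply Prod.ext
      · apply List.ext_getElem?
        intro j
        by_cases hj : j < D
        · exact congrFun g1 ⟨j, hj⟩
        · rw [List.getElem?_eq_none (by have := hlen3 t ht; simp only [hsdef]; omega),
            List.getElem?_eq_none (by have := hlen3 t' ht'; simp only [hsdef]; omega)]
      · apply List.ext_getElem?
        intro j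
        by_cases hj : j < D'
        · exact congrFun g2 ⟨j, hj⟩
        · rw [List.getElem?_eq_none (by simp only [hsdef]; rw [List.length_take]; omega),
            List.getElem?_eq_none (by simp only [hsdef]; rw [List.length_take]; omega)]
    · rw [hK, alS, Fintype.card_prod, Fintype.card_fun, Fintype.card_fun, Fintype.card_option,
        Fintype.card_fin, Fintype.card_fin, ← hD, ← hD']
  obtain ⟨⟨X1, Z, Y1, e1, e2, l1, l2, e3⟩, _⟩ := hXY t0 (by omega)
  have hX3 : X3 t0 = [] := hmain
  rw [hX3, it_nil, List.length_nil, Nat.add_zero] at e3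
  refine ⟨Y1 ++ Z, Y3 t0, ?_, ?_⟩
  · rw [List.append_assoc]
    exact e2
  · have e4 : it h M u = it h (r * t0) (Y1 ++ Z) ++ it h (r * t0) (Y3 t0) := by
      rw [← it_append, List.append_assoc, ← e2]
      simp only [hY]
      rw [← it_add]
      congr 1
      have := hrT t0 (by omega)
      omega
    rw [h1, ← List.append_assoc] at e4
    exact (List.append_inj' e4 e3).2.symm

end D0L
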