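import Pool.Agent.H.MP_374efc_lc.Asm.Al2
import Pool.Agent.H.MP_374efc_lc.Red.Z1
import Pool.Agent.H.MP_374efc_lc.Fr.Re1

/-!
# MP_374efc_lc: the level lemma, left end and both ends

The left end is the mirror image of the right end.
-/

set_option autoImplicit false

namespace D0L

/-- Periodicity of the mirror image. -/
theorem al3_per {α : Type} {h : α → List α} (hp : Per (rev h)) : Per h := by
  obtain ⟨U, q, hq, hU, hc⟩ := hp
  have hmul : ∀ k x, U (x + q * k) = U x := by
    intro k
    induction k with
    | zero => intro x; rw [Nat.mul_zero, Nat.add_zero]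
    | succ k ih => intro x; rw [Nat.mul_succ, ← Nat.add_assoc, hU, ih]
  have hcong : ∀ a b, a % q = b % q → U a = U b := by
    intro a b hab
    rw [← Nat.mod_add_div a q, ← Nat.mod_add_div b q, hmul, hmul, hab]
  refine ⟨fun y => U (q - 1 - y % q), q, hq, fun x => by simp only [Nat.add_mod_right], ?_⟩
  intro c n
  obtain ⟨x, hx⟩ := hc c n
  rw [Z1_it_rev_one, List.length_reverse] at hx
  obtain ⟨L, hL⟩ : ∃ L, L = (it h n [c]).length := ⟨_, rfl⟩
  have hx' : it h n [c] = ((List.range L).map (fun i => U (x + i))).reverse := by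
    rw [hL, ← hx, List.reverse_reverse]
  refine ⟨(q - 1) * (x + L), ?_⟩
  rw [← hL]
  apply List.ext_getElem
  · rw [List.length_map, List.length_range, hL]
  · intro i h1 h2
    rw [List.length_map, List.length_range] at h2
    rw [List.getElem_of_eq hx', List.getElem_reverse, List.getElem_map, List.getElem_map,
      List.getElem_range, List.getElem_range, List.length_map, List.length_range]
    apply hcong
    have hr : ((q - 1) * (x + L) + i) % q < q := Nat.mod_lt _ hq
    obtain ⟨ρ, hρ⟩ : ∃ ρ, ρ = ((q - 1) * (x + L) + i) % q := ⟨_, rfl⟩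
    rw [← hρ]
    rw [← hρ] at hr
    have e1 : (x + (L - 1 - i)) + (1 + ρ) ≡ (q - 1 - ρ) + (1 + ρ) [MOD q] := by
      have e2 : (q - 1 - ρ) + (1 + ρ) = q := by omega
      rw [e2]
      have e3 : (x + (L - 1 - i)) + (1 + ρ) ≡ (x + (L - 1 - i)) + (1 + ((q - 1) * (x + L) + i)) [MOD q] := by
        apply Nat.ModEq.add_left
        apply Nat.ModEq.add_left
        rw [hρ]
        exact Nat.mod_modEq _ _
      refine e3.trans ?_
      have e4 : (x + (L - 1 - i)) + (1 + ((q - 1) * (x + L) + i)) = q * (x + L) := by
        obtain ⟨p, rfl⟩ : ∃ p, q = p + 1 := ⟨q - 1, by omega⟩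
        rw [Nat.add_sub_cancel]
        have : x + (L - 1 - i) + 1 + i = x + L := by omega
        nlinarith
      rw [e4]
      exact (Nat.modEq_zero_iff_dvd.2 (Dvd.intro _ rfl)).trans (Nat.modEq_zero_iff_dvd.2 dvd_rfl).symm
    exact Nat.ModEq.add_right_cancel' _ e1

theorem al3_legal {α : Type} {h : α → List α} {w : List α} (hw : Legal h w) :
    Legal (rev h) w.reverse := by
  obtain ⟨c, n, hn⟩ := hw
  refine ⟨c, n, ?_⟩
  rw [Z1_it_rev_one]
  exact List.reverse_infix.2 hn

/-- The mirror image satisfies the standing hypotheses. -/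
theorem Std.rev {α : Type} [Fintype α] {h : α → List α} {m r : ℕ} (hs : Std h m r) :
    Std (D0L.rev h) m r where
  ne := fun a h1 => hs.ne a (by simpa [D0L.rev] using h1)
  len := fun a => by simpa [D0L.rev] using hs.len a
  full := fun k hk a b => by
    rw [Z1_it_rev_one, List.mem_reverse]
    exact hs.full k hk a b
  two := hs.two
  elem := hs.elem.rev
  aper := fun hp => hs.aper (al3_per hp)

/-- **Level lemma, left end.** -/
theorem level_left {α : Type} [Fintype α] {h : α → List α} {m r : ℕ} (hs : Std h m r)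
    {u b A B : List α} (hu : Legal h u) (hb : Legal h b) (hb0 : b ≠ []) {M i t0 : ℕ} (hMi : i ≤ M)
    (hi : r * (t0 + alS (Fintype.card α) m r + alQ (Fintype.card α) m r) ≤ i)
    (h1 : it h M u = A ++ (it h i b ++ B)) :
    ∃ y1 y2, it h (M - r * t0) u = y1 ++ y2 ∧ it h (r * t0) y1 = A := by
  have h2 : it (D0L.rev h) M u.reverse =
      B.reverse ++ (it (D0L.rev h) i b.reverse ++ A.reverse) := by
    rw [it_rev, it_rev, h1]
    simp
  obtain ⟨y1, y2, e1, e2⟩ := level_right hs.rev (al3_legal hu) (al3_legal hb)
    (by simpa using hb0) hMi hi h2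
  refine ⟨y2.reverse, y1.reverse, ?_, ?_⟩
  · rw [it_rev] at e1
    have e3 := congrArg List.reverse e1
    rw [List.reverse_reverse, List.reverse_append] at e3
    exact e3
  · have e3 := it_rev h (r * t0) y2.reverse
    rw [List.reverse_reverse, e2] at e3
    exact (List.reverse_injective e3).symm

theorem al3_it_inj {α : Type} {h : α → List α} (inj : Function.Injective (app h)) (n : ℕ) :
    Function.Injective (it h n) := inj.iterate n

theorem al3_r_pos {α : Type} [Fintype α] {h : α → List α} {m r : ℕ} (hs : Std h m r) : 0 < r := by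
  rcases Nat.eq_zero_or_pos r with h0 | h0
  · exfalso
    have h1 : Subsingleton α := by
      constructor
      intro a b
      have h2 := hs.full 0 (by omega) b a
      rw [it_zero] at h2
      simpa using h2
    have h2 := hs.two
    have h3 := Fintype.card_le_one_iff_subsingleton.2 h1
    omega
  · exact h0

/-- **Level lemma, both ends.** -/
theorem level_both {α : Type} [Fintype α] {h : α → List α} {m r : ℕ} (hs : Std h m r)
    {u b A B : List α} (hu : Legal h u) (hb : Legal h b) (hb0 : b ≠ []) {M i j : ℕ} (hMi : i ≤ M)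
    (hi : j + r * (alS (Fintype.card α) m r + alQ (Fintype.card α) m r + 1) ≤ i)
    (h1 : it h M u = A ++ (it h i b ++ B)) :
    ∃ y1 y3, it h (M - j) u = y1 ++ (it h (i - j) b ++ y3) ∧ it h j y1 = A ∧ it h j y3 = B := by
  have hr := al3_r_pos hs
  obtain ⟨K, hK⟩ : ∃ K, K = alS (Fintype.card α) m r + alQ (Fintype.card α) m r := ⟨_, rfl⟩
  obtain ⟨t0, ht1, ht2⟩ : ∃ t0, j ≤ r * t0 ∧ r * t0 ≤ j + r := by
    refine ⟨j / r + 1, ?_, ?_⟩
    · have := Nat.lt_mul_div_succ j hr
      omega
    · have := Nat.mul_div_le j r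
      rw [Nat.mul_add]
      omega
  have hi' : r * (t0 + alS (Fintype.card α) m r + alQ (Fintype.card α) m r) ≤ i := by
    rw [Nat.add_assoc, ← hK, Nat.mul_add]
    rw [← hK, Nat.mul_add] at hi
    omega
  have hti : r * t0 ≤ i := by
    refine le_trans (Nat.mul_le_mul_left _ ?_) hi'
    omega
  obtain ⟨y1, y2, e1, e2⟩ := level_left hs hu hb hb0 hMi hi' h1
  obtain ⟨y3, y4, e3, e4⟩ := level_right hs hu hb hb0 hMi hi' h1
  obtain ⟨d, hd⟩ : ∃ d, r * t0 = j + d := ⟨r * t0 - j, by omega⟩
  have hMj : M - j = d + (M - r * t0) := by omega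
  -- level `j`
  have f1 : it h (M - j) u = it h d y1 ++ it h d y2 := by
    rw [hMj, it_add, e1, it_append]
  have f2 : it h (M - j) u = it h d y3 ++ it h d y4 := by
    rw [hMj, it_add, e3, it_append]
  have f3 : it h j (it h d y1) = A := by rw [← it_add, ← hd, e2]
  have f4 : it h j (it h d y4) = B := by rw [← it_add, ← hd, e4]
  have f5 : it h M u = it h j (it h (M - j) u) := by
    rw [← it_add]
    congr 1
    omega
  have f6 : it h j (it h d y3) = A ++ it h i b := by
    have e5 : it h M u = it h j (it h d y3) ++ B := by rw [f5, f2, it_append, f4]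
    rw [h1, ← List.append_assoc] at e5
    exact (List.append_cancel_right e5).symm
  have hle : (it h d y1).length ≤ (it h d y3).length := by
    by_contra hlt
    push Not at hlt
    have g1 : it h d y3 <+: it h d y1 := by
      refine List.prefix_of_prefix_length_le (l₃ := it h (M - j) u) ?_ ?_ hlt.le
      · rw [f2]; exact List.prefix_append _ _
      · rw [f1]; exact List.prefix_append _ _
    obtain ⟨v, hv⟩ := g1
    have g2 : A = (A ++ it h i b) ++ it h j v := by
      rw [← f6, ← it_append, hv, f3]
    have g3 := congrArg List.length g2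
    rw [List.length_append, List.length_append] at g3
    have g4 := length_le_it hs.ne i b
    have g5 := List.length_pos_of_ne_nil hb0
    omega
  obtain ⟨T, hT⟩ : it h d y1 <+: it h d y3 := by
    refine List.prefix_of_prefix_length_le (l₃ := it h (M - j) u) ?_ ?_ hle
    · rw [f1]; exact List.prefix_append _ _
    · rw [f2]; exact List.prefix_append _ _
  have g6 : it h j T = it h i b := by
    have : A ++ it h j T = A ++ it h i b := by rw [← f6, ← hT, it_append, f3]
    exact List.append_cancel_left this
  have g7 : T = it h (i - j) b := by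
    apply al3_it_inj hs.inj j
    rw [g6, ← it_add]
    congr 1
    omega
  refine ⟨it h d y1, it h d y4, ?_, f3, f4⟩
  rw [← g7, ← List.append_assoc, hT, f2]

end D0L
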