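import Pool.Agent.H.MP_374efc_lc.Asm.Al3
import Pool.Agent.H.MP_374efc_lc.Th.Defs

/-!
# MP_374efc_lc: the small token lies in the chain

If `b` has a relation `N`, then `ω = h^c(b)` lies in `Lp h ω N` for every `c` at least the recognizability
constant: by the level lemma all tokens `h^j(ω)` of the relation of `ω` are, at level `j`, factors `ω`
of `h^(N-j)(ω)`.
-/

set_option autoImplicit false

namespace D0L

/-- The product of the words `h^j(w)`, `j` in the list. -/
def al4_fl {α : Type} (h : α → List α) (w : List α) (js : List ℕ) : List α :=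
  (js.map fun j => it h j w).flatten

theorem al4_fl_nil {α : Type} (h : α → List α) (w : List α) : al4_fl h w [] = [] := rfl

theorem al4_fl_cons {α : Type} (h : α → List α) (w : List α) (j : ℕ) (js : List ℕ) :
    al4_fl h w (j :: js) = it h j w ++ al4_fl h w js := rfl

theorem al4_fl_append {α : Type} (h : α → List α) (w : List α) (js ks : List ℕ) :
    al4_fl h w (js ++ ks) = al4_fl h w js ++ al4_fl h w ks := by
  unfold al4_fl
  rw [List.map_append, List.flatten_append]

/-- First entry equal to `m`. -/
theorem al4_split {m : ℕ} (ks : List ℕ) (hk : ∀ k ∈ ks, k ≤ m) :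
    (∀ k ∈ ks, k < m) ∨ ∃ ka kb, ks = ka ++ m :: kb ∧ ∀ k ∈ ka, k < m := by
  induction ks with
  | nil => exact Or.inl (by simp)
  | cons k ks ih =>
    rcases lt_or_eq_of_le (hk k List.mem_cons_self) with h1 | h1
    · rcases ih (fun k' hk' => hk k' (List.mem_cons_of_mem _ hk')) with h2 | ⟨ka, kb, h2, h3⟩
      · refine Or.inl ?_
        intro k' hk'
        rcases List.mem_cons.1 hk' with h4 | h4
        · rw [h4]; exact h1
        · exact h2 k' h4
      · refine Or.inr ⟨k :: ka, kb, by rw [h2]; rfl, ?_⟩
        intro k' hk'
        rcases List.mem_cons.1 hk' with h4 | h4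
        · rw [h4]; exact h1
        · exact h3 k' h4
    · exact Or.inr ⟨[], ks, by rw [h1]; rfl, by simp⟩

/-- Two cuts of one word: the one with the smaller image is the first. -/
theorem al4_cmp {α : Type} {h : α → List α} (hne : ∀ a, h a ≠ []) {m : ℕ}
    {P Q R S : List α} (h1 : P ++ R = Q ++ S)
    (h2 : (it h m P).length ≤ (it h m Q).length) : ∃ v, Q = P ++ v := by
  rcases Nat.le_total P.length Q.length with hl | hl
  · have h3 : P <+: Q :=
      List.prefix_of_prefix_length_le (l₃ := Q ++ S) ⟨R, h1⟩ (List.prefix_append _ _) hl
    obtain ⟨v, hv⟩ := h3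
    exact ⟨v, hv.symm⟩
  · have h3 : Q <+: P :=
      List.prefix_of_prefix_length_le (l₃ := P ++ R) ⟨S, h1.symm⟩ (List.prefix_append _ _) hl
    obtain ⟨v, hv⟩ := h3
    rw [← hv, it_append, List.length_append] at h2
    have h4 : v = [] := al_len_pos hne (k := m) (by omega)
    rw [h4, List.append_nil] at hv
    exact ⟨[], by rw [List.append_nil, hv]⟩

/-- The small token lies in the chain, from the level lemma for the factors `h^i(b)` of `h^M(b)`. -/
theorem align_of_level {α : Type} {h : α → List α} (hne : ∀ a, h a ≠ []) {b : List α} {κ : ℕ}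
    (hlev : ∀ (A B : List α) (M i j : ℕ), i ≤ M → j + κ ≤ i →
      it h M b = A ++ (it h i b ++ B) →
      ∃ y1 y3, it h (M - j) b = y1 ++ (it h (i - j) b ++ y3) ∧ it h j y1 = A ∧ it h j y3 = B)
    {N : ℕ} (hN : Rel h b N) {c : ℕ} (hc : κ ≤ c) :
    Lp h (it h c b) N (it h c b) := by
  obtain ⟨js, -, hjs, hrel⟩ := hN
  obtain ⟨ω, hω⟩ : ∃ ω, ω = it h c b := ⟨_, rfl⟩
  rw [← hω]
  have hflat : it h N ω = al4_fl h ω js := by
    have h1 := rel_shift hrel c
    rw [it_add, ← hω] at h1
    rw [h1]
    unfold al4_fl
    congr 1
    apply List.map_congr_left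
    intro j _
    rw [it_add, ← hω]
  -- the tokens are cut out at their level
  have hstar : ∀ js1 j js2, js = js1 ++ j :: js2 →
      ∃ y1 y3, it h (N - j) ω = y1 ++ (ω ++ y3) ∧ it h j y1 = al4_fl h ω js1 := by
    intro js1 j js2 hj
    have hjN : j < N := hjs j (by rw [hj]; simp)
    have e1 : it h (N + c) b = al4_fl h ω js1 ++ (it h (j + c) b ++ al4_fl h ω js2) := by
      rw [it_add, ← hω, hflat, hj, al4_fl_append, al4_fl_cons, it_add, ← hω]
    obtain ⟨y1, y3, f1, f2, -⟩ := hlev _ _ (N + c) (j + c) j (by omega) (by omega) e1
    refine ⟨y1, y3, ?_, f2⟩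
    rw [Nat.add_sub_cancel_left, ← hω] at f1
    rw [← f1, show N + c - j = (N - j) + c by omega, it_add, ← hω]
  -- main claim
  have hmain : ∀ m, m ≤ N → ∀ js1 ks js2, js = js1 ++ (ks ++ js2) → (∀ k ∈ ks, k < m) →
      ∀ P z S, it h (N - m) ω = P ++ (z ++ S) → it h m P = al4_fl h ω js1 →
        it h m z = al4_fl h ω ks → Lp h ω m z := by
    intro m
    induction m with
    | zero =>
      intro _ js1 ks js2 _ hks P z S _ _ hz
      cases ks with
      | nil =>
        rw [it_zero, al4_fl_nil] at hz
        exact hz
      | cons k ks => exact absurd (hks k List.mem_cons_self) (by omega)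
    | succ m ih =>
      intro hm js1 ks js2 hj hks P z S e1 e2 e3
      -- products of `ω` and words of the chain, one level below
      have inner : ∀ n, ∀ js1 ks js2, ks.length = n → js = js1 ++ (ks ++ js2) →
          (∀ k ∈ ks, k ≤ m) → ∀ P z S, it h (N - m) ω = P ++ (z ++ S) →
          it h m P = al4_fl h ω js1 → it h m z = al4_fl h ω ks →
          Sp (fun y => Lp h ω m y ∨ y = ω) z := by
        intro n
        induction n using Nat.strong_induction_on with
        | _ n ihn =>
          intro js1 ks js2 hn hj hks P z S e1 e2 e3
          rcases al4_split ks hks with h1 | ⟨ka, kb, h1, h2⟩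
          · exact Sp.one (Or.inl (ih (by omega) js1 ks js2 hj h1 P z S e1 e2 e3))
          · obtain ⟨y1, y3, f1, f2⟩ := hstar (js1 ++ ka) m (kb ++ js2) (by rw [hj, h1]; simp)
            rw [al4_fl_append, ← e2] at f2
            obtain ⟨za, hza⟩ : ∃ za, y1 = P ++ za := by
              refine al4_cmp hne (m := m) (R := z ++ S) (S := ω ++ y3) ?_ ?_
              · rw [← e1, f1]
              · rw [f2, List.length_append]
                omega
            rw [hza, it_append] at f2
            have f3 : it h m za = al4_fl h ω ka := List.append_cancel_left f2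
            have f4 : z ++ S = (za ++ ω) ++ y3 := by
              have e4 : P ++ (z ++ S) = P ++ ((za ++ ω) ++ y3) := by
                rw [← e1, f1, hza]
                simp
              exact List.append_cancel_left e4
            rw [h1, al4_fl_append, al4_fl_cons] at e3
            obtain ⟨zb, hzb⟩ : ∃ zb, z = (za ++ ω) ++ zb := by
              refine al4_cmp hne (m := m) (R := y3) (S := S) f4.symm ?_
              rw [e3, it_append, f3, List.length_append, List.length_append, List.length_append]
              omega
            have f5 : it h m zb = al4_fl h ω kb := by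
              rw [hzb, it_append, it_append, f3, List.append_assoc] at e3
              exact List.append_cancel_left (List.append_cancel_left e3)
            have g1 : Lp h ω m za := by
              refine ih (by omega) js1 ka (m :: kb ++ js2) ?_ h2 P za (ω ++ zb ++ S) ?_ e2 f3
              · rw [hj, h1]
                simp
              · rw [e1, hzb]
                simp
            have g2 : Sp (fun y => Lp h ω m y ∨ y = ω) zb := by
              refine ihn kb.length ?_ (js1 ++ ka ++ [m]) kb js2 rfl ?_ ?_ (P ++ za ++ ω) zb S ?_ ?_ f5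
              · rw [← hn, h1, List.length_append, List.length_cons]
                omega
              · rw [hj, h1]
                simp
              · intro k hk
                apply hks
                rw [h1]
                simp [hk]
              · rw [e1, hzb]
                simp
              · rw [it_append, it_append, e2, f3, al4_fl_append, al4_fl_append, al4_fl_cons,
                  al4_fl_nil, List.append_nil]
            rw [hzb]
            exact Sp.mul (Sp.mul (Sp.one (Or.inl g1)) (Sp.one (Or.inr rfl))) g2
      rw [lp_succ]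
      refine inner ks.length js1 ks js2 rfl hj (fun k hk => by have := hks k hk; omega)
        (app h P) (app h z) (app h S) ?_ ?_ ?_
      · rw [show N - m = (N - (m + 1)) + 1 by omega, it_succ, e1, app_append, app_append]
      · rw [← it_succ', e2]
      · rw [← it_succ', e3]
  refine hmain N le_rfl [] js [] (by simp) hjs [] ω [] ?_ ?_ ?_
  · rw [Nat.sub_self, it_zero]
    simp
  · rw [it_nil]
    rfl
  · exact hflat

/-- **The small token lies in the chain.** -/
theorem align_core {α : Type} [Fintype α] {h : α → List α} {m0 r : ℕ} (hs : Std h m0 r)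
    {b : List α} (hb : Legal h b) (hb0 : b ≠ []) {N : ℕ} (hN : Rel h b N) {c : ℕ}
    (hc : r * (alS (Fintype.card α) m0 r + alQ (Fintype.card α) m0 r + 1) ≤ c) :
    Lp h (it h c b) N (it h c b) :=
  align_of_level hs.ne (fun _ _ _ _ _ h1 h2 h3 => level_both hs hb hb hb0 h1 h2 h3) hN hc

end D0L
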