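import Pool.Agent.H.MP_374efc_lc.Asm.Cod

/-!
# MP_374efc_lc: the base of the free hull is an invariant code in normal form
-/

set_option autoImplicit false

namespace D0L

open Pool.MP374W

theorem gr_code {α : Type} {h : α → List α} (hgr : ∀ a, Gr h a)
    {n : ℕ} {t : Fin n → List α} {H : Fin n → List (Fin n)} (ht : ∀ i, t i ≠ [])
    (hk : ∀ i, app h (t i) = app t (H i)) (i : Fin n) : Gr H i := by
  intro B
  obtain ⟨a, ha⟩ := List.exists_mem_of_ne_nil _ (ht i)
  set L := ∑ j, (t j).length with hL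
  have hLt : ∀ j, (t j).length ≤ L := fun j =>
    Finset.single_le_sum (f := fun j => (t j).length) (fun _ _ => Nat.zero_le _)
      (Finset.mem_univ j)
  obtain ⟨q, hq⟩ := hgr a (L * B)
  refine ⟨q, ?_⟩
  have h1 : app t (it H q [i]) = it h q (t i) := by rw [it_code hk, app_singleton]
  have h2 := length_app_le hLt (it H q [i])
  have h3 : (it h q [a]).length ≤ (it h q (t i)).length := (Z3_infix_it q ha).length_le
  rw [h1] at h2
  have hL0 : 0 < L := lt_of_lt_of_le (List.length_pos_of_ne_nil (ht i)) (hLt i)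
  exact Nat.le_of_mul_le_mul_left (by omega) hL0

/-- Irreducibility from the first letters and local catenativity. -/
theorem irr_of_first {n N : ℕ} {H : Fin n → List (Fin n)} {b0 : List (Fin n)}
    (inj : Function.Injective (app H)) (hgr : ∀ i, Gr H i) (hN : Rel H b0 N)
    (least : ∀ p, Rel H b0 p → N ≤ p)
    (first : ∀ i : Fin n, ∃ k : Fin n, ∃ s, it H k b0 = i :: s) (i j : Fin n) :
    ∃ q, 0 < q ∧ j ∈ it H q [i] := by
  have hN' := hN
  obtain ⟨js, h1, h2, h3⟩ := hN'
  have h0 := zero_mem_least inj least h1 h2 h3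
  have hb0 : b0 <:+: it H N b0 := by
    rw [h3]
    exact List.infix_of_mem_flatten (List.mem_map.mpr ⟨0, h0, rfl⟩)
  obtain ⟨M, hM⟩ := long_factor hN
  obtain ⟨q, hq⟩ := hgr i M
  obtain ⟨k, s, hk⟩ := first i
  have h4 : it H q [i] <:+: it H (q + k) b0 := by
    rw [it_add, hk]
    exact Z3_infix_it q (by simp)
  obtain ⟨l, hl, l', _, hll⟩ := hM _ _ h4 hq
  have h5 : it H l b0 <:+: it H q [i] := (List.prefix_append _ _).isInfix.trans hll
  obtain ⟨k', s', hk'⟩ := first j
  have h6 := Legal_infix (h := H) (N + k' - l) h5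
  rw [← it_add, ← it_add] at h6
  have h7 : N + k' - l + l = k' + N := by omega
  rw [h7] at h6
  have h8 := Legal_infix (h := H) k' hb0
  rw [← it_add] at h8
  refine ⟨N + k' - l + q, by omega, ?_⟩
  have h9 := h8.trans h6
  apply h9.subset
  rw [hk']
  simp

/-- The matrix is invertible. -/
theorem det_of_unit {n N : ℕ} {H : Fin n → List (Fin n)} {b0 : List (Fin n)}
    (inj : Function.Injective (app H)) (hN : Rel H b0 N) (least : ∀ p, Rel H b0 p → N ≤ p)
    (unit : IsUnit (Matrix.of fun (i a : Fin n) => ((it H i b0).count a : ℤ)).det) :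
    (Matrix.of fun (j i : Fin n) => ((H i).count j : ℚ)).det ≠ 0 := by
  classical
  set A : Matrix (Fin n) (Fin n) ℚ := Matrix.of fun (j i : Fin n) => ((H i).count j : ℚ) with hA
  let pv : List (Fin n) → (Fin n → ℚ) := fun u a => (u.count a : ℚ)
  have hpv_nil : pv [] = 0 := by
    funext a
    simp [pv]
  have hpv_app : ∀ u v, pv (u ++ v) = pv u + pv v := by
    intro u v
    funext a
    simp [pv]
  have hpv_cons : ∀ b u, pv (b :: u) = Pi.single b 1 + pv u := by
    intro b u
    funext a
    simp only [pv, Pi.add_apply, Pi.single_apply, List.count_cons]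
    by_cases hab : a = b
    · subst hab
      simp [add_comm]
    · have hba : ¬ b = a := fun h => hab h.symm
      simp [hab, hba]
  have hA1 : ∀ b, A.mulVec (Pi.single b 1) = pv (H b) := by
    intro b
    rw [Matrix.mulVec_single_one]
    rfl
  have hA2 : ∀ u, pv (app H u) = A.mulVec (pv u) := by
    intro u
    induction u with
    | nil => rw [app_nil, hpv_nil, Matrix.mulVec_zero]
    | cons b u ih => rw [app_cons, hpv_app, ih, hpv_cons, Matrix.mulVec_add, hA1]
  obtain ⟨js, h1, h2, h3⟩ := hN
  have h0 := zero_mem_least inj least h1 h2 h3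
  -- the range of `A`
  let Rg := LinearMap.range (Matrix.mulVecLin A)
  have hsucc : ∀ k, pv (it H (k + 1) b0) ∈ Rg := by
    intro k
    rw [it_succ, hA2]
    exact ⟨_, rfl⟩
  have hflat : ∀ L : List ℕ, pv ((L.map (fun j => it H j b0)).flatten) -
      (L.count 0 : ℚ) • pv b0 ∈ Rg := by
    intro L
    induction L with
    | nil => simp [hpv_nil]
    | cons j L ih =>
      rw [List.map_cons, List.flatten_cons, hpv_app]
      rcases Nat.eq_zero_or_pos j with hj | hj
      · subst hj
        rw [List.count_cons_self, Nat.cast_add, Nat.cast_one, add_smul, one_smul, it_zero]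
        have : pv b0 + pv (List.map (fun j => it H j b0) L).flatten -
            ((List.count 0 L : ℚ) • pv b0 + pv b0) =
            pv (List.map (fun j => it H j b0) L).flatten - (List.count 0 L : ℚ) • pv b0 := by
          abel
        rw [this]
        exact ih
      · obtain ⟨k, rfl⟩ : ∃ k, j = k + 1 := ⟨j - 1, by omega⟩
        rw [List.count_cons_of_ne (by omega), add_sub_assoc]
        exact Rg.add_mem (hsucc k) ih
  have hNpos : 0 < N := by
    obtain ⟨j, hj⟩ := List.exists_mem_of_ne_nil _ h1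
    have := h2 j hj
    omega
  have hb0 : pv b0 ∈ Rg := by
    have h4 := hflat js
    rw [← h3] at h4
    have h5 : pv (it H N b0) ∈ Rg := by
      obtain ⟨k, rfl⟩ : ∃ k, N = k + 1 := ⟨N - 1, by omega⟩
      exact hsucc k
    have h6 : (js.count 0 : ℚ) • pv b0 ∈ Rg := by
      have := Rg.sub_mem h5 h4
      simpa using this
    have h7 : (js.count 0 : ℚ) ≠ 0 := by
      have := List.count_pos_iff.2 h0
      exact_mod_cast this.ne'
    have h8 := Rg.smul_mem ((js.count 0 : ℚ)⁻¹) h6
    rwa [smul_smul, inv_mul_cancel₀ h7, one_smul] at h8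
  have hall : ∀ k, pv (it H k b0) ∈ Rg := by
    intro k
    rcases Nat.eq_zero_or_pos k with hk | hk
    · subst hk
      exact hb0
    · obtain ⟨k', rfl⟩ : ∃ k', k = k' + 1 := ⟨k - 1, by omega⟩
      exact hsucc k'
  -- the vectors `pv (it H i b0)`, `i < n`, form a basis
  set W : Matrix (Fin n) (Fin n) ℚ := Matrix.of fun (i a : Fin n) => ((it H i b0).count a : ℚ)
    with hW
  have hWdet : W.det ≠ 0 := by
    have h4 : W = (Matrix.of fun (i a : Fin n) => ((it H i b0).count a : ℤ)).map
        (Int.castRingHom ℚ) := by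
      ext i a
      simp [hW, Matrix.map_apply]
    rw [h4, ← RingHom.mapMatrix_apply, ← RingHom.map_det]
    have h5 := (Int.castRingHom ℚ).isUnit_map unit
    exact h5.ne_zero
  have htop : Rg = ⊤ := by
    rw [eq_top_iff]
    intro x _
    have hu : IsUnit W.det := isUnit_iff_ne_zero.2 hWdet
    -- x = ∑ c i • W i
    have hx : x = Matrix.vecMul (Matrix.vecMul x W⁻¹) W := by
      rw [Matrix.vecMul_vecMul, Matrix.nonsing_inv_mul _ hu, Matrix.vecMul_one]
    rw [hx]
    have h6 : Matrix.vecMul (Matrix.vecMul x W⁻¹) W =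
        ∑ i, (Matrix.vecMul x W⁻¹) i • pv (it H i b0) := by
      funext a
      simp only [Matrix.vecMul, dotProduct, Finset.sum_apply, Pi.smul_apply, smul_eq_mul]
      rfl
    rw [h6]
    exact Rg.sum_mem fun i _ => Rg.smul_mem _ (hall i)
  have hsurj : Function.Surjective (Matrix.mulVecLin A) := LinearMap.range_eq_top.1 htop
  have hbij : Function.Injective (Matrix.mulVecLin A) :=
    LinearMap.injective_iff_surjective.2 hsurj
  intro hdet
  obtain ⟨v, hv, hv0⟩ := Matrix.exists_mulVec_eq_zero_iff.2 hdet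
  apply hv
  apply hbij
  rw [Matrix.mulVecLin_apply, hv0, map_zero]

/-- **The base of the free hull.** -/
theorem exists_nf {α : Type} {h : α → List α} {w : List α}
    (inj : Function.Injective (app h)) (hgr : ∀ a, Gr h a) (hw : w ≠ []) (hlc : LC h w) :
    ∃ (n : ℕ) (t : Fin n → List α) (H : Fin n → List (Fin n)) (b0 : List (Fin n)) (N : ℕ),
      Cod h w t H b0 ∧ NF H b0 N ∧ ∀ p, Rel h w p ↔ Rel H b0 p := by
  classical
  have hex : ∃ p, Rel h w p := hlc
  set N := Nat.find hex with hNdef
  have hN : Rel h w N := Nat.find_spec hex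
  have least : ∀ p, Rel h w p → N ≤ p := fun p hp => Nat.find_min' hex hp
  have hw1 : FreeMonoid.ofList w ≠ 1 := by
    intro h1
    apply hw
    have := congrArg FreeMonoid.toList h1
    rwa [FreeMonoid.toList_ofList] at this
  obtain ⟨n, φ, g, v, hφ, hc, hv, hnf⟩ := normal_form (toM h) (toM_inj inj)
    (FreeMonoid.ofList w) hw1 N (closed_of_rel hN)
  set t : Fin n → List α := fun i => (φ (FreeMonoid.of i)).toList with ht
  set H : Fin n → List (Fin n) := fun i => (g (FreeMonoid.of i)).toList with hH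
  set b0 : List (Fin n) := v.toList with hb0
  have happt : ∀ x : FreeMonoid (Fin n), app t x.toList = (φ x).toList := app_of_hom φ
  have happH : ∀ x : FreeMonoid (Fin n), app H x.toList = (g x).toList := app_of_hom g
  have hit : ∀ k, it H k b0 = (g^[k] v).toList := by
    intro k
    rw [hb0, ← toM_iterate, ← eq_toM g]
  have hcomm : ∀ i, app h (t i) = app t (H i) := by
    intro i
    change app h (t i) = app t (g (FreeMonoid.of i)).toList
    rw [happt, hc, toM_toList]
  have hax : app t b0 = w := by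
    rw [hb0, happt, hv, FreeMonoid.toList_ofList]
  have tinj : Function.Injective (app t) := inj_of_hom hφ
  have Hinj : Function.Injective (app H) := inj_of_hom hnf.inj
  have hrel : ∀ p, Rel h w p ↔ Rel H b0 p := fun p => rel_code tinj hcomm hax.symm
  have hNH : Rel H b0 N := (hrel N).1 hN
  have leastH : ∀ p, Rel H b0 p → N ≤ p := fun p hp => least p ((hrel p).2 hp)
  have htne : ∀ i, t i ≠ [] := by
    intro i hi
    have h1 : app t [i] = app t [] := by rw [app_singleton, hi, app_nil]
    simpa using tinj h1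
  have hgrH : ∀ i, Gr H i := gr_code hgr htne hcomm
  obtain ⟨f, hf, hf'⟩ := hnf.first
  obtain ⟨f2, hf2, hf2'⟩ := hnf.last
  have hfirst : ∀ i : Fin n, ∃ s, it H i b0 = f i :: s := by
    intro i
    obtain ⟨s, hs⟩ := hf' i
    refine ⟨s.toList, ?_⟩
    rw [hit, hs, FreeMonoid.toList_mul, FreeMonoid.toList_of]
    rfl
  have hlast : ∀ i : Fin n, ∃ s, it H i b0 = s ++ [f2 i] := by
    intro i
    obtain ⟨s, hs⟩ := hf2' i
    refine ⟨s.toList, ?_⟩
    rw [hit, hs, FreeMonoid.toList_mul, FreeMonoid.toList_of]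
  have hirr : ∀ i j, ∃ q, 0 < q ∧ j ∈ it H q [i] := by
    refine irr_of_first Hinj hgrH hNH leastH ?_
    intro i
    obtain ⟨k, hk⟩ := hf.2 i
    obtain ⟨s, hs⟩ := hfirst k
    exact ⟨k, s, by rw [hs, hk]⟩
  have hunit : IsUnit (Matrix.of fun (i a : Fin n) => ((it H i b0).count a : ℤ)).det := by
    have h1 : (Matrix.of fun (i a : Fin n) => ((it H i b0).count a : ℤ)) =
        Matrix.of fun (i : Fin n) (a : Fin n) => vec (g^[(i : ℕ)] v) a := by
      ext i a
      simp only [Matrix.of_apply, vec]
      rw [hit]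
    rw [h1]
    exact hnf.unit
  have hb0ne : b0 ≠ [] := by
    intro h1
    apply hw
    rw [← hax, h1, app_nil]
  refine ⟨n, t, H, b0, N, ⟨tinj, hcomm, hax, hirr, det_of_unit Hinj hNH leastH hunit,
    ⟨N, hNH⟩⟩, ⟨Hinj, hb0ne, hnf.le, hNH, leastH, hgrH, hirr, ⟨f, hf, hfirst⟩, ⟨f2, hf2, hlast⟩,
    hunit, ?_⟩, hrel⟩
  intro G h0 hmul hst hG x
  let K : Submonoid (FreeMonoid (Fin n)) :=
    { carrier := {x | G x.toList}
      one_mem' := h0
      mul_mem' := by
        intro a b ha hb
        change G (a * b).toList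
        rw [FreeMonoid.toList_mul]
        exact hmul _ _ ha hb }
  have hK : Stable K := by
    intro a b c ha hb hac hcb
    have h1 : G (a * c).toList := hac
    have h2 : G (c * b).toList := hcb
    rw [FreeMonoid.toList_mul] at h1 h2
    exact hst _ _ _ ha hb h1 h2
  have hX : orb g v N ⊆ K := by
    rintro y ⟨i, hi, rfl⟩
    change G (g^[i] v).toList
    rw [← hit]
    exact hG i hi
  have hle := hull_le hX hK
  rw [hnf.hull_top] at hle
  have := hle (Submonoid.mem_top (FreeMonoid.ofList x))
  change G (FreeMonoid.ofList x).toList at this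
  rwa [FreeMonoid.toList_ofList] at this

/-- Systems whose `b_0, ..., b_(n-1)` are letters have the relation `n`. -/
theorem NF.le_of_letters {n N : ℕ} {H : Fin n → List (Fin n)} {b0 : List (Fin n)}
    (hnf : NF H b0 N) (hl : ∀ i < n, (it H i b0).length = 1) : N ≤ n := by
  obtain ⟨f, hf, hf'⟩ := hnf.first
  have hlet : ∀ i : Fin n, it H i b0 = [f i] := by
    intro i
    obtain ⟨s, hs⟩ := hf' i
    have h1 := hl i i.2
    rw [hs, List.length_cons] at h1
    have h2 : s = [] := List.length_eq_zero_iff.1 (by omega)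
    rw [hs, h2]
  have hword : ∀ x : List (Fin n), ∃ js : List ℕ, (∀ j ∈ js, j < n) ∧
      x = (js.map (fun j => it H j b0)).flatten := by
    intro x
    induction x with
    | nil => exact ⟨[], by simp, by simp⟩
    | cons a x ih =>
      obtain ⟨js, h1, h2⟩ := ih
      obtain ⟨i, hi⟩ := hf.2 a
      refine ⟨(i : ℕ) :: js, ?_, ?_⟩
      · intro j hj
        rw [List.mem_cons] at hj
        rcases hj with rfl | hj
        · exact i.2
        · exact h1 j hj
      · rw [List.map_cons, List.flatten_cons, ← h2, hlet i, hi]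
        rfl
  obtain ⟨js, h1, h2⟩ := hword (it H n b0)
  apply hnf.least
  refine ⟨js, ?_, h1, h2⟩
  rintro rfl
  have h3 := length_it_mono (fun a => ne_of_inj hnf.inj a) b0 (Nat.zero_le n)
  rw [h2, it_zero] at h3
  simp at h3
  exact hnf.ne h3

/-- **Assembly.**  The bound of invariant codes and the code dichotomy give the core bound. -/
theorem core_of (b : ℕ → ℕ) (hb : FreeBound b) (hcd : CDst) :
    CoreBoundE (fun s => b s + 1) := by
  intro α _ h w s hs he hp hper hl hw hlc
  change ∃ p ≤ b s + 1, Rel h w p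
  by_cases hgr : ∀ a, Gr h a
  · obtain ⟨n, t, H, b0, N, hcod, hnf, hrel⟩ := exists_nf he.inj hgr hw hlc
    have h1 : n ≤ b s := hb α h w s hs he hp hper hl hw n t H b0 hcod
    have h2 : N ≤ n := hnf.le_of_letters (hcd n N H b0 hnf)
    exact ⟨N, by omega, (hrel N).2 hnf.rel⟩
  · push Not at hgr
    obtain ⟨a, ha⟩ := hgr
    exact ⟨1, by omega, rel_of_prim_bdd he.good.ne hp ha w⟩

/-- The final bound from the two remaining statements. -/
theorem bound_of (b : ℕ → ℕ) (hb0 : Computable b) (hb : FreeBound b) (hcd : CDst) :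
    ∃ F', Computable F' ∧ Bound F' := by
  obtain ⟨G, hG, hbG⟩ := CM.hull hb0
  have hbG' : FreeBound G := by
    intro α _ h w s h1 h2 h3 h4 h5 h6 n t H b0 h7
    exact (hb α h w s h1 h2 h3 h4 h5 h6 n t H b0 h7).trans (hbG s)
  exact main4E (fun s => G s + 1) (CM.add hG (CM.const 1)).comp (core_of G hbG' hcd)

end D0L
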