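import Pool.Agent.H.MP_374efc_lc.Asm.Al4
import Pool.Agent.H.MP_374efc_lc.Asm.Core
import Pool.Agent.H.MP_374efc_lc.Fr.Cp3

/-!
# MP_374efc_lc: the small token lies in the chain, with a primitive recursive level

`cLv s` is the level for systems of size `s`.
-/

set_option autoImplicit false

namespace D0L

/-- The level constant of the systems of size `s`. -/
def cLv (s : ℕ) : ℕ := 2 ^ s * (alS s s (2 ^ s) + alQ s s (2 ^ s) + 1)

theorem al5_alS_mono {n n' m m' r r' : ℕ} (hn : n ≤ n') (hm : m ≤ m') (hr : r ≤ r') (h2 : 1 ≤ m) :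
    alS n m r ≤ alS n' m' r' := by
  have hD := cp2_D0 hn hm hr h2
  unfold alS
  refine Nat.mul_le_mul (cp2_pow (by omega) hD (by omega)) (cp2_pow (by omega) ?_ (by omega))
  exact Nat.mul_le_mul (cp2_pow hm hr h2) hD

theorem al5_alQ_mono {n n' m m' r r' : ℕ} (hn : n ≤ n') (hm : m ≤ m') (hr : r ≤ r') (h2 : 1 ≤ m) :
    alQ n m r ≤ alQ n' m' r' := by
  have hD := cp2_D0 hn hm hr h2
  unfold alQ
  refine Nat.add_le_add_right (Nat.mul_le_mul (Nat.add_le_add_right (cp2_pow hm hr h2) _) hD) _

theorem cLv_primrec : Primrec cLv := by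
  have hid : Primrec (fun s : ℕ => s) := Primrec.id
  have h2 : Primrec (fun s : ℕ => 2 ^ s) := cp3_pow (cp3_const 2) hid
  have hD : Primrec (fun s : ℕ => D0 s s (2 ^ s)) := cp3_D0 hid hid h2
  have h1 : Primrec (fun s : ℕ => s + 1) := cp3_add hid (cp3_const 1)
  have hp : Primrec (fun s : ℕ => s ^ (2 ^ s)) := cp3_pow hid h2
  have hS : Primrec (fun s : ℕ => alS s s (2 ^ s)) :=
    cp3_mul (cp3_pow h1 hD) (cp3_pow h1 (cp3_mul hp hD))
  have hQ : Primrec (fun s : ℕ => alQ s s (2 ^ s)) :=
    cp3_add (cp3_mul (cp3_add hp (cp3_const 3)) hD) (cp3_const 1)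
  exact cp3_mul h2 (cp3_add (cp3_add hS hQ) (cp3_const 1))

theorem cLv_computable : Computable cLv := cLv_primrec.to_comp

/-- A system with an invertible matrix is elementary. -/
theorem elem_of_det {n : ℕ} {H : Fin n → List (Fin n)}
    (det : (Matrix.of fun (j i : Fin n) => ((H i).count j : ℚ)).det ≠ 0) : Elem H := by
  classical
  rintro ⟨δ, iδ, f, g, hcard, hfg, -, -⟩
  rw [Fintype.card_fin] at hcard
  obtain ⟨A, hA⟩ : ∃ A : Matrix (Fin n) (Fin n) ℚ,
    A = Matrix.of fun (j i : Fin n) => ((H i).count j : ℚ) := ⟨_, rfl⟩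
  obtain ⟨G, hG⟩ : ∃ G : Matrix (Fin n) δ ℚ,
    G = Matrix.of fun (j : Fin n) (d : δ) => ((g d).count j : ℚ) := ⟨_, rfl⟩
  obtain ⟨F, hF⟩ : ∃ F : Matrix δ (Fin n) ℚ,
    F = Matrix.of fun (d : δ) (i : Fin n) => ((f i).count d : ℚ) := ⟨_, rfl⟩
  have hcnt : ∀ (j : Fin n) (x : List δ), ((app g x).count j : ℚ) =
      ∑ d, ((g d).count j : ℚ) * (x.count d : ℚ) := by
    intro j x
    induction x with
    | nil => simp [app_nil]
    | cons a x ih =>
      rw [app_cons, List.count_append, Nat.cast_add, ih]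
      have : ∀ d : δ, ((g d).count j : ℚ) * ((a :: x).count d : ℚ) =
          ((g d).count j : ℚ) * (x.count d : ℚ) + (if a = d then ((g d).count j : ℚ) else 0) := by
        intro d
        rw [List.count_cons]
        by_cases had : a = d
        · subst had
          simp
          ring
        · simp [had]
      rw [Finset.sum_congr rfl fun d _ => this d, Finset.sum_add_distrib, Finset.sum_ite_eq]
      simp
      ring
  have hAGF : A = G * F := by
    ext j i
    rw [hA, hG, hF, Matrix.mul_apply]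
    simp only [Matrix.of_apply]
    rw [← hcnt, hfg]
  rw [← hA] at det
  have h1 : A.rank = n := by
    have h2 := Matrix.rank_of_isUnit A ((Matrix.isUnit_iff_isUnit_det A).2 (isUnit_iff_ne_zero.2 det))
    rw [h2, Fintype.card_fin]
  have h2 : A.rank ≤ Fintype.card δ := by
    rw [hAGF]
    exact (Matrix.rank_mul_le_left G F).trans (Matrix.rank_le_card_width G)
  omega

/-- The small token lies in the chain: the form for the core case. -/
theorem align_sz {α : Type} [Fintype α] {h : α → List α} {w : List α} {s N c : ℕ}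
    (hs : Sz s h w) (hel : Elem h) (hp : Prim h) (hper : ¬ Per h) (hl : Legal h w) (hw : w ≠ [])
    (hN : Rel h w N) (hc : cLv s ≤ c) : Lp h (it h c w) N (it h c w) := by
  obtain ⟨h1, h2, h3⟩ := hs
  have hn2 : 2 ≤ Fintype.card α := two_letters hper hw
  have hstd : Std h s (2 ^ s) :=
    { ne := hel.ne
      len := h2
      full := fun k hk a b => full_of_prim hp hel.ne
        ((Nat.pow_le_pow_right (by norm_num) h1).trans hk) a b
      two := hn2
      elem := hel
      aper := hper }
  refine align_core hstd hl hw hN (le_trans ?_ hc)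
  unfold cLv
  refine Nat.mul_le_mul_left _ ?_
  have e1 := al5_alS_mono (r := 2 ^ s) (m := s) h1 le_rfl le_rfl (by omega)
  have e2 := al5_alQ_mono (r := 2 ^ s) (m := s) h1 le_rfl le_rfl (by omega)
  omega

/-- The small token lies in the chain: normal forms. -/
theorem align_nf {n N s c : ℕ} {H : Fin n → List (Fin n)} {b0 : List (Fin n)}
    (hnf : NF H b0 N) (hs : Sz s H b0) (hp : Prim H) (hper : ¬ Per H) (hc : cLv s ≤ c) :
    Lp H (it H c b0) N (it H c b0) :=
  align_sz hs (elem_of_det (det_of_unit hnf.inj hnf.rel hnf.least hnf.unit)) hp hper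
    (legal (fun a => ne_of_inj hnf.inj a) hnf.inj hnf.ne ⟨N, hnf.rel⟩ hnf.gr) hnf.ne hnf.rel hc

end D0L
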