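import Pool.Agent.H.MP_374efc_lc.Asm.Al5
import Pool.Agent.H.MP_374efc_lc.Red.Per1
import Pool.Agent.H.MP_374efc_lc.Red.Z3

/-!
# MP_374efc_lc: irreducible morphisms, classes of letters of a power

For an irreducible morphism `h` some power `h^p` leaves invariant the classes of a partition of the letters
and is positive on every class.  Preparations for the level lemma of irreducible morphisms.
-/

set_option autoImplicit false

namespace D0L

/-! ### periodic words -/

theorem al6_pre {γ α : Type} {t : γ → List α} (U : ℕ → γ) {k k' i : ℕ} (hk : k ≤ k')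
    (hi : i < (app t (Per1_sg U 0 k)).length) :
    (app t (Per1_sg U 0 k'))[i]? = (app t (Per1_sg U 0 k))[i]? := by
  obtain ⟨d, rfl⟩ := Nat.exists_eq_add_of_le hk
  rw [Per1_app, app_append, List.getElem?_append_left hi]

/-- If the words `h^n(x)` are factors of images of factors of one periodic word then `h` is periodic. -/
theorem al6_per {γ α : Type} {t : γ → List α} {h : α → List α} (ht : ∀ c, t c ≠ [])
    {U : ℕ → γ} {q : ℕ} (hq : 0 < q) (hU : ∀ x, U (x + q) = U x)
    (hf : ∀ x n, ∃ y L, it h n [x] <:+: app t (Per1_sg U y L)) : Per h := by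
  have hlen : ∀ k, k ≤ (app t (Per1_sg U 0 k)).length := by
    intro k
    have h1 := length_le_app ht (Per1_sg U 0 k)
    rwa [Per1_len] at h1
  obtain ⟨V, hV⟩ : ∃ V : ℕ → α, ∀ i, (app t (Per1_sg U 0 (i + 1)))[i]? = some (V i) := by
    refine ⟨fun i => (app t (Per1_sg U 0 (i + 1)))[i]'(by have := hlen (i + 1); omega), ?_⟩
    intro i
    exact List.getElem?_eq_getElem _
  have hV2 : ∀ k i, i < (app t (Per1_sg U 0 k)).length →
      (app t (Per1_sg U 0 k))[i]? = some (V i) := by
    intro k i hi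
    have h2 := hlen (i + 1)
    rcases Nat.le_total k (i + 1) with h1 | h1
    · rw [← hV i, al6_pre U h1 hi]
    · rw [← hV i, al6_pre U h1 (by omega)]
  have hpre : ∀ k, app t (Per1_sg U 0 k) = Per1_sg V 0 (app t (Per1_sg U 0 k)).length := by
    intro k
    apply List.ext_getElem?
    intro i
    by_cases hi : i < (app t (Per1_sg U 0 k)).length
    · rw [hV2 k i hi]
      unfold Per1_sg
      rw [List.getElem?_map, List.getElem?_range (by exact hi)]
      simp
    · rw [List.getElem?_eq_none (by omega), List.getElem?_eq_none (by rw [Per1_len]; omega)]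
  have hseg : ∀ y L, ∃ z, app t (Per1_sg U y L) = Per1_sg V z (app t (Per1_sg U y L)).length := by
    intro y L
    have h1 := hpre (y + L)
    rw [Per1_app, app_append, Nat.zero_add] at h1
    exact ⟨_, (Per1_pre h1).2⟩
  obtain ⟨Q, hQ⟩ : ∃ Q, Q = (app t (Per1_sg U 0 q)).length := ⟨_, rfl⟩
  have hQ0 : 0 < Q := by
    have := hlen q
    omega
  refine ⟨V, Q, hQ0, ?_, ?_⟩
  · intro i
    have h1 : Per1_sg U 0 (q + (i + 1)) = Per1_sg U 0 q ++ Per1_sg U 0 (i + 1) := by
      rw [Per1_app]
      congr 1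
      apply Per1_congr
      intro j
      rw [Nat.zero_add, Nat.zero_add, Nat.add_comm q j, hU]
    have h2 := hlen (i + 1)
    have h3 : (app t (Per1_sg U 0 (q + (i + 1))))[i + Q]? = some (V (i + Q)) := by
      apply hV2
      rw [h1, app_append, List.length_append, ← hQ]
      omega
    rw [h1, app_append, List.getElem?_append_right (by omega), ← hQ, Nat.add_sub_cancel, hV i]
      at h3
    exact (Option.some.inj h3).symm
  · intro x n
    obtain ⟨y, L, h1⟩ := hf x n
    obtain ⟨z, h2⟩ := hseg y L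
    rw [h2] at h1
    exact Per1_fac h1

/-! ### letters of iterated images -/

theorem al6_mem_it {α : Type} {h : α → List α} {n : ℕ} {w : List α} {c : α} :
    c ∈ it h n w ↔ ∃ b ∈ w, c ∈ it h n [b] := by
  constructor
  · intro hc
    induction w with
    | nil =>
      rw [it_nil] at hc
      simp at hc
    | cons a w ih =>
      rw [Z1_it_cons, List.mem_append] at hc
      rcases hc with hc | hc
      · exact ⟨a, List.mem_cons_self, hc⟩
      · obtain ⟨b, hb, hb'⟩ := ih hc
        exact ⟨b, List.mem_cons_of_mem _ hb, hb'⟩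
  · rintro ⟨b, hb, hc⟩
    exact (Z3_infix_it n hb).subset hc

theorem al6_trans {α : Type} {h : α → List α} {m n : ℕ} {a b c : α} (hb : b ∈ it h m [a])
    (hc : c ∈ it h n [b]) : c ∈ it h (n + m) [a] := by
  rw [it_add]
  exact al6_mem_it.2 ⟨b, hb, hc⟩

theorem al6_loop {α : Type} {h : α → List α} {m : ℕ} {a : α} (ha : a ∈ it h m [a]) (k : ℕ) :
    a ∈ it h (m * k) [a] := by
  induction k with
  | zero => rw [Nat.mul_zero, it_zero]; exact List.mem_singleton.2 rfl
  | succ k ih =>
    rw [Nat.mul_succ, Nat.add_comm]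
    exact al6_trans ih ha

/-- A common period of the sets of letters. -/
theorem al6_period {α : Type} [Fintype α] (h : α → List α) :
    ∃ p, 0 < p ∧ p ≤ (2 ^ (Fintype.card α * Fintype.card α) + 1) ^ 2 ∧
      ∀ k, 0 < k → ∀ a b, b ∈ it h (p * k) [a] ↔ b ∈ it h p [a] := by
  classical
  obtain ⟨F, hF⟩ : ∃ F : ℕ → α → Finset α, ∀ k a b, b ∈ F k a ↔ b ∈ it h k [a] :=
    ⟨fun k a => (it h k [a]).toFinset, fun k a b => List.mem_toFinset⟩
  have hstep : ∀ i j, F i = F j → F (i + 1) = F (j + 1) := by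
    intro i j hij
    funext a
    ext b
    rw [hF, hF, it_succ, it_succ, mem_app, mem_app]
    constructor
    · rintro ⟨d, h1, h2⟩
      exact ⟨d, (hF j a d).1 (hij ▸ (hF i a d).2 h1), h2⟩
    · rintro ⟨d, h1, h2⟩
      exact ⟨d, (hF i a d).1 (hij ▸ (hF j a d).2 h1), h2⟩
  have hsteps : ∀ i j t, F i = F j → F (i + t) = F (j + t) := by
    intro i j t hij
    induction t with
    | zero => exact hij
    | succ t ih => exact hstep _ _ ih
  obtain ⟨T, hT⟩ : ∃ T, T = 2 ^ (Fintype.card α * Fintype.card α) := ⟨_, rfl⟩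
  obtain ⟨i, j, hij, hj, he⟩ : ∃ i j, i < j ∧ j ≤ T ∧ F i = F j := by
    have hc : Fintype.card (α → Finset α) < Fintype.card (Fin (T + 1)) := by
      rw [Fintype.card_fun, Fintype.card_finset, ← pow_mul, Fintype.card_fin, ← hT]
      omega
    obtain ⟨x, y, hxy, he⟩ := Fintype.exists_ne_map_eq_of_card_lt
      (fun i : Fin (T + 1) => F i.1) hc
    have hx := x.2
    have hy := y.2
    rcases lt_or_gt_of_ne (fun h1 => hxy (Fin.ext h1) : x.1 ≠ y.1) with h1 | h1
    · exact ⟨x.1, y.1, h1, by omega, he⟩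
    · exact ⟨y.1, x.1, h1, by omega, he.symm⟩
  have hmul : ∀ t m, F (i + t + m * (j - i)) = F (i + t) := by
    intro t m
    induction m with
    | zero => rw [Nat.zero_mul, Nat.add_zero]
    | succ m ih =>
      rw [← ih]
      have e1 : i + t + (m + 1) * (j - i) = j + (t + m * (j - i)) := by
        rw [Nat.succ_mul]
        omega
      rw [e1, Nat.add_assoc i t]
      exact (hsteps i j _ he).symm
  refine ⟨(i + 1) * (j - i), Nat.mul_pos (by omega) (by omega), ?_, ?_⟩
  · rw [← hT, pow_two]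
    exact Nat.mul_le_mul (by omega) (by omega)
  · intro k hk a b
    obtain ⟨l, rfl⟩ : ∃ l, k = l + 1 := ⟨k - 1, by omega⟩
    obtain ⟨t, ht⟩ : ∃ t, (i + 1) * (j - i) = i + t := by
      have h1 : (i + 1) * 1 ≤ (i + 1) * (j - i) := Nat.mul_le_mul_left _ (by omega)
      exact ⟨(i + 1) * (j - i) - i, by omega⟩
    have e1 : (i + 1) * (j - i) * (l + 1) = i + t + (l * (i + 1)) * (j - i) := by
      rw [← ht]
      ring
    rw [← hF, ← hF, e1, hmul, ht]

/-- The classes of the letters of `h^p`. -/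
theorem al6_class {α : Type} {h : α → List α} {p : ℕ} (hp : 0 < p)
    (hper : ∀ k, 0 < k → ∀ a b, b ∈ it h (p * k) [a] ↔ b ∈ it h p [a])
    (irr : ∀ i j, ∃ q, 0 < q ∧ j ∈ it h q [i]) :
    (∀ a, a ∈ it h p [a]) ∧
      ∀ a c, c ∈ it h p [a] → ∀ b, b ∈ it h p [c] ↔ b ∈ it h p [a] := by
  constructor
  · intro a
    obtain ⟨q, hq, ha⟩ := irr a a
    have h1 := al6_loop ha p
    rw [Nat.mul_comm] at h1
    exact (hper q hq a a).1 h1
  · intro a c hc
    obtain ⟨q, hq, ha⟩ := irr c a
    have h1 : a ∈ it h ((q + p) * (p - 1)) [a] := al6_loop (al6_trans hc ha) _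
    have h2 := al6_trans ha h1
    have h3 : (q + p) * (p - 1) + q = p * (q + p - 1) := by
      obtain ⟨P, rfl⟩ : ∃ P, p = P + 1 := ⟨p - 1, by omega⟩
      have e : q + (P + 1) - 1 = q + P := by omega
      rw [Nat.add_sub_cancel, e]
      ring
    rw [h3] at h2
    have h4 : a ∈ it h p [c] := (hper _ (by omega) c a).1 h2
    intro b
    constructor
    · intro hb
      have h5 := al6_trans hc hb
      rw [show p + p = p * 2 by ring] at h5
      exact (hper 2 (by omega) a b).1 h5
    · intro hb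
      have h5 := al6_trans h4 hb
      rw [show p + p = p * 2 by ring] at h5
      exact (hper 2 (by omega) c b).1 h5

/-- Legal words lie in one class and are factors of the `h^(p k)(a)`, `a` a letter of the word. -/
theorem al6_legal {α : Type} {h : α → List α} {p : ℕ} (hp : 0 < p)
    (hper : ∀ k, 0 < k → ∀ a b, b ∈ it h (p * k) [a] ↔ b ∈ it h p [a])
    (irr : ∀ i j, ∃ q, 0 < q ∧ j ∈ it h q [i]) {w : List α} (hw : Legal h w) {a : α}
    (ha : a ∈ w) : (∀ b ∈ w, b ∈ it h p [a]) ∧ ∃ k, w <:+: it h (p * k) [a] := by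
  obtain ⟨c, n, hn⟩ := hw
  obtain ⟨q, hq, hc⟩ := irr a c
  have h1 : w <:+: it h (n + q) [a] := by
    refine hn.trans ?_
    rw [it_add]
    exact Z3_infix_it n hc
  have h2 : a ∈ it h ((n + q) * (p - 1)) [a] := al6_loop (h1.subset ha) _
  have h3 : w <:+: it h (p * (n + q)) [a] := by
    have e : p * (n + q) = (n + q) + (n + q) * (p - 1) := by
      obtain ⟨P, rfl⟩ : ∃ P, p = P + 1 := ⟨p - 1, by omega⟩
      rw [Nat.add_sub_cancel]
      ring
    rw [e, it_add]
    exact h1.trans (Z3_infix_it _ h2)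
  refine ⟨fun b hb => (hper (n + q) (by omega) a b).1 (h3.subset hb), n + q, h3⟩

/-- Words over a subset. -/
theorem al6_lift {α : Type} {P : α → Prop} (w : List α) (hw : ∀ x ∈ w, P x) :
    ∃ v : List {x // P x}, v.map Subtype.val = w := by
  induction w with
  | nil => exact ⟨[], rfl⟩
  | cons a w ih =>
    obtain ⟨v, hv⟩ := ih fun x hx => hw x (List.mem_cons_of_mem _ hx)
    exact ⟨⟨a, hw a List.mem_cons_self⟩ :: v, by rw [List.map_cons, hv]⟩

end D0L
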