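import Pool.Agent.H.MP_374efc_lc.Asm.Al6

/-!
# MP_374efc_lc: the level lemma of irreducible morphisms

The restriction of `h^p` to a class of letters satisfies the standing hypotheses.
-/

set_option autoImplicit false

namespace D0L

/-- Some letter has periodic images along a progression. -/
def EPer {α : Type} (h : α → List α) : Prop :=
  ∃ (a : α) (p : ℕ) (U : ℕ → α) (q : ℕ), 0 < p ∧ 0 < q ∧ (∀ x, U (x + q) = U x) ∧
    ∀ k, ∃ x L, it h (p * k) [a] = Per1_sg U x L

/-- Restriction of `h^p` to the class of `a0`. -/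
def IsRes {α : Type} (h : α → List α) (p : ℕ) (a0 : α)
    (g : {x // x ∈ it h p [a0]} → List {x // x ∈ it h p [a0]}) : Prop :=
  ∀ b, (g b).map Subtype.val = it h p [b.1]

theorem al7_exists {α : Type} {h : α → List α} {p : ℕ} {a0 : α}
    (hcl : ∀ a c, c ∈ it h p [a] → ∀ b, b ∈ it h p [c] ↔ b ∈ it h p [a]) :
    ∃ g, IsRes h p a0 g := by
  have h1 : ∀ b : {x // x ∈ it h p [a0]}, ∃ v : List {x // x ∈ it h p [a0]},
      v.map Subtype.val = it h p [b.1] :=
    fun b => al6_lift _ fun x hx => (hcl a0 b.1 b.2 x).1 hx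
  choose g hg using h1
  exact ⟨g, hg⟩

theorem al7_map {α : Type} {h : α → List α} {p : ℕ} {a0 : α}
    {g : {x // x ∈ it h p [a0]} → List {x // x ∈ it h p [a0]}} (hg : IsRes h p a0 g) (n : ℕ)
    (z : List {x // x ∈ it h p [a0]}) :
    (it g n z).map Subtype.val = it h (p * n) (z.map Subtype.val) :=
  it_map (h := h) (g := g) (ι := Subtype.val) (t := p) hg n z

/-- The restriction to a class is elementary. -/
theorem al7_elem {α : Type} [Fintype α] {h : α → List α} {p : ℕ} (hel : Elem (pw h p))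
    (hself : ∀ a, a ∈ it h p [a])
    (hcl : ∀ a c, c ∈ it h p [a] → ∀ b, b ∈ it h p [c] ↔ b ∈ it h p [a]) {a0 : α}
    [Fintype {x // x ∈ it h p [a0]}]
    {g : {x // x ∈ it h p [a0]} → List {x // x ∈ it h p [a0]}} (hg : IsRes h p a0 g) :
    Elem g := by
  classical
  rintro ⟨δ, iδ, f, f2, c1, c2, c3, c4⟩
  apply hel
  have hout : ∀ x, x ∉ it h p [a0] → ∀ y ∈ it h p [x], y ∉ it h p [a0] := by
    intro x hx y hy hy0
    apply hx
    exact (hcl a0 y hy0 x).1 ((hcl x y hy x).2 (hself x))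
  have hlift : ∀ x : {x // x ∉ it h p [a0]}, ∃ v : List {x // x ∉ it h p [a0]},
      v.map Subtype.val = it h p [x.1] := fun x => al6_lift _ (hout x.1 x.2)
  choose l hl using hlift
  have hval : ∀ z : List {x // x ∉ it h p [a0]},
      app (fun y : {x // x ∉ it h p [a0]} => [y.1]) z = z.map Subtype.val := by
    intro z
    induction z with
    | nil => rfl
    | cons a z ih => rw [app_cons, ih]; rfl
  have hinl : ∀ (F : δ ⊕ {x // x ∉ it h p [a0]} → List α) (z : List δ),
      app F (z.map Sum.inl) = app (fun d => F (Sum.inl d)) z := by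
    intro F z
    induction z with
    | nil => rfl
    | cons a z ih => rw [List.map_cons, app_cons, app_cons, ih]
  have hinr : ∀ (F : δ ⊕ {x // x ∉ it h p [a0]} → List α) (z : List {x // x ∉ it h p [a0]}),
      app F (z.map Sum.inr) = app (fun d => F (Sum.inr d)) z := by
    intro F z
    induction z with
    | nil => rfl
    | cons a z ih => rw [List.map_cons, app_cons, app_cons, ih]
  have hmap : ∀ z : List δ, app (fun d => (f2 d).map Subtype.val) z =
      (app f2 z).map Subtype.val := by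
    intro z
    induction z with
    | nil => rfl
    | cons a z ih => rw [app_cons, app_cons, ih, List.map_append]
  refine ⟨δ ⊕ {x // x ∉ it h p [a0]}, inferInstance,
    fun x => if hx : x ∈ it h p [a0] then (f ⟨x, hx⟩).map Sum.inl else (l ⟨x, hx⟩).map Sum.inr,
    Sum.elim (fun d => (f2 d).map Subtype.val) (fun y => [y.1]), ?_, ?_, ?_, ?_⟩
  · have e1 : Fintype.card {x // x ∈ it h p [a0]} + Fintype.card {x // x ∉ it h p [a0]} =
        Fintype.card α := by
      have := Fintype.card_congr (Equiv.sumCompl (fun x => x ∈ it h p [a0]))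
      rwa [Fintype.card_sum] at this
    rw [Fintype.card_sum, ← e1]
    omega
  · intro x
    by_cases hx : x ∈ it h p [a0]
    · simp only [hx, dif_pos]
      rw [hinl]
      simp only [Sum.elim_inl]
      rw [hmap, c2, hg]
      rfl
    · simp only [hx, dif_neg, not_false_iff]
      rw [hinr]
      simp only [Sum.elim_inr]
      rw [hval, hl]
      rfl
  · rintro (d | y)
    · simp only [Sum.elim_inl]
      intro h1
      exact c3 d (List.map_eq_nil_iff.1 h1)
    · simp only [Sum.elim_inr]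
      exact List.cons_ne_nil _ _
  · rintro (d | y)
    · obtain ⟨a, ha⟩ := c4 d
      refine ⟨a.1, ?_⟩
      simp only [a.2, dif_pos]
      exact List.mem_map.2 ⟨d, ha, rfl⟩
    · refine ⟨y.1, ?_⟩
      simp only [y.2, dif_neg, not_false_iff]
      refine List.mem_map.2 ⟨y, ?_, rfl⟩
      have h1 := hself y.1
      rw [← hl ⟨y.1, y.2⟩] at h1
      obtain ⟨z, hz, hz'⟩ := List.mem_map.1 h1
      have hzy : z = y := Subtype.ext hz'
      rw [hzy] at hz
      exact hz

/-- The restriction to a class satisfies the standing hypotheses. -/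
theorem al7_std {α : Type} [Fintype α] {h : α → List α} {p s : ℕ} (hp : 0 < p)
    (hne : ∀ a, h a ≠ []) (hlen : ∀ a, (h a).length ≤ s) (hel : Elem (pw h p))
    (hper : ∀ k, 0 < k → ∀ a b, b ∈ it h (p * k) [a] ↔ b ∈ it h p [a])
    (hself : ∀ a, a ∈ it h p [a])
    (hcl : ∀ a c, c ∈ it h p [a] → ∀ b, b ∈ it h p [c] ↔ b ∈ it h p [a])
    (hE : ¬ EPer h) {a0 : α} [Fintype {x // x ∈ it h p [a0]}]
    {g : {x // x ∈ it h p [a0]} → List {x // x ∈ it h p [a0]}} (hg : IsRes h p a0 g) :
    Std g (s ^ p) 1 := by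
  have haper : ¬ Per g := by
    rintro ⟨U, q, hq, hU, hc⟩
    apply hE
    refine ⟨a0, p, fun i => (U i).1, q, hp, hq, fun x => by simp only [hU], fun k => ?_⟩
    obtain ⟨x, hx⟩ := hc ⟨a0, hself a0⟩ k
    refine ⟨x, (it g k [⟨a0, hself a0⟩]).length, ?_⟩
    have h1 := al7_map hg k [⟨a0, hself a0⟩]
    rw [List.map_singleton] at h1
    rw [← h1]
    conv_lhs => rw [hx, List.map_map]
    rfl
  refine ⟨?_, ?_, ?_, ?_, al7_elem hel hself hcl hg, haper⟩
  · intro c hc
    have h1 := hg c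
    rw [hc, List.map_nil] at h1
    have h2 := length_le_it hne p [c.1]
    rw [← h1] at h2
    simp at h2
  · intro c
    have h1 := congrArg List.length (hg c)
    rw [List.length_map] at h1
    rw [h1]
    have h2 := length_it_le hlen p [c.1]
    simpa using h2
  · intro k hk a b
    have h1 := al7_map hg k [a]
    rw [List.map_singleton] at h1
    have h2 : b.1 ∈ it h (p * k) [a.1] := by
      rw [hper k (by omega)]
      exact (hcl a0 a.1 a.2 b.1).2 b.2
    rw [← h1] at h2
    obtain ⟨z, hz, hz'⟩ := List.mem_map.1 h2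
    rwa [show b = z from Subtype.ext hz'.symm]
  · exact two_letters haper (w := [⟨a0, hself a0⟩]) (by simp)

/-- **Level lemma of irreducible morphisms.** -/
theorem level_irr {α : Type} [Fintype α] {h : α → List α} {p m0 : ℕ} (hp : 0 < p)
    (hne : ∀ a, h a ≠ [])
    (hper : ∀ k, 0 < k → ∀ a b, b ∈ it h (p * k) [a] ↔ b ∈ it h p [a])
    (irr : ∀ i j, ∃ q, 0 < q ∧ j ∈ it h q [i])
    (hstd : ∀ (a0 : α) (_ : Fintype {x // x ∈ it h p [a0]})
      (g : {x // x ∈ it h p [a0]} → List {x // x ∈ it h p [a0]}), IsRes h p a0 g → Std g m0 1)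
    {u b A B : List α} (hu : Legal h u) (hb : Legal h b) (hb0 : b ≠ []) {M i j : ℕ}
    (hMi : i ≤ M)
    (hi : j + p * (alS (Fintype.card α) m0 1 + alQ (Fintype.card α) m0 1 + 3) ≤ i)
    (h1 : it h M u = A ++ (it h i b ++ B)) :
    ∃ y1 y3, it h (M - j) u = y1 ++ (it h (i - j) b ++ y3) ∧ it h j y1 = A ∧ it h j y3 = B := by
  classical
  obtain ⟨hself, hcl⟩ := al6_class hp hper irr
  obtain ⟨X, hX⟩ : ∃ X, X = alS (Fintype.card α) m0 1 + alQ (Fintype.card α) m0 1 := ⟨_, rfl⟩
  rw [← hX] at hi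
  obtain ⟨i', hi'⟩ : ∃ i', i' = i / p := ⟨_, rfl⟩
  obtain ⟨M', hM'⟩ : ∃ M', M' = M / p := ⟨_, rfl⟩
  obtain ⟨j', hj'⟩ : ∃ j', j' = j / p + 1 := ⟨_, rfl⟩
  obtain ⟨ρ, hρ⟩ : ∃ ρ, ρ = i % p := ⟨_, rfl⟩
  obtain ⟨σ, hσ⟩ : ∃ σ, σ = M % p := ⟨_, rfl⟩
  have hid : i = p * i' + ρ := by rw [hi', hρ, Nat.div_add_mod]
  have hMd : M = p * M' + σ := by rw [hM', hσ, Nat.div_add_mod]
  have hjp : j < p * j' := by
    rw [hj']
    exact Nat.lt_mul_div_succ j hp
  have hij : j' + (X + 2) ≤ i' := by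
    have e1 : (j + p * (X + 3)) / p ≤ i / p := Nat.div_le_div_right hi
    rw [Nat.add_mul_div_left _ _ hp, ← hi'] at e1
    omega
  have hiM : i' ≤ M' := by
    rw [hi', hM']
    exact Nat.div_le_div_right hMi
  have hpi : p * j' ≤ p * i' := Nat.mul_le_mul_left _ (by omega)
  have hpM : p * i' ≤ p * M' := Nat.mul_le_mul_left _ hiM
  obtain ⟨b', hb'⟩ : ∃ b', b' = it h ρ b := ⟨_, rfl⟩
  obtain ⟨u', hu'⟩ : ∃ u', u' = it h σ u := ⟨_, rfl⟩
  have hLb : Legal h b' := by rw [hb']; exact al_legal_it hb ρ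
  have hLu : Legal h u' := by rw [hu']; exact al_legal_it hu σ
  have eb : it h i b = it h (p * i') b' := by rw [hb', ← it_add, ← hid]
  have eu : it h M u = it h (p * M') u' := by rw [hu', ← it_add, ← hMd]
  have hb'0 : b' ≠ [] := by
    intro h2
    have h3 := length_le_it hne ρ b
    rw [← hb', h2, List.length_nil] at h3
    exact hb0 (List.length_eq_zero_iff.1 (Nat.le_zero.1 h3))
  obtain ⟨a, ha⟩ := List.exists_mem_of_ne_nil _ hb'0
  obtain ⟨hbC, kb, hkb⟩ := al6_legal hp hper irr hLb ha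
  -- a letter of the token word
  have hne2 : it h (p * i') b' ≠ [] := by
    intro h2
    have h3 := length_le_it hne (p * i') b'
    rw [h2, List.length_nil] at h3
    exact hb'0 (List.length_eq_zero_iff.1 (Nat.le_zero.1 h3))
  obtain ⟨y, hy⟩ := List.exists_mem_of_ne_nil _ hne2
  have hyC : y ∈ it h p [a] := by
    obtain ⟨x, hx, hyx⟩ := al6_mem_it.1 hy
    exact (hcl a x (hbC x hx) y).1 ((hper i' (by omega) x y).1 hyx)
  have hyM : y ∈ it h (p * M') u' := by
    rw [← eu, h1, eb]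
    simp [hy]
  obtain ⟨z, hz, hyz⟩ := al6_mem_it.1 hyM
  have hyz' : y ∈ it h p [z] := (hper M' (by omega) z y).1 hyz
  have hzC : z ∈ it h p [a] := (hcl a y hyC z).1 ((hcl z y hyz' z).2 (hself z))
  obtain ⟨huC, ku, hku⟩ := al6_legal hp hper irr hLu hz
  have huC' : ∀ x ∈ u', x ∈ it h p [a] := fun x hx => (hcl a z hzC x).1 (huC x hx)
  obtain ⟨b2, hb2⟩ := al6_lift b' hbC
  obtain ⟨u2, hu2⟩ := al6_lift u' huC'
  obtain ⟨g, hg⟩ := al7_exists (a0 := a) hcl
  have hval : Function.Injective (List.map (Subtype.val : {x // x ∈ it h p [a]} → α)) :=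
    List.map_injective_iff.2 Subtype.val_injective
  have iF : Fintype {x // x ∈ it h p [a]} := Fintype.ofFinite _
  have hS : Std g m0 1 := hstd a inferInstance g hg
  have hm0 : 1 ≤ m0 :=
    le_trans (List.length_pos_of_ne_nil (hS.ne ⟨a, hself a⟩)) (hS.len ⟨a, hself a⟩)
  have hcard : Fintype.card {x // x ∈ it h p [a]} ≤ Fintype.card α :=
    Fintype.card_le_of_injective _ Subtype.val_injective
  have hmapb : ∀ n, (it g n b2).map Subtype.val = it h (p * n) b' := fun n => by
    rw [al7_map hg, hb2]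
  have hmapu : ∀ n, (it g n u2).map Subtype.val = it h (p * n) u' := fun n => by
    rw [al7_map hg, hu2]
  -- legal words
  have hinf : ∀ (v w : List {x // x ∈ it h p [a]}),
      v.map Subtype.val <:+: w.map Subtype.val → v <:+: w := by
    rintro v w ⟨s, t, hst⟩
    have h2 : w.map Subtype.val = (s ++ v.map Subtype.val) ++ t := hst.symm
    obtain ⟨w1, w2, e1, e2, -⟩ := List.map_eq_append_iff.1 h2
    obtain ⟨w3, w4, e3, -, e4⟩ := List.map_eq_append_iff.1 e2
    rw [e1, e3, ← hval e4.symm]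
    exact ⟨w3, w2, rfl⟩
  have hLb2 : Legal g b2 := by
    refine ⟨⟨a, hself a⟩, kb, hinf _ _ ?_⟩
    rw [hb2, al7_map hg, List.map_singleton]
    exact hkb
  have hLu2 : Legal g u2 := by
    refine ⟨⟨z, hzC⟩, ku, hinf _ _ ?_⟩
    rw [hu2, al7_map hg, List.map_singleton]
    exact hku
  have hb20 : b2 ≠ [] := by
    intro h2
    rw [h2, List.map_nil] at hb2
    exact hb'0 hb2.symm
  -- the decomposition over the class
  have h2 : (it g M' u2).map Subtype.val = A ++ (it h (p * i') b' ++ B) := by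
    rw [hmapu, ← eu, h1, eb]
  obtain ⟨A2, R2, e1, e2, e3⟩ := List.map_eq_append_iff.1 h2
  obtain ⟨W2, B2, e4, e5, e6⟩ := List.map_eq_append_iff.1 e3
  rw [← hmapb] at e5
  have e7 : W2 = it g i' b2 := hval e5
  have h3 : it g M' u2 = A2 ++ (it g i' b2 ++ B2) := by rw [e1, e4, e7]
  have hkap : j' + 1 * (alS (Fintype.card {x // x ∈ it h p [a]}) m0 1 +
      alQ (Fintype.card {x // x ∈ it h p [a]}) m0 1 + 1) ≤ i' := by
    have f1 := al5_alS_mono (r := 1) (m := m0) hcard le_rfl le_rfl hm0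
    have f2 := al5_alQ_mono (r := 1) (m := m0) hcard le_rfl le_rfl hm0
    omega
  obtain ⟨y1, y3, g1, g2, g3⟩ := level_both hS hLu2 hLb2 hb20 hiM hkap h3
  obtain ⟨d, hd⟩ : ∃ d, p * j' = j + d := ⟨p * j' - j, by omega⟩
  have g1' := congrArg (List.map Subtype.val) g1
  rw [List.map_append, List.map_append, hmapu, hmapb] at g1'
  have g2' := congrArg (List.map Subtype.val) g2
  rw [al7_map hg, e2] at g2'
  have g3' := congrArg (List.map Subtype.val) g3
  rw [al7_map hg, e6] at g3'
  have m1 : p * (M' - j') = p * M' - p * j' := Nat.mul_sub _ _ _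
  have m2 : p * (i' - j') = p * i' - p * j' := Nat.mul_sub _ _ _
  refine ⟨it h d (y1.map Subtype.val), it h d (y3.map Subtype.val), ?_, ?_, ?_⟩
  · have k1 : it h (M - j) u = it h d (it h (p * (M' - j')) u') := by
      rw [hu', ← it_add, ← it_add]
      congr 1
      omega
    have k2 : it h (i - j) b = it h d (it h (p * (i' - j')) b') := by
      rw [hb', ← it_add, ← it_add]
      congr 1
      omega
    rw [k1, k2, g1', it_append, it_append]
  · rw [← it_add, ← hd, g2']
  · rw [← it_add, ← hd, g3']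

end D0L
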