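import Pool.Agent.H.MP_374efc_lc.Asm.Al7

/-!
# MP_374efc_lc: the small token lies in the chain, for codes of primitive aperiodic systems

`align_cod`: for a normal form `(H, b0)` which is a code of a primitive aperiodic system, `ω = H^c(b0)` lies in
`Lp H ω N` for all `c ≥ cLc s`, `s` the size of `(H, b0)`; `H` need not be primitive.
-/

set_option autoImplicit false

namespace D0L

theorem al8_count {n : ℕ} {H : Fin n → List (Fin n)} (j : Fin n) (x : List (Fin n)) :
    ((app H x).count j : ℚ) = ∑ d, ((H d).count j : ℚ) * (x.count d : ℚ) := by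
  classical
  induction x with
  | nil => simp [app_nil]
  | cons a x ih =>
    rw [app_cons, List.count_append, Nat.cast_add, ih]
    have : ∀ d : Fin n, ((H d).count j : ℚ) * ((a :: x).count d : ℚ) =
        ((H d).count j : ℚ) * (x.count d : ℚ) + (if a = d then ((H d).count j : ℚ) else 0) := by
      intro d
      rw [List.count_cons]
      by_cases had : a = d
      · subst had
        simp
        ring
      · simp [had]
    rw [Finset.sum_congr rfl fun d _ => this d, Finset.sum_add_distrib, Finset.sum_ite_eq]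
    simp
    ring

/-- The matrix of a power. -/
theorem al8_pow {n : ℕ} {H : Fin n → List (Fin n)} (k : ℕ) :
    (Matrix.of fun (j i : Fin n) => ((pw H k i).count j : ℚ)) =
      (Matrix.of fun (j i : Fin n) => ((H i).count j : ℚ)) ^ k := by
  classical
  induction k with
  | zero =>
    ext j i
    rw [pow_zero, Matrix.of_apply, pw, it_zero, Matrix.one_apply, List.count_singleton]
    by_cases hij : i = j
    · simp [hij]
    · simp [hij, Ne.symm hij]
  | succ k ih =>
    rw [pow_succ', ← ih]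
    ext j i
    rw [Matrix.mul_apply]
    simp only [Matrix.of_apply, pw]
    rw [it_succ, al8_count]

theorem al8_elem {n : ℕ} {H : Fin n → List (Fin n)}
    (det : (Matrix.of fun (j i : Fin n) => ((H i).count j : ℚ)).det ≠ 0) (p : ℕ) :
    Elem (pw H p) := by
  apply elem_of_det
  rw [al8_pow, Matrix.det_pow]
  exact pow_ne_zero _ det

/-- Images of a letter of the code of a primitive aperiodic morphism are not periodic. -/
theorem al8_eper {α : Type} [Fintype α] {h : α → List α} (hne : ∀ a, h a ≠ []) (hp : Prim h)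
    (hper : ¬ Per h) {n : ℕ} {t : Fin n → List α} {H : Fin n → List (Fin n)}
    (ht : ∀ i, t i ≠ []) (hk : ∀ i, app h (t i) = app t (H i)) : ¬ EPer H := by
  rintro ⟨a, p, U, q, hp0, hq, hU, hseg⟩
  apply hper
  refine al6_per ht hq hU ?_
  intro x m
  obtain ⟨y, hy⟩ := List.exists_mem_of_ne_nil _ (ht a)
  obtain ⟨T, hT⟩ : ∃ T, T = 2 ^ Fintype.card α := ⟨_, rfl⟩
  have h1 : m + T ≤ p * (m + T) := Nat.le_mul_of_pos_left _ hp0
  obtain ⟨k, hk2⟩ : ∃ k, p * (m + T) = m + k ∧ T ≤ k := ⟨p * (m + T) - m, by omega, by omega⟩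
  have h2 : x ∈ it h k [y] := full_of_prim hp hne (by rw [← hT]; exact hk2.2) y x
  obtain ⟨z, L, hz⟩ := hseg (m + T)
  refine ⟨z, L, ?_⟩
  rw [← hz, it_code hk, app_singleton, hk2.1, it_add]
  refine Z3_infix_it m ?_
  exact (Z3_infix_it k hy).subset h2

/-- period bound -/
def cPb (s : ℕ) : ℕ := (2 ^ (s * s) + 1) ^ 2

/-- The level constant for normal forms of size `s`. -/
def cLc (s : ℕ) : ℕ := cPb s * (alS s (s ^ cPb s) 1 + alQ s (s ^ cPb s) 1 + 3)

theorem cLc_primrec : Primrec cLc := by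
  have hid : Primrec (fun s : ℕ => s) := Primrec.id
  have hP : Primrec (fun s : ℕ => cPb s) :=
    cp3_pow (cp3_add (cp3_pow (cp3_const 2) (cp3_mul hid hid)) (cp3_const 1)) (cp3_const 2)
  have hm : Primrec (fun s : ℕ => s ^ cPb s) := cp3_pow hid hP
  have h1 : Primrec (fun s : ℕ => s + 1) := cp3_add hid (cp3_const 1)
  have hD : Primrec (fun s : ℕ => D0 s (s ^ cPb s) 1) := cp3_D0 hid hm (cp3_const 1)
  have hp : Primrec (fun s : ℕ => (s ^ cPb s) ^ 1) := cp3_pow hm (cp3_const 1)
  have hS : Primrec (fun s : ℕ => alS s (s ^ cPb s) 1) :=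
    cp3_mul (cp3_pow h1 hD) (cp3_pow h1 (cp3_mul hp hD))
  have hQ : Primrec (fun s : ℕ => alQ s (s ^ cPb s) 1) :=
    cp3_add (cp3_mul (cp3_add hp (cp3_const 3)) hD) (cp3_const 1)
  exact cp3_mul hP (cp3_add (cp3_add hS hQ) (cp3_const 3))

theorem cLc_computable : Computable cLc := cLc_primrec.to_comp

/-- The small token lies in the chain: irreducible morphisms. -/
theorem align_irr {n : ℕ} {H : Fin n → List (Fin n)} {b0 : List (Fin n)} {s N c : ℕ}
    (hs : Sz s H b0) (hne : ∀ a, H a ≠ []) (irr : ∀ i j, ∃ q, 0 < q ∧ j ∈ it H q [i])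
    (det : (Matrix.of fun (j i : Fin n) => ((H i).count j : ℚ)).det ≠ 0) (hE : ¬ EPer H)
    (hl : Legal H b0) (hb0 : b0 ≠ []) (hN : Rel H b0 N) (hc : cLc s ≤ c) :
    Lp H (it H c b0) N (it H c b0) := by
  obtain ⟨h1, h2, h3⟩ := hs
  obtain ⟨p, hp, hpb, hper⟩ := al6_period H
  obtain ⟨hself, hcl⟩ := al6_class hp hper irr
  obtain ⟨a, ha⟩ := List.exists_mem_of_ne_nil _ hb0
  have hs1 : 1 ≤ s := by
    have := h2 a
    have := List.length_pos_of_ne_nil (hne a)
    omega
  have hpc : p ≤ cPb s := by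
    refine hpb.trans ?_
    unfold cPb
    refine Nat.pow_le_pow_left (Nat.add_le_add_right ?_ 1) 2
    exact Nat.pow_le_pow_right (by norm_num) (Nat.mul_le_mul h1 h1)
  have hm : s ^ p ≤ s ^ cPb s := Nat.pow_le_pow_right hs1 hpc
  have hm1 : 1 ≤ s ^ p := Nat.one_le_pow _ _ hs1
  refine align_of_level hne (κ := p * (alS (Fintype.card (Fin n)) (s ^ p) 1 +
    alQ (Fintype.card (Fin n)) (s ^ p) 1 + 3)) ?_ hN (le_trans ?_ hc)
  · intro A B M i j hMi hi e1
    refine level_irr hp hne hper irr ?_ hl hl hb0 hMi hi e1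
    intro a0 iF g hg
    exact al7_std hp hne h2 (al8_elem det p) hper hself hcl hE hg
  · have f1 := al5_alS_mono (r := 1) (r' := 1) h1 hm le_rfl hm1
    have f2 := al5_alQ_mono (r := 1) (r' := 1) h1 hm le_rfl hm1
    unfold cLc
    exact Nat.mul_le_mul hpc (by omega)

/-- **The small token lies in the chain**: normal forms which are codes of primitive aperiodic
systems. -/
theorem align_cod {α : Type} [Fintype α] {h : α → List α} {w : List α} {n N s c : ℕ}
    {t : Fin n → List α} {H : Fin n → List (Fin n)} {b0 : List (Fin n)}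
    (hne : ∀ a, h a ≠ []) (hp : Prim h) (hper : ¬ Per h) (hcod : Cod h w t H b0)
    (hnf : NF H b0 N) (hs : Sz s H b0) (hc : cLc s ≤ c) :
    Lp H (it H c b0) N (it H c b0) := by
  have ht : ∀ i, t i ≠ [] := by
    intro i hi
    have h1 : app t [i] = app t [] := by rw [app_singleton, hi, app_nil]
    exact absurd (hcod.inj h1) (List.cons_ne_nil _ _)
  exact align_irr hs (fun a => ne_of_inj hnf.inj a) hnf.irr hcod.det
    (al8_eper hne hp hper ht hcod.comm)
    (legal (fun a => ne_of_inj hnf.inj a) hnf.inj hnf.ne ⟨N, hnf.rel⟩ hnf.gr) hnf.ne hnf.rel hc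

end D0L
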