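import Pool.Agent.H.MP_374efc_lc.Asm.Top
import Pool.Agent.H.MP_374efc_lc.Red.Z1

/-!
# MP_374efc_lc: mirror images of normal forms

`NF.reverse : NF H b0 N → NF (rev H) b0.reverse N` (`rev H a = (H a).reverse`), and the mirror images of `Bimk`, `Lett`,
`HasX` (`HasX` for the mirror image: some product of `w_0, .., w_(n-1)` which ends with `w_0` is the image of a word).
-/

set_option autoImplicit false

namespace D0L

variable {n N : ℕ} {H : Fin n → List (Fin n)} {b0 : List (Fin n)}

theorem app_rev {α : Type} (h : α → List α) (x : List α) :
    app (rev h) x.reverse = (app h x).reverse := Z1_app_rev h x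

theorem rev_rev {α : Type} (h : α → List α) : rev (rev h) = h := Z1_rev_rev h

theorem flatten_rev {α : Type} (L : List (List α)) :
    (L.reverse.map List.reverse).flatten = L.flatten.reverse := by
  induction L with
  | nil => rfl
  | cons x L ih =>
    rw [List.reverse_cons, List.map_append, List.flatten_append, ih, List.flatten_cons,
      List.reverse_append]
    simp

/-- Products of words of the system and their mirror images. -/
theorem prod_rev {α : Type} (h : α → List α) (w : List α) (js : List ℕ) :
    (js.reverse.map fun j => it (rev h) j w.reverse).flatten =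
      ((js.map fun j => it h j w).flatten).reverse := by
  rw [← flatten_rev, ← List.map_reverse, List.map_map]
  congr 1
  apply List.map_congr_left
  intro j _
  exact it_rev h j w

theorem Rel.reverse {α : Type} {h : α → List α} {w : List α} {p : ℕ} (hr : Rel h w p) :
    Rel (rev h) w.reverse p := by
  obtain ⟨js, h1, h2, h3⟩ := hr
  refine ⟨js.reverse, by simpa using h1, fun j hj => h2 j (List.mem_reverse.1 hj), ?_⟩
  rw [prod_rev, it_rev, h3]

theorem rel_rev_iff {α : Type} {h : α → List α} {w : List α} {p : ℕ} :
    Rel (rev h) w.reverse p ↔ Rel h w p := by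
  constructor
  · intro hr
    have h1 := hr.reverse
    rwa [rev_rev, List.reverse_reverse] at h1
  · exact Rel.reverse

theorem TkM.reverse {α : Type} {h : α → List α} {w x : List α} (hx : TkM h w x) :
    TkM (rev h) w.reverse x.reverse := by
  obtain ⟨js, rfl⟩ := hx
  exact ⟨js.reverse, (prod_rev h w js).symm⟩

theorem tkM_rev_iff {α : Type} {h : α → List α} {w x : List α} :
    TkM (rev h) w.reverse x ↔ TkM h w x.reverse := by
  constructor
  · intro hr
    have h1 := hr.reverse
    rwa [rev_rev, List.reverse_reverse] at h1
  · intro hr
    have h1 := hr.reverse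
    rwa [List.reverse_reverse] at h1

theorem inj_rev {α : Type} {h : α → List α} (hi : Function.Injective (app h)) :
    Function.Injective (app (rev h)) := by
  intro x y hxy
  have h1 : app (rev h) x.reverse.reverse = app (rev h) y.reverse.reverse := by
    rwa [List.reverse_reverse, List.reverse_reverse]
  rw [app_rev, app_rev, List.reverse_inj] at h1
  exact List.reverse_inj.1 (hi h1)

theorem ne_rev {α : Type} {h : α → List α} {a : α} (hi : h a ≠ []) : rev h a ≠ [] := by
  intro h1
  apply hi
  have h2 : (h a).reverse = [] := h1
  simpa using h2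

/-- The mirror image of a normal form. -/
theorem NF.reverse (hnf : NF H b0 N) : NF (rev H) b0.reverse N where
  inj := inj_rev hnf.inj
  ne := by simpa using hnf.ne
  le := hnf.le
  rel := hnf.rel.reverse
  least := fun p hp => hnf.least p (rel_rev_iff.1 hp)
  gr := fun i => gr_rev.2 (hnf.gr i)
  irr := by
    intro i j
    obtain ⟨q, hq, h1⟩ := hnf.irr i j
    refine ⟨q, hq, ?_⟩
    rw [Z1_it_rev_one]
    simpa using h1
  first := by
    obtain ⟨f, hf, hf'⟩ := hnf.last
    refine ⟨f, hf, fun i => ?_⟩
    obtain ⟨s, hs⟩ := hf' i
    refine ⟨s.reverse, ?_⟩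
    rw [it_rev, hs]
    simp
  last := by
    obtain ⟨f, hf, hf'⟩ := hnf.first
    refine ⟨f, hf, fun i => ?_⟩
    obtain ⟨s, hs⟩ := hf' i
    refine ⟨s.reverse, ?_⟩
    rw [it_rev, hs]
    simp
  unit := by
    have h1 : (Matrix.of fun (i a : Fin n) => ((it (rev H) i b0.reverse).count a : ℤ)) =
        Matrix.of fun (i a : Fin n) => ((it H i b0).count a : ℤ) := by
      ext i a
      rw [Matrix.of_apply, Matrix.of_apply, it_rev, List.count_reverse]
    rw [h1]
    exact hnf.unit
  hull := by
    intro G h0 hm hs hg x
    have h1 := hnf.hull (fun x => G x.reverse) (by simpa using h0)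
      (fun x y hx hy => by
        rw [List.reverse_append]
        exact hm _ _ hy hx)
      (fun x y z hx hy hxz hzy => by
        rw [List.reverse_append] at hxz hzy
        exact hs _ _ _ hy hx hzy hxz) (fun i hi => by
        rw [← it_rev]
        exact hg i hi) x.reverse
    simpa using h1

/-- The mirror image of the hull with the right-unitary condition. -/
theorem Bim.hull_right (hnf : NF H b0 N) {G : List (Fin n) → Prop} (h0 : G [])
    (hm : ∀ x y, G x → G y → G (x ++ y)) (hu : ∀ x y, G y → G (x ++ y) → G x)
    (hw : G b0) (hH : ∀ c, G (H c)) : ∀ x, G x := by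
  intro x
  have h1 := Bim.hull_left hnf.reverse (G := fun x => G x.reverse) (by simpa using h0)
    (fun x y hx hy => by
      rw [List.reverse_append]
      exact hm _ _ hy hx)
    (fun x y hx hxy => by
      rw [List.reverse_append] at hxy
      exact hu _ _ hx hxy) (by simpa using hw) (fun c => by
      have : (rev H c).reverse = H c := by simp [rev]
      rw [this]
      exact hH c) x.reverse
  simpa using h1

theorem head?_reverse' {α : Type} (x : List α) : x.reverse.head? = x.getLast? := by
  simp

theorem Bimk.reverse (hb : Bimk H) : Bimk (rev H) := by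
  constructor
  · intro c d hcd
    apply hb.2
    simpa [rev] using hcd
  · intro c d hcd
    apply hb.1
    simpa [rev] using hcd

theorem bimk_rev_iff : Bimk (rev H) ↔ Bimk H := by
  constructor
  · intro h1
    have h2 := h1.reverse
    rwa [rev_rev] at h2
  · exact Bimk.reverse

theorem lett_rev_iff : Lett (rev H) b0.reverse ↔ Lett H b0 := by
  unfold Lett
  simp only [it_rev, List.length_reverse]

/-- `HasX` for the mirror image. -/
theorem hasX_rev_iff : HasX (rev H) b0.reverse ↔ ∃ (x : List (Fin n)) (js : List ℕ),
    (∀ j ∈ js, j < n) ∧ app H x = (js.map fun j => it H j b0).flatten ++ b0 := by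
  constructor
  · rintro ⟨x, js, h1, h2⟩
    refine ⟨x.reverse, js.reverse, fun j hj => h1 j (List.mem_reverse.1 hj), ?_⟩
    have h3 : app H x.reverse = (app (rev H) x).reverse := by
      conv_lhs => rw [← rev_rev H]
      exact app_rev (rev H) x
    rw [h3, h2, List.reverse_append, List.reverse_reverse]
    congr 1
    have h4 := prod_rev H b0 js.reverse
    rw [List.reverse_reverse] at h4
    rw [h4, List.reverse_reverse]
  · rintro ⟨x, js, h1, h2⟩
    refine ⟨x.reverse, js.reverse, fun j hj => h1 j (List.mem_reverse.1 hj), ?_⟩
    rw [app_rev, h2, List.reverse_append, prod_rev]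

end D0L
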