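import Pool.Agent.H.MP_374efc_lc.Asm.BimAll
import Pool.Agent.H.MP_374efc_lc.Bim.LocN
import Pool.Agent.H.MP_374efc_lc.Bim.MixAll

/-!
# The case with cyclic letter maps

`lett_bim`: in a normal form whose first letter map and last letter map are injective the words
`w_0, …, w_(n-1)` are letters. `bimX`, `caseX`; `cdst_of_nonBim`: the code dichotomy follows from the
remaining case.
-/

set_option autoImplicit false

namespace D0L

open Bim Tr

variable {n N : ℕ} {H : Fin n → List (Fin n)} {b0 : List (Fin n)}

/-- **The case with cyclic letter maps.** -/
theorem lett_bim (hnf : NF H b0 N) (hb : Bimk H) : Lett H b0 := by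
  have hb' := bmk_of hb
  have hn := pos_n hnf
  have hk := kk_xh hnf hb'
  exact lett_of_bimk hnf hb (fun hl => noMix hnf hb' hl fun hX => hk n hn le_rfl hX) hk
    fun hl => loc_nf hnf hb' hl

theorem bimX : BimX := fun _ _ _ _ hnf hb _ => lett_bim hnf hb

theorem caseX : CaseX := caseX_of_p1 p1

/-- The code dichotomy follows from the case which is not bimarked. -/
theorem cdst_of_nonBim (h : NonBim) : CDst := cdst_of_cases bimX caseX h

/-- The full statement about bounds follows from the case which is not bimarked. -/
theorem bound_of_nonBim (h : NonBim) : ∃ F', Computable F' ∧ Bound F' :=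
  bound_of_cases bimX caseX h

end D0L
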