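import Pool.Agent.H.MP_374efc_lc.Asm.Free

/-!
# MP_374efc_lc: flexible end of the proof

A computable bound of `N` for the systems in normal form is enough; such a bound follows from a computable
bound of `K` (the images of all letters under `h ^ K` are products of words of the system), from
stationarity of the stages at a computable level, and from a computable bound of the lengths of new
primes.
-/

set_option autoImplicit false

namespace D0L

/-- A bound of `N` for the normal forms of size at most `s`. -/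
def NFB (G : ℕ → ℕ) : Prop :=
  ∀ (n N s : ℕ) (H : Fin n → List (Fin n)) (b0 : List (Fin n)), Sz s H b0 → NF H b0 N → N ≤ G s

/-- Products of words of the system. -/
def TkM {α : Type} (H : α → List α) (b0 : List α) (x : List α) : Prop :=
  ∃ js : List ℕ, x = (js.map (fun j => it H j b0)).flatten

/-- The size of the system over an invariant code in normal form. -/
theorem nf_size {α : Type} [Fintype α] {h : α → List α} {w : List α} {s : ℕ} (hs : Sz s h w)
    {n : ℕ} {t : Fin n → List α} {H : Fin n → List (Fin n)} {b0 : List (Fin n)} {N b : ℕ}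
    (hcod : Cod h w t H b0) (hnf : NF H b0 N) (hn : n ≤ b) : Sz (b + (s + 1) ^ (b + 2)) H b0 := by
  have htne : ∀ i, t i ≠ [] := by
    intro i hi
    have h1 : app t [i] = app t [] := by rw [app_singleton, hi, app_nil]
    simpa using hcod.inj h1
  obtain ⟨f, hf, hf'⟩ := hnf.first
  have hpow : ∀ i ≤ b + 2, (s + 1) ^ i ≤ (s + 1) ^ (b + 2) := fun i hi =>
    Nat.pow_le_pow_right (Nat.succ_pos s) hi
  have ht : ∀ i, (t i).length ≤ (s + 1) ^ b := by
    intro i
    obtain ⟨k, hk⟩ := hf.2 i
    obtain ⟨s', hs'⟩ := hf' k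
    have h1 : app t (it H k b0) = it h k w := by rw [it_code hcod.comm, hcod.ax]
    rw [hs', app_cons, hk] at h1
    have h2 : (t i).length ≤ (it h k w).length := by
      rw [← h1, List.length_append]
      exact Nat.le_add_right _ _
    have h3 := length_it_le hs.2.1 k w
    have h4 : s ^ (k : ℕ) * w.length ≤ (s + 1) ^ (k : ℕ) * (s + 1) :=
      Nat.mul_le_mul (Nat.pow_le_pow_left (Nat.le_succ s) _) (hs.2.2.trans (Nat.le_succ s))
    rw [← pow_succ] at h4
    have h5 : (s + 1) ^ ((k : ℕ) + 1) ≤ (s + 1) ^ b :=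
      Nat.pow_le_pow_right (Nat.succ_pos s) (by have := k.2; omega)
    omega
  refine ⟨?_, ?_, ?_⟩
  · rw [Fintype.card_fin]
    omega
  · intro i
    have h1 := length_le_app htne (H i)
    rw [← hcod.comm i] at h1
    have h2 := length_app_le hs.2.1 (t i)
    have h3 : s * (t i).length ≤ (s + 1) * (s + 1) ^ b := Nat.mul_le_mul (Nat.le_succ s) (ht i)
    rw [← pow_succ'] at h3
    have h4 := hpow (b + 1) (by omega)
    omega
  · have h1 := length_le_app htne b0
    rw [hcod.ax] at h1
    have h2 := hs.2.2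
    have h3 : s + 1 ≤ (s + 1) ^ (b + 2) := Nat.le_self_pow (by omega) _
    omega

/-- A computable bound of `N` in normal form is enough. -/
theorem bound_of_nfb {G : ℕ → ℕ} (hG : Computable G) (hb : NFB G) :
    ∃ F', Computable F' ∧ Bound F' := by
  have hcomp : Computable (fun s => G (freeF s + (s + 1) ^ (freeF s + 2)) + 1) := by
    have h2 : Computable (fun s => (s + 1) ^ (freeF s + 2)) :=
      Cm_pow.to_comp.comp (Computable.succ.comp Computable.id)
        (Primrec.nat_add.to_comp.comp freeF_computable (Computable.const 2))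
    have h3 : Computable (fun s => freeF s + (s + 1) ^ (freeF s + 2)) :=
      Primrec.nat_add.to_comp.comp freeF_computable h2
    exact Computable.succ.comp (hG.comp h3)
  refine main4E _ hcomp ?_
  intro α _ h w s hs he hp hper hl hw hlc
  by_cases hgr : ∀ a, Gr h a
  · obtain ⟨n, t, H, b0, N, hcod, hnf, hrel⟩ := exists_nf he.inj hgr hw hlc
    have h1 : n ≤ freeF s := freeBound α h w s hs he hp hper hl hw n t H b0 hcod
    have h2 := hb n N _ H b0 (nf_size hs hcod hnf h1) hnf
    have h3 : N ≤ G (freeF s + (s + 1) ^ (freeF s + 2)) + 1 := h2.trans (Nat.le_succ _)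
    exact ⟨N, h3, (hrel N).2 hnf.rel⟩
  · push Not at hgr
    obtain ⟨a, ha⟩ := hgr
    have h3 : 1 ≤ G (freeF s + (s + 1) ^ (freeF s + 2)) + 1 := Nat.le_add_left _ _
    exact ⟨1, h3, rel_of_prim_bdd he.good.ne hp ha w⟩

/-! ### products of words of the system -/

theorem TkM.nil {α : Type} (H : α → List α) (b0 : List α) : TkM H b0 [] := ⟨[], rfl⟩

theorem TkM.mul {α : Type} {H : α → List α} {b0 x y : List α} (hx : TkM H b0 x)
    (hy : TkM H b0 y) : TkM H b0 (x ++ y) := by
  obtain ⟨js, rfl⟩ := hx
  obtain ⟨ks, rfl⟩ := hy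
  exact ⟨js ++ ks, by simp⟩

theorem TkM.tok {α : Type} (H : α → List α) (b0 : List α) (i : ℕ) : TkM H b0 (it H i b0) :=
  ⟨[i], by simp⟩

theorem TkM.flatten {α : Type} {H : α → List α} {b0 : List α} {L : List (List α)}
    (hL : ∀ z ∈ L, TkM H b0 z) : TkM H b0 L.flatten := by
  induction L with
  | nil => exact TkM.nil H b0
  | cons z L ih =>
    rw [List.flatten_cons]
    exact TkM.mul (hL z (by simp)) (ih fun z hz => hL z (by simp [hz]))

theorem TkM.it {α : Type} {H : α → List α} {b0 x : List α} (hx : TkM H b0 x) (k : ℕ) :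
    TkM H b0 (D0L.it H k x) := by
  obtain ⟨js, rfl⟩ := hx
  rw [it_flatten, List.map_map]
  apply TkM.flatten
  intro z hz
  rw [List.mem_map] at hz
  obtain ⟨j, _, rfl⟩ := hz
  simp only [Function.comp]
  rw [← it_add]
  exact TkM.tok H b0 _

theorem TkM.mono {α : Type} {H : α → List α} {b0 x : List α} {j k : ℕ}
    (hx : TkM H b0 (D0L.it H j x)) (hjk : j ≤ k) : TkM H b0 (D0L.it H k x) := by
  obtain ⟨d, rfl⟩ : ∃ d, k = d + j := ⟨k - j, by omega⟩
  rw [it_add]
  exact TkM.it hx d

/-- Number of words of bounded length. -/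
theorem card_words {n L : ℕ} {ι : Type} [Fintype ι] (g : ι → List (Fin n))
    (hg : Function.Injective g) (hl : ∀ i, (g i).length ≤ L) :
    Fintype.card ι ≤ (n + 1) ^ L := by
  classical
  let φ : ι → (Fin L → Option (Fin n)) := fun i q => (g i)[(q : ℕ)]?
  have hφ : Function.Injective φ := by
    intro i j hij
    apply hg
    apply List.ext_getElem?
    intro q
    by_cases hq : q < L
    · exact congrFun hij ⟨q, hq⟩
    · have h1 := hl i
      have h2 := hl j
      rw [List.getElem?_eq_none (by omega), List.getElem?_eq_none (by omega)]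
  have h1 := Fintype.card_le_of_injective φ hφ
  simpa using h1

/-- Short words of the system have a small index. -/
theorem index_lt {n N : ℕ} {H : Fin n → List (Fin n)} {b0 : List (Fin n)} (hnf : NF H b0 N)
    {L j : ℕ} (hj : (it H j b0).length ≤ L) : j < (n + 1) ^ L := by
  have hne : ∀ a, H a ≠ [] := fun a => ne_of_inj hnf.inj a
  have h1 := card_words (n := n) (L := L) (fun i : Fin (j + 1) => it H i b0) (by
    intro i i' hii
    by_contra hne'
    have h2 : (i : ℕ) ≠ i' := fun h3 => hne' (Fin.ext h3)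
    rcases lt_or_gt_of_ne h2 with h3 | h3
    · exact it_ne_of_gr hne hnf.gr hnf.ne h3 hii
    · exact it_ne_of_gr hne hnf.gr hnf.ne h3 hii.symm) (by
    intro i
    exact (length_it_mono hne b0 (Nat.lt_succ_iff.1 i.2)).trans hj)
  rw [Fintype.card_fin] at h1
  omega

/-- A bound of `K`. -/
def KB (G : ℕ → ℕ) : Prop :=
  ∀ (n N s : ℕ) (H : Fin n → List (Fin n)) (b0 : List (Fin n)), Sz s H b0 → NF H b0 N →
    ∃ K ≤ G s, ∀ a, TkM H b0 (it H K [a])

theorem nfb_of_kb {G : ℕ → ℕ} (hb : KB G) : NFB (fun s => G s + (s + 1) ^ ((s + 1) ^ G s)) := by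
  intro n N s H b0 hs hnf
  obtain ⟨K, hK, hKa⟩ := hb n N s H b0 hs hnf
  have hne : ∀ a, H a ≠ [] := fun a => ne_of_inj hnf.inj a
  set J := (s + 1) ^ ((s + 1) ^ G s) with hJ
  have hn : n ≤ s := by simpa using hs.1
  have hlen : ∀ a, (it H K [a]).length ≤ (s + 1) ^ G s := by
    intro a
    have h1 := length_it_le hs.2.1 K [a]
    rw [List.length_singleton, Nat.mul_one] at h1
    have h2 : s ^ K ≤ (s + 1) ^ K := Nat.pow_le_pow_left (Nat.le_succ s) K
    have h3 : (s + 1) ^ K ≤ (s + 1) ^ G s := Nat.pow_le_pow_right (Nat.succ_pos s) hK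
    omega
  have htok : ∀ x : List (Fin n), ∃ js : List ℕ, (∀ j ∈ js, j < J) ∧
      it H K x = (js.map (fun j => it H j b0)).flatten := by
    intro x
    induction x with
    | nil => exact ⟨[], by simp, by rw [it_nil]; rfl⟩
    | cons a x ih =>
      obtain ⟨js, h1, h2⟩ := ih
      obtain ⟨ks, h3⟩ := hKa a
      refine ⟨ks ++ js, ?_, ?_⟩
      · intro j hj
        rw [List.mem_append] at hj
        rcases hj with hj | hj
        · have h4 : (it H j b0).length ≤ (it H K [a]).length := by
            rw [h3]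
            have h8 : it H j b0 ∈ ks.map (fun j => it H j b0) := List.mem_map.mpr ⟨j, hj, rfl⟩
            exact (List.infix_of_mem_flatten h8).length_le
          have h5 := index_lt hnf (h4.trans (hlen a))
          have h6 : (n + 1) ^ ((s + 1) ^ G s) ≤ J :=
            Nat.pow_le_pow_left (by omega) _
          omega
        · exact h1 j hj
      · have h4 : it H K (a :: x) = it H K [a] ++ it H K x := by
          rw [← it_append]
          rfl
        rw [h4, h3, h2]
        simp
  obtain ⟨js, h1, h2⟩ := htok (it H J b0)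
  have h3 : Rel H b0 (K + J) := by
    refine ⟨js, ?_, ?_, ?_⟩
    · rintro rfl
      have h4 := length_it_mono hne b0 (Nat.zero_le (K + J))
      rw [it_add, h2, it_zero] at h4
      simp at h4
      exact hnf.ne h4
    · intro j hj
      have := h1 j hj
      omega
    · rw [it_add, h2]
  have h4 := hnf.least _ h3
  change N ≤ G s + J
  omega

/-- The computable version. -/
theorem bound_of_kb {G : ℕ → ℕ} (hG : Computable G) (hb : KB G) :
    ∃ F', Computable F' ∧ Bound F' := by
  refine bound_of_nfb ?_ (nfb_of_kb hb)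
  have h1 : Computable (fun s => (s + 1) ^ G s) :=
    Cm_pow.to_comp.comp (Computable.succ.comp Computable.id) hG
  have h2 : Computable (fun s => (s + 1) ^ ((s + 1) ^ G s)) :=
    Cm_pow.to_comp.comp (Computable.succ.comp Computable.id) h1
  exact Primrec.nat_add.to_comp.comp hG h2

/-- (P1): the images of the letters under some power of the morphism are products of words of the
system. -/
def P1st : Prop := ∀ (n N : ℕ) (H : Fin n → List (Fin n)) (b0 : List (Fin n)), NF H b0 N →
  ∃ K, ∀ a, TkM H b0 (it H K [a])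

/-- The stages are stationary from a bounded level on. -/
def SB (G : ℕ → ℕ) : Prop :=
  ∀ (n N s : ℕ) (H : Fin n → List (Fin n)) (b0 : List (Fin n)), Sz s H b0 → NF H b0 N →
    ∃ J ≤ G s, ∀ x, TkM H b0 (it H (J + 1) x) → TkM H b0 (it H J x)

theorem kb_of_sb (hP : P1st) {G : ℕ → ℕ} (hb : SB G) : KB G := by
  intro n N s H b0 hs hnf
  obtain ⟨J, hJ, hst⟩ := hb n N s H b0 hs hnf
  obtain ⟨K, hK⟩ := hP n N H b0 hnf
  refine ⟨J, hJ, fun a => ?_⟩
  have h1 : ∀ i x, TkM H b0 (it H (J + i) x) → TkM H b0 (it H J x) := by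
    intro i
    induction i with
    | zero => exact fun x hx => hx
    | succ i ih =>
      intro x hx
      have h2 : it H (J + (i + 1)) x = it H (J + i) (app H x) := by
        rw [← Nat.add_assoc, it_succ']
      rw [h2] at hx
      have h3 := ih _ hx
      rw [← it_succ'] at h3
      exact hst x h3
  exact h1 K [a] (TkM.mono (hK a) (Nat.le_add_left K J))

/-- New primes of all stages have bounded length. -/
def PB (C : ℕ → ℕ) : Prop :=
  ∀ (n N s : ℕ) (H : Fin n → List (Fin n)) (b0 : List (Fin n)), Sz s H b0 → NF H b0 N →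
    ∀ j x, TkM H b0 (it H j x) → ∃ L : List (List (Fin n)), x = L.flatten ∧
      ∀ z ∈ L, (∃ i, z = it H i b0) ∨ (z.length ≤ C s ∧ TkM H b0 (it H j z))

theorem sb_of_pb {C : ℕ → ℕ} (hb : PB C) : SB (fun s => (s + 1) ^ C s) := by
  classical
  intro n N s H b0 hs hnf
  have hn : n ≤ s := by simpa using hs.1
  have key := hb n N s H b0 hs hnf
  -- words of bounded length
  have hfin : {z : List (Fin n) | z.length ≤ C s}.Finite := List.finite_length_le _ _
  set U : Finset (List (Fin n)) := hfin.toFinset with hU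
  have hUm : ∀ z, z ∈ U ↔ z.length ≤ C s := by
    intro z
    rw [hU, Set.Finite.mem_toFinset]
    rfl
  have hUc : U.card ≤ (n + 1) ^ C s := by
    have h1 := card_words (n := n) (L := C s) (fun z : U => (z : List (Fin n)))
      Subtype.coe_injective (fun z => (hUm z).1 z.2)
    rwa [Fintype.card_coe] at h1
  let A : ℕ → Finset (List (Fin n)) := fun j => U.filter (fun z => TkM H b0 (it H j z))
  have hA : ∀ j z, z ∈ A j ↔ z.length ≤ C s ∧ TkM H b0 (it H j z) := by
    intro j z
    rw [Finset.mem_filter, hUm]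
  have hmono : ∀ j, A j ⊆ A (j + 1) := by
    intro j z hz
    rw [hA] at hz ⊢
    exact ⟨hz.1, TkM.mono hz.2 (Nat.le_succ j)⟩
  -- some step is stationary
  obtain ⟨j, hj, hjA⟩ : ∃ j ≤ (n + 1) ^ C s, A j = A (j + 1) := by
    by_contra hc
    push Not at hc
    have h1 : ∀ j ≤ (n + 1) ^ C s + 1, j ≤ (A j).card := by
      intro j
      induction j with
      | zero => intro _; exact Nat.zero_le _
      | succ j ih =>
        intro hj
        have h2 := ih (by omega)
        have h3 : A j ⊂ A (j + 1) :=
          (Finset.ssubset_iff_subset_ne).2 ⟨hmono j, hc j (by omega)⟩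
        have h4 := Finset.card_lt_card h3
        omega
    have h2 := h1 _ le_rfl
    have h3 : (A ((n + 1) ^ C s + 1)).card ≤ U.card := Finset.card_le_card (Finset.filter_subset _ _)
    omega
  refine ⟨j, hj.trans (Nat.pow_le_pow_left (by omega) _), ?_⟩
  intro x hx
  obtain ⟨L, hL, hLz⟩ := key (j + 1) x hx
  rw [hL, it_flatten]
  apply TkM.flatten
  intro y hy
  rw [List.mem_map] at hy
  obtain ⟨z, hz, rfl⟩ := hy
  rcases hLz z hz with ⟨i, rfl⟩ | h1
  · exact TkM.it (TkM.tok H b0 i) j
  · have h2 : z ∈ A (j + 1) := (hA _ _).2 h1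
    rw [← hjA] at h2
    exact ((hA _ _).1 h2).2

/-- A computable bound of the lengths of new primes is enough. -/
theorem bound_of_pb (hP : P1st) {C : ℕ → ℕ} (hC : Computable C) (hb : PB C) :
    ∃ F', Computable F' ∧ Bound F' := by
  refine bound_of_kb ?_ (kb_of_sb hP (sb_of_pb hb))
  exact Cm_pow.to_comp.comp (Computable.succ.comp Computable.id) hC

/-- Stationarity from a computable level on is enough. -/
theorem bound_of_sb (hP : P1st) {G : ℕ → ℕ} (hG : Computable G) (hb : SB G) :
    ∃ F', Computable F' ∧ Bound F' := bound_of_kb hG (kb_of_sb hP hb)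

end D0L
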