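import Pool.Agent.H.MP_374efc_lc.Bim.AllA
import Pool.Agent.H.MP_374efc_lc.Bim.HullS
import Pool.Agent.H.MP_374efc_lc.Pn.P1

/-!
# The case with cyclic letter maps: the theorem from its inputs

`lett_of_bimk`: in a normal form with `Bimk H` the words `w_0, …, w_(n-1)` are letters. Inputs:
no mixing `NoMix`, acyclicity of the fibre graphs, `Loc`.
-/

set_option autoImplicit false

namespace D0L

open Bim Tr

variable {n N : ℕ} {H : Fin n → List (Fin n)} {b0 : List (Fin n)}

/-- **The case with cyclic letter maps.** -/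
theorem lett_of_bimk (hnf : NF H b0 N) (hb : Bimk H) (hmix : ¬ Lett H b0 → NoMix H b0)
    (hk : ∀ m, 1 ≤ m → m ≤ n → XH H b0 m → (KK (rQ H b0 m) (rH H)).IsAcyclic)
    (hloc : ¬ Lett H b0 → ∀ m, 1 ≤ m → m ≤ n → XH H b0 m → Loc H b0 m) : Lett H b0 := by
  by_contra hl
  have hb' := bmk_of hb
  have hP := p1 n N H b0 hnf
  exact false_of_loc hnf hb' hP (xh_of (hasX_bim hnf hb' hP hl)) (hmix hl) hk (hloc hl)

/-- The case with cyclic letter maps and malnormal `H`. -/
theorem lett_of_mal (hnf : NF H b0 N) (hb : Bimk H) (hM : Mal (rH H))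
    (hmix : ¬ Lett H b0 → NoMix H b0) : Lett H b0 := by
  by_contra hl
  have hb' := bmk_of hb
  have hP := p1 n N H b0 hnf
  exact false_of_mal hnf hb' hP hM hl (xh_of (hasX_bim hnf hb' hP hl)) (hmix hl)

/-- The two statements about the case with cyclic letter maps, from the inputs. -/
theorem bim_of_inputs
    (hmix : ∀ (n N : ℕ) (H : Fin n → List (Fin n)) (b0 : List (Fin n)), NF H b0 N → Bimk H →
      ¬ Lett H b0 → NoMix H b0)
    (hk : ∀ (n N : ℕ) (H : Fin n → List (Fin n)) (b0 : List (Fin n)), NF H b0 N → Bimk H →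
      ∀ m, 1 ≤ m → m ≤ n → XH H b0 m → (KK (rQ H b0 m) (rH H)).IsAcyclic)
    (hloc : ∀ (n N : ℕ) (H : Fin n → List (Fin n)) (b0 : List (Fin n)), NF H b0 N → Bimk H →
      ¬ Lett H b0 → ∀ m, 1 ≤ m → m ≤ n → XH H b0 m → Loc H b0 m) : BimX ∧ CaseX := by
  constructor
  · intro n N H b0 hnf hb _
    exact lett_of_bimk hnf hb (hmix n N H b0 hnf hb) (hk n N H b0 hnf hb) (hloc n N H b0 hnf hb)
  · exact caseX_of_p1 p1

end D0L
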