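import Pool.Agent.H.MP_374efc_lc.Asm.Core
import Pool.Agent.H.MP_374efc_lc.CD.Fin1

/-!
# MP_374efc_lc: the code dichotomy from the existence of good relations
-/

set_option autoImplicit false

namespace D0L

/-- The open part of the code dichotomy: if the words `b_0, ..., b_(N-1)` of a normal form are not a code,
then the relation graph of the tokens is connected to the first `n` tokens, on both sides. -/
def L2st : Prop := ∀ (n N : ℕ) (H : Fin n → List (Fin n)) (b0 : List (Fin n)), NF H b0 N →
  ¬ Function.Injective (app (fun i : Fin N => it H i b0)) →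
  Cdm.LGood H b0 N ∧ Cdm.LGood (Cdm.rv H) b0.reverse N

theorem sq_eq {n : ℕ} (H : Fin n → List (Fin n)) (b0 : List (Fin n)) (k : ℕ) :
    Cdm.sq H b0 k = it H k b0 := by
  induction k with
  | zero => rfl
  | succ k ih =>
    rw [it_succ, ← ih]
    rfl

theorem pw_eq {n : ℕ} (H : Fin n → List (Fin n)) (b0 : List (Fin n)) (U : List ℕ) :
    Cdm.pw H b0 U = (U.map (fun j => it H j b0)).flatten := by
  rw [Cdm.pw, List.flatMap_def]
  congr 1
  apply List.map_congr_left
  intro j _
  exact sq_eq H b0 j

/-- A growing system has no two equal words. -/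
theorem it_ne_of_gr {n : ℕ} {H : Fin n → List (Fin n)} {b0 : List (Fin n)}
    (hne : ∀ a, H a ≠ []) (hgr : ∀ i, Gr H i) (hb : b0 ≠ []) {i j : ℕ} (hij : i < j) :
    it H i b0 ≠ it H j b0 := by
  intro he
  obtain ⟨d, rfl⟩ : ∃ d, j = d + i := ⟨j - i, by omega⟩
  have hd : 0 < d := by omega
  rw [it_add] at he
  have hper : ∀ m, it H (m * d) (it H i b0) = it H i b0 := by
    intro m
    induction m with
    | zero => rw [Nat.zero_mul, it_zero]
    | succ m ih => rw [Nat.succ_mul, Nat.add_comm, it_add, ih, ← he]
  have hne' : it H i b0 ≠ [] := by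
    intro h0
    have h1 := length_it_mono hne b0 (Nat.zero_le i)
    rw [h0, it_zero] at h1
    simp at h1
    exact hb h1
  obtain ⟨a, ha⟩ := List.exists_mem_of_ne_nil _ hne'
  obtain ⟨q, hq⟩ := hgr a ((it H i b0).length + 1)
  have h1 : (it H q [a]).length ≤ (it H q (it H i b0)).length := (Z3_infix_it q ha).length_le
  have h2 : (it H q (it H i b0)).length ≤ (it H (q * d) (it H i b0)).length :=
    length_it_mono hne _ (Nat.le_mul_of_pos_right q hd)
  rw [hper q] at h2
  omega

/-- The free case: the first words are letters. -/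
theorem letters_of_free {n N : ℕ} {H : Fin n → List (Fin n)} {b0 : List (Fin n)}
    (hnf : NF H b0 N) (hfree : Function.Injective (app (fun i : Fin N => it H i b0)))
    (i : ℕ) (hi : i < n) : (it H i b0).length = 1 := by
  set c : Fin N → List (Fin n) := fun i => it H i b0 with hc
  have hne : ∀ a, H a ≠ [] := fun a => ne_of_inj hnf.inj a
  have hcne : ∀ i, c i ≠ [] := by
    intro i h0
    have h1 : app c [i] = app c [] := by rw [app_singleton, h0, app_nil]
    simpa using hfree h1
  have hall : ∀ x : List (Fin n), ∃ v : List (Fin N), x = app c v := by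
    apply hnf.hull (fun x => ∃ v : List (Fin N), x = app c v)
    · exact ⟨[], rfl⟩
    · rintro x y ⟨u, rfl⟩ ⟨v, rfl⟩
      exact ⟨u ++ v, (app_append _ _ _).symm⟩
    · rintro x y z ⟨u, hu⟩ ⟨v, hv⟩ ⟨u', hu'⟩ ⟨v', hv'⟩
      have h1 : app c (u ++ v') = app c (u' ++ v) := by
        rw [app_append, app_append, ← hu, ← hv, ← hu', ← hv', List.append_assoc]
      have h2 := hfree h1
      rcases List.append_eq_append_iff.1 h2 with ⟨T, h3, h4⟩ | ⟨T, h3, h4⟩
      · refine ⟨T, ?_⟩
        rw [h3, app_append, ← hu] at hu'
        exact List.append_cancel_left hu'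
      · -- `u = u' ++ T`
        have h5 : x ++ z ++ app c T = x := by
          rw [hu', ← app_append, ← h3, ← hu]
        have h6 := congrArg List.length h5
        simp only [List.length_append] at h6
        have h7 : z = [] := List.length_eq_zero_iff.1 (by omega)
        exact ⟨[], by rw [h7]; rfl⟩
    · intro k hk
      exact ⟨[⟨k, hk⟩], by rw [app_singleton]⟩
  have hlet : ∀ a : Fin n, ∃ k : Fin N, c k = [a] := by
    intro a
    obtain ⟨v, hv⟩ := hall [a]
    cases v with
    | nil => simp [app_nil] at hv
    | cons k v =>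
      rw [app_cons] at hv
      refine ⟨k, ?_⟩
      have h1 := congrArg List.length hv
      rw [List.length_append, List.length_singleton] at h1
      have h2 := List.length_pos_of_ne_nil (hcne k)
      have h3 : app c v = [] := List.length_eq_zero_iff.1 (by omega)
      rw [h3, List.append_nil] at hv
      exact hv.symm
  choose k hk using hlet
  have hle : i < N := lt_of_lt_of_le hi hnf.le
  have h1 : app c [⟨i, hle⟩] = app c ((it H i b0).map k) := by
    rw [app_singleton]
    change it H i b0 = _
    have h2 : ∀ x : List (Fin n), app c (x.map k) = x := by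
      intro x
      induction x with
      | nil => rfl
      | cons a x ih => rw [List.map_cons, app_cons, ih, hk]; rfl
    rw [h2]
  have h2 := congrArg List.length (hfree h1)
  simpa using h2.symm

/-- The hypotheses of `Cdm.letters_of_good` hold in a normal form. -/
theorem cdst_of_L2 (hL2 : L2st) : CDst := by
  classical
  intro n N H b0 hnf i hi
  by_cases hfree : Function.Injective (app (fun i : Fin N => it H i b0))
  · exact letters_of_free hnf hfree i hi
  obtain ⟨hgl, hgr⟩ := hL2 n N H b0 hnf hfree
  have hne : ∀ a, H a ≠ [] := fun a => ne_of_inj hnf.inj a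
  have hn : 0 < n := by omega
  obtain ⟨js, h1, h2, h3⟩ := hnf.rel
  have h0 := zero_mem_least hnf.inj hnf.least h1 h2 h3
  have hlc : Cdm.LC H b0 N := by
    refine ⟨js, h2, h0, ?_, ?_⟩
    · by_contra hlen
      have hlen1 : js.length = 1 := by
        have := List.length_pos_of_ne_nil h1
        omega
      obtain ⟨j, rfl⟩ := List.length_eq_one_iff.1 hlen1
      have hj : j < N := h2 j (by simp)
      apply it_ne_of_gr hne hnf.gr hnf.ne hj
      rw [h3]
      simp
    · rw [sq_eq, pw_eq, h3]
  obtain ⟨f, hf, hf'⟩ := hnf.first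
  obtain ⟨f2, hf2, hf2'⟩ := hnf.last
  have hfirst : ∀ i j : Fin n, (Cdm.sq H b0 i).head? = (Cdm.sq H b0 j).head? → i = j := by
    intro i j hij
    obtain ⟨s, hs⟩ := hf' i
    obtain ⟨s', hs'⟩ := hf' j
    rw [sq_eq, sq_eq, hs, hs'] at hij
    simp only [List.head?_cons, Option.some.injEq] at hij
    exact hf.1 hij
  have hlast : ∀ i j : Fin n, (Cdm.sq H b0 i).getLast? = (Cdm.sq H b0 j).getLast? → i = j := by
    intro i j hij
    obtain ⟨s, hs⟩ := hf2' i
    obtain ⟨s', hs'⟩ := hf2' j
    rw [sq_eq, sq_eq, hs, hs'] at hij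
    simp only [List.getLast?_append, List.getLast?_singleton, Option.some_or,
      Option.some.injEq] at hij
    exact hf2.1 hij
  have hu : IsUnit (Cdm.WM H b0).det := by
    have h4 : Cdm.WM H b0 =
        (Matrix.of fun (i a : Fin n) => ((it H i b0).count a : ℤ)).transpose := by
      ext a i
      simp only [Cdm.WM, Cdm.par, Matrix.transpose_apply, Matrix.of_apply]
      rw [sq_eq]
    rw [h4, Matrix.det_transpose]
    exact hnf.unit
  have hg : ∀ a : Fin n, FreeGroup.of a ∈ Subgroup.closure
      (Set.range (fun k : Fin N => ((Cdm.sq H b0 k).map FreeGroup.of).prod)) := by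
    set C := Subgroup.closure
      (Set.range (fun k : Fin N => ((Cdm.sq H b0 k).map FreeGroup.of).prod)) with hC
    have hall := hnf.hull (fun x => (x.map FreeGroup.of).prod ∈ C) (by simp [C.one_mem])
      (by
        intro x y hx hy
        rw [List.map_append, List.prod_append]
        exact C.mul_mem hx hy)
      (by
        intro x y z hx hy hxz hzy
        rw [List.map_append, List.prod_append] at hxz
        exact (C.mul_mem_cancel_left hx).1 hxz)
      (by
        intro k hk
        apply Subgroup.subset_closure
        refine ⟨⟨k, hk⟩, ?_⟩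
        simp only
        rw [sq_eq])
    intro a
    simpa using hall [a]
  have hbig : ∃ a, 1 < (H a).length := by
    by_contra hsm
    push Not at hsm
    obtain ⟨q, hq⟩ := hnf.gr ⟨0, hn⟩ 2
    have h4 := length_it_le hsm q [⟨0, hn⟩]
    simp only [one_pow, List.length_singleton, mul_one] at h4
    omega
  have := Cdm.letters_of_good hn hnf.le hne hnf.ne hlc hfirst hlast hu hg hgl hgr hbig ⟨i, hi⟩
  rwa [sq_eq] at this

end D0L
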