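import Pool.Agent.H.MP_374efc_lc.Asm.Elem
import Pool.Agent.H.MP_374efc_lc.Words.Normal

/-!
# MP_374efc_lc: the code of the free hull, final assembly

`Cod` is the format of the third part (bound of the size of an invariant code).  The base of the
free hull of the words `w_i` is such a code, and the system over this base is in normal form.
-/

set_option autoImplicit false

namespace D0L

open Pool.MP374W

/-- A finite code with images `t i`, mapped into itself by the morphism `h`: `h(t_i)` is the product
over `H i`; irreducible, with invertible matrix; the axiom is the product over `b0`, and the system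
`(H, b0)` is locally catenative. -/
structure Cod {α : Type} (h : α → List α) (w : List α) {n : ℕ} (t : Fin n → List α)
    (H : Fin n → List (Fin n)) (b0 : List (Fin n)) : Prop where
  inj : Function.Injective (app t)
  comm : ∀ i, app h (t i) = app t (H i)
  ax : app t b0 = w
  irr : ∀ i j, ∃ q, 0 < q ∧ j ∈ it H q [i]
  det : (Matrix.of fun (j i : Fin n) => ((H i).count j : ℚ)).det ≠ 0
  lc : LC H b0

/-- The statement of the third part (proved for all invariant codes). -/
def FreeBound (b : ℕ → ℕ) : Prop :=
  ∀ (α : Type) [Fintype α] (h : α → List α) (w : List α) (s : ℕ), Sz s h w → Elem h → Prim h →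
    ¬ Per h → Legal h w → w ≠ [] → ∀ (n : ℕ) (t : Fin n → List α) (H : Fin n → List (Fin n))
      (b0 : List (Fin n)), Cod h w t H b0 → n ≤ b s

/-- The normal form: an injective irreducible system over `Fin n` whose words `b_0, ..., b_(n-1)` have
distinct first letters, distinct last letters, and Parikh vectors which form a basis of `ℤ ^ n`; all words
generate the free group; `N` is the least number with a relation; every stable submonoid which contains all
words is everything. -/
structure NF {n : ℕ} (H : Fin n → List (Fin n)) (b0 : List (Fin n)) (N : ℕ) : Prop where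
  inj : Function.Injective (app H)
  ne : b0 ≠ []
  le : n ≤ N
  rel : Rel H b0 N
  least : ∀ p, Rel H b0 p → N ≤ p
  gr : ∀ i, Gr H i
  irr : ∀ i j, ∃ q, 0 < q ∧ j ∈ it H q [i]
  first : ∃ f : Fin n → Fin n, Function.Bijective f ∧ ∀ i : Fin n, ∃ s, it H i b0 = f i :: s
  last : ∃ f : Fin n → Fin n, Function.Bijective f ∧ ∀ i : Fin n, ∃ s, it H i b0 = s ++ [f i]
  unit : IsUnit (Matrix.of fun (i a : Fin n) => ((it H i b0).count a : ℤ)).det
  hull : ∀ G : List (Fin n) → Prop, G [] → (∀ x y, G x → G y → G (x ++ y)) →
    (∀ x y z, G x → G y → G (x ++ z) → G (z ++ y) → G z) → (∀ i < N, G (it H i b0)) → ∀ x, G x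

/-- The code dichotomy: in a normal form the words `b_0, ..., b_(n-1)` are letters. -/
def CDst : Prop := ∀ (n N : ℕ) (H : Fin n → List (Fin n)) (b0 : List (Fin n)), NF H b0 N →
  ∀ i < n, (it H i b0).length = 1

/-! ### the free monoid as a type of lists -/

/-- The morphism of free monoids of a map to words. -/
def toM {α β : Type} (h : α → List β) : FreeMonoid α →* FreeMonoid β :=
  FreeMonoid.lift (fun a => FreeMonoid.ofList (h a))

theorem toM_toList {α β : Type} (h : α → List β) (x : FreeMonoid α) :
    (toM h x).toList = app h x.toList := by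
  induction x using FreeMonoid.inductionOn' with
  | one => rfl
  | of_mul a x ih =>
    rw [map_mul, FreeMonoid.toList_mul, ih, FreeMonoid.toList_mul, FreeMonoid.toList_of,
      app_append, app_singleton, toM, FreeMonoid.lift_eval_of, FreeMonoid.toList_ofList]

theorem toM_iterate {α : Type} (h : α → List α) (n : ℕ) (x : FreeMonoid α) :
    ((toM h)^[n] x).toList = it h n x.toList := by
  induction n with
  | zero => rfl
  | succ n ih => rw [Function.iterate_succ_apply', toM_toList, ih, it_succ]

theorem toM_inj {α β : Type} {h : α → List β} (hh : Function.Injective (app h)) :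
    Function.Injective (toM h) := by
  intro x y hxy
  apply FreeMonoid.toList.injective
  apply hh
  rw [← toM_toList, ← toM_toList, hxy]

theorem eq_toM {α β : Type} (φ : FreeMonoid α →* FreeMonoid β) :
    φ = toM (fun a => (φ (FreeMonoid.of a)).toList) := by
  apply FreeMonoid.hom_eq
  intro a
  rw [toM, FreeMonoid.lift_eval_of, FreeMonoid.ofList_toList]

theorem app_of_hom {α β : Type} (φ : FreeMonoid α →* FreeMonoid β) (x : FreeMonoid α) :
    app (fun a => (φ (FreeMonoid.of a)).toList) x.toList = (φ x).toList := by
  rw [← toM_toList, ← eq_toM]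

theorem inj_of_hom {α β : Type} {φ : FreeMonoid α →* FreeMonoid β}
    (hφ : Function.Injective φ) :
    Function.Injective (app (fun a => (φ (FreeMonoid.of a)).toList)) := by
  intro x y hxy
  have h1 := app_of_hom φ (FreeMonoid.ofList x)
  have h2 := app_of_hom φ (FreeMonoid.ofList y)
  rw [FreeMonoid.toList_ofList] at h1 h2
  rw [h1, h2] at hxy
  exact FreeMonoid.ofList.injective (hφ (FreeMonoid.toList.injective hxy))

/-! ### relations -/

theorem closure_orb_iff {α : Type} (h : FreeMonoid α →* FreeMonoid α) (w x : FreeMonoid α)
    (N : ℕ) : x ∈ Submonoid.closure (orb h w N) ↔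
      ∃ js : List ℕ, (∀ j ∈ js, j < N) ∧ x = (js.map (fun j => h^[j] w)).prod := by
  constructor
  · intro hx
    induction hx using Submonoid.closure_induction with
    | mem x hx =>
      obtain ⟨i, hi, rfl⟩ := hx
      exact ⟨[i], by simpa using hi, by simp⟩
    | one => exact ⟨[], by simp, by simp⟩
    | mul x y _ _ hx hy =>
      obtain ⟨js, h1, h2⟩ := hx
      obtain ⟨ks, h3, h4⟩ := hy
      refine ⟨js ++ ks, ?_, by rw [h2, h4]; simp⟩
      intro j hj
      rw [List.mem_append] at hj
      exact hj.elim (h1 j) (h3 j)
  · rintro ⟨js, h1, rfl⟩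
    apply Submonoid.list_prod_mem
    intro y hy
    rw [List.mem_map] at hy
    obtain ⟨j, hj, rfl⟩ := hy
    exact Submonoid.subset_closure ⟨j, h1 j hj, rfl⟩

theorem toList_prod {α : Type} (L : List (FreeMonoid α)) :
    L.prod.toList = (L.map FreeMonoid.toList).flatten := by
  induction L with
  | nil => rfl
  | cons x L ih =>
    rw [List.prod_cons, FreeMonoid.toList_mul, ih, List.map_cons, List.flatten_cons]

theorem closed_of_rel {α : Type} {h : α → List α} {w : List α} {N : ℕ} (hN : Rel h w N) :
    Closed (toM h) (FreeMonoid.ofList w) N := by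
  apply closed_of_formula
  rw [closure_orb_iff]
  obtain ⟨js, h1, h2, h3⟩ := hN
  refine ⟨js, h2, ?_⟩
  apply FreeMonoid.toList.injective
  rw [toM_iterate, toList_prod, FreeMonoid.toList_ofList, h3, List.map_map]
  congr 1
  apply List.map_congr_left
  intro j _
  simp only [Function.comp]
  rw [toM_iterate, FreeMonoid.toList_ofList]

theorem rel_of_closed {α : Type} {h : α → List α} {w : List α} {N : ℕ} (hw : w ≠ [])
    (hne : ∀ a, h a ≠ []) (hN : Closed (toM h) (FreeMonoid.ofList w) N) : Rel h w N := by
  have h1 := hN N
  rw [closure_orb_iff] at h1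
  obtain ⟨js, h2, h3⟩ := h1
  have h4 : it h N w = (js.map (fun j => it h j w)).flatten := by
    have h5 := congrArg FreeMonoid.toList h3
    rw [toM_iterate, toList_prod, FreeMonoid.toList_ofList, List.map_map] at h5
    rw [h5]
    congr 1
    apply List.map_congr_left
    intro j _
    simp only [Function.comp]
    rw [toM_iterate, FreeMonoid.toList_ofList]
  refine ⟨js, ?_, h2, h4⟩
  rintro rfl
  have h6 := length_it_mono hne w (Nat.zero_le N)
  rw [h4, it_zero] at h6
  simp at h6
  exact hw h6

/-- A least relation contains the index `0`. -/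
theorem zero_mem_least {α : Type} {h : α → List α} {w : List α}
    (inj : Function.Injective (app h)) {N : ℕ} (least : ∀ p, Rel h w p → N ≤ p) {js : List ℕ}
    (h1 : js ≠ []) (h2 : ∀ j ∈ js, j < N)
    (h3 : it h N w = (js.map (fun j => it h j w)).flatten) : 0 ∈ js := by
  by_contra hc
  have hpos : ∀ j ∈ js, 1 ≤ j := by
    intro j hj
    rcases Nat.eq_zero_or_pos j with h4 | h4
    · rw [h4] at hj
      exact absurd hj hc
    · exact h4
  obtain ⟨j0, hj0⟩ := List.exists_mem_of_ne_nil js h1
  have hp1 : 1 ≤ N := le_trans (hpos j0 hj0) (h2 j0 hj0).le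
  obtain ⟨q, rfl⟩ : ∃ q, N = q + 1 := ⟨N - 1, by omega⟩
  have hrel : Rel h w q := by
    refine ⟨js.map (· - 1), ?_, ?_, ?_⟩
    · intro h5
      exact h1 (List.map_eq_nil_iff.mp h5)
    · intro j hj
      rw [List.mem_map] at hj
      obtain ⟨i, hi, rfl⟩ := hj
      have e1 := hpos i hi
      have e2 := h2 i hi
      omega
    · apply inj
      rw [← it_succ, h3, app_flatten, List.map_map, List.map_map]
      refine congrArg List.flatten (List.map_congr_left fun j hj => ?_)
      have e1 := hpos j hj
      simp only [Function.comp]
      rw [← it_succ, Nat.sub_add_cancel e1]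
  have := least q hrel
  omega

end D0L
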