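import Pool.Agent.H.MP_374efc_lc.Red.Main
import Pool.Agent.H.MP_374efc_lc.Fr.Defs

/-!
# MP_374efc_lc: the general reduction with elementary morphisms

`Elem h` (defined in `Fr/Defs.lean`): the morphism `h` does not factor through a smaller alphabet.  Such a
morphism is good.
-/

set_option autoImplicit false

namespace D0L

theorem Elem.good {α β : Type} [Fintype α] {h : α → List β} (hh : Elem h) : Good h := by
  by_contra hg
  exact hh (simplify h hg)

theorem Elem.inj {α β : Type} [Fintype α] {h : α → List β} (hh : Elem h) :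
    Function.Injective (app h) := hh.good.inj

/-- The core case for elementary morphisms. -/
def CoreBoundE (F : ℕ → ℕ) : Prop :=
  ∀ (α : Type) [Fintype α] (h : α → List α) (w : List α) (s : ℕ), Sz s h w → Elem h → Prim h →
    ¬ Per h → Legal h w → w ≠ [] → LC h w → ∃ p ≤ F s, Rel h w p

theorem bd_simpE (Q : ∀ (α : Type) [Fintype α], (α → List α) → List α → Prop)
    (hQ : ∀ (α δ : Type) [Fintype α] [Fintype δ] (h : α → List α) (f : α → List δ)
      (g : δ → List α) (w : List α), (∀ a, app g (f a) = h a) → (∀ d, g d ≠ []) →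
      (∀ d, ∃ a, d ∈ f a) → Q α h w → Q δ (fun d => app f (g d)) (app f w))
    (F : ℕ → ℕ) (hF : Monotone F)
    (hb : BdOn (fun α _ h w => Elem h ∧ Q α h w) F) :
    BdOn Q (fun s => F (s ^ 2 ^ s) + s) := by
  have key : ∀ n : ℕ, ∀ (α : Type) [Fintype α] (h : α → List α) (w : List α) (s : ℕ),
      Fintype.card α ≤ n → Sz s h w → Q α h w → LC h w →
        ∃ p ≤ F (s ^ 2 ^ n) + n, Rel h w p := by
    intro n
    induction n with
    | zero =>
      intro α _ h w s hn hs hq hlc
      by_cases hg : Elem h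
      · obtain ⟨p, h1, h2⟩ := hb α h w s hs ⟨hg, hq⟩ hlc
        exact ⟨p, by simpa using h1, h2⟩
      · exfalso
        apply hg
        rintro ⟨δ, _, f, g, h1, -⟩
        omega
    | succ n ih =>
      intro α _ h w s hn hs hq hlc
      have hpow : ∀ i : ℕ, s ≤ s ^ 2 ^ i := by
        intro i
        exact Nat.le_self_pow (by positivity) s
      by_cases hg : Elem h
      · obtain ⟨p, h1, h2⟩ := hb α h w s hs ⟨hg, hq⟩ hlc
        have := hF (hpow (n + 1))
        exact ⟨p, by omega, h2⟩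
      · rw [Elem, not_not] at hg
        obtain ⟨δ, hδ, f, g, h1, h2, h3, h4⟩ := hg
        have h5 := simp_sizes h1 h2 h3 h4 hs
        have h6 := hQ α δ h f g w h2 h3 h4 hq
        have h7 : LC (fun d => app f (g d)) (app f w) := by
          obtain ⟨p, hp⟩ := hlc
          exact ⟨p, rel_gf h2 hp⟩
        obtain ⟨p, h8, h9⟩ := ih δ _ _ (s * s) (by omega) h5 h6 h7
        refine ⟨p + 1, ?_, rel_of_gf h2 h9⟩
        have h10 : (s * s) ^ 2 ^ n = s ^ 2 ^ (n + 1) := by
          rw [← pow_two, ← pow_mul, pow_succ']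
        rw [h10] at h8
        omega
  intro α _ h w s hs hq hlc
  exact key s α h w s hs.1 hs hq hlc

/-- Elementary primitive systems. -/
theorem bd_elem (F : ℕ → ℕ) (hc : CoreBoundE F) :
    BdOn (fun _ _ h _ => Elem h ∧ Prim h) (fun s => F s + s + 1) := by
  intro α _ h w s hs hq hlc
  change ∃ p ≤ F s + s + 1, Rel h w p
  obtain ⟨he, hp⟩ := hq
  have hg := he.good
  by_cases hw : w = []
  · subst hw
    exact ⟨1, by omega, rel_nil h⟩
  by_cases hgr : ∀ a, Gr h a
  · have hl := legal hg.ne hg.inj hw hlc hgr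
    by_cases hper : Per h
    · obtain ⟨σ, hσ⟩ := per1 hg hp hgr hper
      obtain ⟨p, h1, h2⟩ := per2 hσ hgr hl hw hlc
      have := hs.1
      exact ⟨p, by omega, h2⟩
    · obtain ⟨p, h1, h2⟩ := hc α h w s hs he hp hper hl hw hlc
      exact ⟨p, by omega, h2⟩
  · push Not at hgr
    obtain ⟨a, ha⟩ := hgr
    exact ⟨1, by omega, rel_of_prim_bdd hg.ne hp ha w⟩

/-- **The general reduction, elementary version.** -/
theorem main4E (F : ℕ → ℕ) (hF : Computable F) (hc : CoreBoundE F) :
    ∃ F', Computable F' ∧ Bound F' := by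
  obtain ⟨G, hG, hFG⟩ := CM.hull hF
  have hcG : CoreBoundE G := by
    intro α _ h w s h1 h2 h3 h4 h5 h6 h7
    obtain ⟨p, h8, h9⟩ := hc α h w s h1 h2 h3 h4 h5 h6 h7
    exact ⟨p, h8.trans (hFG s), h9⟩
  have two : CM (fun s => 2 ^ s) := CM.pow (CM.const 1) CM.id
  have selfpow : CM (fun s => (s + 1) ^ 2 ^ s) := CM.pow CM.id two
  set F1 : ℕ → ℕ := fun s => G s + s + 1 with hF1
  have c1 : CM F1 := CM.add (CM.add hG CM.id) (CM.const 1)
  have b1 : BdOn (fun _ _ h _ => Elem h ∧ Prim h) F1 := bd_elem G hcG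
  set F2 : ℕ → ℕ := fun s => F1 ((s + 1) ^ 2 ^ s) + s with hF2
  have c2 : CM F2 := CM.add (CM.comp' c1 selfpow) CM.id
  have b2 : BdOn (fun _ _ h _ => Prim h) F2 := by
    intro α _ h w s hs hq hlc
    obtain ⟨p, h1, h2⟩ := bd_simpE (fun _ _ h _ => Prim h)
      (fun α δ _ _ h f g w h1 h2 h3 h4 => prim_gf h1 h2 h3 h4) F1 c1.mono b1 α h w s hs hq hlc
    refine ⟨p, h1.trans ?_, h2⟩
    have := c1.mono (Nat.pow_le_pow_left (Nat.le_succ s) (2 ^ s))
    simp only [hF2]
    exact Nat.add_le_add_right this s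
  -- the remaining steps are those of `main4`, applied to the class of good systems
  apply main4 F2 c2.comp
  intro α _ h w s h1 h2 h3 h4 h5 h6 h7
  exact b2 α h w s h1 h3 h7

end D0L
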