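import Pool.Agent.H.MP_374efc_lc.Asm.Bridge
import Pool.Agent.H.MP_374efc_lc.Fr.Cp4

/-!
# MP_374efc_lc: the free case in the format of the assembly

`freeBound`: the size of an invariant code is bounded by the primitive recursive function `freeF` of the size
of the system.  Hence the code dichotomy is the only missing part of the bound.
-/

set_option autoImplicit false

namespace D0L

theorem freeBound : FreeBound freeF := by
  intro α _ h w s hs hel hp hper hl hw n t H b0 hc
  exact free_case hs hel hp hper hl hw hc.inj hc.comm hc.ax hc.irr hc.det hc.lc

/-- The code dichotomy gives a computable bound for all locally catenative systems. -/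
theorem bound_of_cdst (hcd : CDst) : ∃ F', Computable F' ∧ Bound F' :=
  bound_of freeF freeF_computable freeBound hcd

theorem bound_of_L2 (hL2 : L2st) : ∃ F', Computable F' ∧ Bound F' :=
  bound_of_cdst (cdst_of_L2 hL2)

end D0L
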