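import Pool.Agent.H.MP_374efc_lc.Asm.Gap
import Pool.Agent.H.MP_374efc_lc.Shell

/-!
# MP_374efc_lc: a computable bound from recursively enumerable certificates

`cd H b0` is the code of a system over `Fin n`.  If a recursively enumerable set `R` of codes contains all
systems which are not locally catenative and no system in normal form, then a computable bound exists
(`bound_of_re`): the code of a system of size at most `s` lies in a finite list, and for each of them a
relation or a certificate is found.
-/

set_option autoImplicit false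

namespace D0L

/-- The code of a system over `Fin n`. -/
def cd {n : ℕ} (H : Fin n → List (Fin n)) (b0 : List (Fin n)) : List (List ℕ) × List ℕ :=
  (List.ofFn fun i => (H i).map Fin.val, b0.map Fin.val)

section code

variable {n : ℕ} {H : Fin n → List (Fin n)} {b0 : List (Fin n)}

theorem hs_cd (a : Fin n) : hs (cd H b0) a = (H a).map Fin.val := by
  unfold hs cd
  have h1 : (a : ℕ) < (List.ofFn fun i => (H i).map Fin.val).length := by
    rw [List.length_ofFn]
    exact a.2
  rw [List.getD_eq_getElem _ _ h1, List.getElem_ofFn]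

theorem app_cd (w : List (Fin n)) :
    app (hs (cd H b0)) (w.map Fin.val) = (app H w).map Fin.val := by
  induction w with
  | nil => rfl
  | cons a w ih => rw [List.map_cons, app_cons, ih, hs_cd, app_cons, List.map_append]

theorem it_cd (k : ℕ) (w : List (Fin n)) :
    it (hs (cd H b0)) k (w.map Fin.val) = (it H k w).map Fin.val := by
  induction k with
  | zero => rfl
  | succ k ih => rw [it_succ, ih, app_cd, it_succ]

theorem rel_cd (p : ℕ) : Rel (hs (cd H b0)) (cd H b0).2 p ↔ Rel H b0 p := by
  have key : ∀ js : List ℕ, (js.map (fun j => it (hs (cd H b0)) j (cd H b0).2)).flatten =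
      ((js.map (fun j => it H j b0)).flatten).map Fin.val := by
    intro js
    rw [List.map_flatten, List.map_map]
    congr 1
    apply List.map_congr_left
    intro j _
    exact it_cd j b0
  constructor
  · rintro ⟨js, h1, h2, h3⟩
    refine ⟨js, h1, h2, ?_⟩
    apply List.map_injective_iff.2 Fin.val_injective
    rw [← key, ← h3]
    exact (it_cd p b0).symm
  · rintro ⟨js, h1, h2, h3⟩
    refine ⟨js, h1, h2, ?_⟩
    rw [key, ← h3]
    exact it_cd p b0

end code

/-! ### the codes of bounded size -/

/-- Words with letters below `s`, of length at most `s + 1`. -/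
def cwords (s : ℕ) : List (List ℕ) := [] :: cand s s

/-- Lists of words from `cwords s`, of length at most `s + 1`. -/
def clists (s : ℕ) : List (List (List ℕ)) :=
  [] :: (cand (cwords s).length s).map (fun l => l.map (fun i => (cwords s).getD i []))

/-- Codes of the systems of size at most `s`. -/
def cdl (s : ℕ) : List (List (List ℕ) × List ℕ) :=
  (clists s).flatMap (fun u => (cwords s).map (fun w => (u, w)))

theorem mem_cwords {s : ℕ} {w : List ℕ} (h1 : w.length ≤ s) (h2 : ∀ a ∈ w, a < s) :
    w ∈ cwords s := by
  unfold cwords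
  by_cases hw : w = []
  · rw [hw]
    exact List.mem_cons_self
  · exact List.mem_cons_of_mem _ (mem_cand.2 ⟨hw, by omega, h2⟩)

theorem mem_clists {s : ℕ} {u : List (List ℕ)} (h1 : u.length ≤ s) (h2 : ∀ w ∈ u, w ∈ cwords s) :
    u ∈ clists s := by
  classical
  unfold clists
  by_cases hu : u = []
  · rw [hu]
    exact List.mem_cons_self
  · refine List.mem_cons_of_mem _ (List.mem_map.2 ⟨u.map (fun w => (cwords s).idxOf w), ?_, ?_⟩)
    · refine mem_cand.2 ⟨by simpa using hu, by simpa using (by omega : u.length ≤ s + 1), ?_⟩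
      intro j hj
      obtain ⟨w, hw, rfl⟩ := List.mem_map.1 hj
      exact List.idxOf_lt_length_iff.2 (h2 w hw)
    · rw [List.map_map]
      conv_rhs => rw [← List.map_id u]
      apply List.map_congr_left
      intro w hw
      have h3 := List.idxOf_lt_length_iff.2 (h2 w hw)
      simp only [Function.comp, id]
      rw [List.getD_eq_getElem _ _ h3, List.getElem_idxOf]

theorem cd_mem_cdl {n s : ℕ} {H : Fin n → List (Fin n)} {b0 : List (Fin n)}
    (hs : Sz s H b0) : cd H b0 ∈ cdl s := by
  obtain ⟨h1, h2, h3⟩ := hs
  rw [Fintype.card_fin] at h1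
  unfold cdl
  refine List.mem_flatMap.2 ⟨(cd H b0).1, ?_, List.mem_map.2 ⟨(cd H b0).2, ?_, rfl⟩⟩
  · refine mem_clists ?_ ?_
    · unfold cd
      simpa using h1
    · intro w hw
      unfold cd at hw
      rw [List.mem_ofFn] at hw
      obtain ⟨i, rfl⟩ := hw
      refine mem_cwords ?_ ?_
      · simpa using h2 i
      · intro a ha
        obtain ⟨b, _, rfl⟩ := List.mem_map.1 ha
        have := b.2
        omega
  · refine mem_cwords ?_ ?_
    · unfold cd
      simpa using h3
    · intro a ha
      obtain ⟨b, _, rfl⟩ := List.mem_map.1 ha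
      have := b.2
      omega

section prim

open Primrec

theorem prim_cwords : Primrec cwords :=
  list_cons.comp (const []) (prim_cand.comp .id .id)

theorem prim_clists : Primrec clists := by
  refine list_cons.comp (const []) ?_
  refine list_map (f := fun s => cand (cwords s).length s)
    (g := fun s l => l.map (fun i => (cwords s).getD i []))
    (prim_cand.comp (list_length.comp prim_cwords) .id) ?_
  refine (list_map (f := fun x : ℕ × List ℕ => x.2)
    (g := fun x i => (cwords x.1).getD i []) snd ?_).to₂
  exact (list_getD []).comp₂ (prim_cwords.comp (fst.comp fst)).to₂ snd.to₂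

theorem prim_cdl : Primrec cdl := by
  refine list_flatMap (f := clists) (g := fun s u => (cwords s).map (fun w => (u, w)))
    prim_clists ?_
  refine (list_map (f := fun x : ℕ × List (List ℕ) => cwords x.1)
    (g := fun x w => (x.2, w)) (prim_cwords.comp fst) ?_).to₂
  exact (Primrec.pair (snd.comp fst) snd).to₂

end prim

/-! ### the search -/

/-- The maximum of the values of `F` at the first `k` elements of the list `L`. -/
def cmax (F : List (List ℕ) × List ℕ → ℕ) (L : List (List (List ℕ) × List ℕ)) (k : ℕ) : ℕ :=
  Nat.rec (motive := fun _ => ℕ) 0 (fun i r => max r (F (L.getD i ([], [])))) k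

theorem le_cmax (F : List (List ℕ) × List ℕ → ℕ) (L : List (List (List ℕ) × List ℕ)) :
    ∀ k i, i < k → F (L.getD i ([], [])) ≤ cmax F L k := by
  intro k
  induction k with
  | zero => intro i hi; omega
  | succ k ih =>
    intro i hi
    change _ ≤ max (cmax F L k) (F (L.getD k ([], [])))
    rcases Nat.lt_succ_iff_lt_or_eq.1 hi with h | rfl
    · exact (ih i h).trans (le_max_left _ _)
    · exact le_max_right _ _

/-- The maximum of `F` over the codes of size at most `s`. -/
def Gmax (F : List (List ℕ) × List ℕ → ℕ) (s : ℕ) : ℕ := cmax F (cdl s) (cdl s).length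

theorem le_Gmax {F : List (List ℕ) × List ℕ → ℕ} {s : ℕ} {c : List (List ℕ) × List ℕ}
    (hc : c ∈ cdl s) : F c ≤ Gmax F s := by
  obtain ⟨i, hi, rfl⟩ := List.mem_iff_getElem.1 hc
  have h1 := le_cmax F (cdl s) (cdl s).length i hi
  rwa [List.getD_eq_getElem _ _ hi] at h1

theorem comp_Gmax {F : List (List ℕ) × List ℕ → ℕ} (hF : Computable F) :
    Computable (Gmax F) := by
  have h1 : Computable (fun s : ℕ => (cdl s).length) :=
    (Primrec.list_length.comp prim_cdl).to_comp
  have h2 : Computable₂ (fun (s : ℕ) (x : ℕ × ℕ) =>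
      max x.2 (F ((cdl s).getD x.1 ([], [])))) := by
    have h3 : Computable (fun y : ℕ × (ℕ × ℕ) => (cdl y.1).getD y.2.1 ([], [])) :=
      ((Primrec.list_getD ([], [])).comp (prim_cdl.comp Primrec.fst)
        (Primrec.fst.comp Primrec.snd)).to_comp
    exact (Primrec.nat_max.to_comp.comp (Computable.snd.comp Computable.snd) (hF.comp h3)).to₂
  exact (Computable.nat_rec h1 (Computable.const 0) h2).of_eq fun s => rfl

/-- **A computable bound from recursively enumerable certificates.** -/
theorem bound_of_re {R : List (List ℕ) × List ℕ → Prop} (hR : REPred R)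
    (hcomp : ∀ c, ¬ FP c → R c)
    (hsound : ∀ (n N : ℕ) (H : Fin n → List (Fin n)) (b0 : List (Fin n)), NF H b0 N →
      ¬ R (cd H b0)) :
    ∃ F', Computable F' ∧ Bound F' := by
  obtain ⟨hd, h2⟩ := prim_rel
  set b : (List (List ℕ) × List ℕ) → ℕ → Bool := fun s p =>
    @decide ((fun x : (List (List ℕ) × List ℕ) × ℕ => Rel (hs x.1) x.1.2 x.2) (s, p)) (hd (s, p))
    with hb
  have hb1 : ∀ s p, b s p = true ↔ Rel (hs s) s.2 p := fun s p =>
    @decide_eq_true_iff _ (hd (s, p))
  have h3 : Partrec (fun s : List (List ℕ) × List ℕ =>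
      Nat.rfind (fun p => (Part.some (b s p) : Part Bool))) := by
    refine Partrec.rfind (p := fun s p => (Part.some (b s p) : Part Bool)) ?_
    exact (Computable.partrec h2.to_comp).to₂
  have h4 : Partrec (fun s : List (List ℕ) × List ℕ =>
      (Part.assert (R s) fun _ => Part.some ()).map (fun _ => (0 : ℕ))) :=
    Partrec.map hR ((Computable.const 0).to₂)
  obtain ⟨k, hk, hk'⟩ := Partrec.merge' h3 h4
  have hdom : ∀ s, (k s).Dom := by
    intro s
    rw [(hk' s).2]
    by_cases hfp : FP s
    · left
      rw [Nat.rfind_dom]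
      obtain ⟨p, hp⟩ := (fp_iff s).1 hfp
      exact ⟨p, by simpa using (hb1 s p).2 hp, fun {m} _ => trivial⟩
    · right
      have h5 := hcomp s hfp
      exact ⟨h5, trivial⟩
  set F : List (List ℕ) × List ℕ → ℕ := fun s => (k s).get (hdom s) with hF
  have hFc : Computable F := hk.of_eq fun s => (Part.some_get (hdom s)).symm
  have hFs : ∀ (n N : ℕ) (H : Fin n → List (Fin n)) (b0 : List (Fin n)), NF H b0 N →
      N ≤ F (cd H b0) := by
    intro n N H b0 hnf
    have h5 : F (cd H b0) ∈ k (cd H b0) := Part.get_mem _
    rcases (hk' (cd H b0)).1 _ h5 with h6 | h6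
    · have h7 := Nat.rfind_spec h6
      have h8 : b (cd H b0) (F (cd H b0)) = true := by simpa using h7
      exact hnf.least _ ((rel_cd _).1 ((hb1 _ _).1 h8))
    · exfalso
      rw [Part.mem_map_iff] at h6
      obtain ⟨u, hu, _⟩ := h6
      rw [Part.mem_assert_iff] at hu
      obtain ⟨hr, _⟩ := hu
      exact hsound n N H b0 hnf hr
  refine bound_of_nfb (comp_Gmax hFc) ?_
  intro n N s H b0 hs hnf
  exact (hFs n N H b0 hnf).trans (le_Gmax (cd_mem_cdl hs))

/-- Existential quantifiers over a computable predicate are recursively enumerable. -/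
theorem re_of_ex {T : List (List ℕ) × List ℕ → ℕ → Prop}
    (hT : ComputablePred (fun x : (List (List ℕ) × List ℕ) × ℕ => T x.1 x.2)) :
    REPred (fun c => ∃ m, T c m) := by
  obtain ⟨hd, h2⟩ := hT
  set b : (List (List ℕ) × List ℕ) → ℕ → Bool := fun s p =>
    @decide ((fun x : (List (List ℕ) × List ℕ) × ℕ => T x.1 x.2) (s, p)) (hd (s, p)) with hb
  have hb1 : ∀ s p, b s p = true ↔ T s p := fun s p => @decide_eq_true_iff _ (hd (s, p))
  have h3 : Partrec (fun s : List (List ℕ) × List ℕ =>
      Nat.rfind (fun p => (Part.some (b s p) : Part Bool))) := by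
    refine Partrec.rfind (p := fun s p => (Part.some (b s p) : Part Bool)) ?_
    exact (Computable.partrec h2).to₂
  refine REPred.of_eq h3.dom_re (fun s => ?_)
  rw [Nat.rfind_dom]
  constructor
  · rintro ⟨p, hp, _⟩
    exact ⟨p, (hb1 s p).1 (by simpa using hp)⟩
  · rintro ⟨p, hp⟩
    exact ⟨p, by simpa using (hb1 s p).2 hp, fun {m} _ => trivial⟩

end D0L
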