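import Pool.Agent.H.MP_374efc_lc.Bim.Setup

/-!
# MP_374efc_lc: the cases of the code dichotomy

`Bimk H`: the images of the letters have different first letters and different last letters. `HasX H b0`: some product of
`w_0, .., w_(n-1)` which begins with `w_0` is the image of a word. The code dichotomy follows from three statements: the bimarked
case with `HasX` (`BimX`), existence of `HasX` in the bimarked case (`CaseX`), and the case which is not bimarked
(`NonBim`).
-/

set_option autoImplicit false

namespace D0L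

/-- The images of the letters have different first letters and different last letters. -/
def Bimk {n : ℕ} (H : Fin n → List (Fin n)) : Prop :=
  (∀ c d, (H c).head? = (H d).head? → c = d) ∧ (∀ c d, (H c).getLast? = (H d).getLast? → c = d)

/-- All of `w_0, .., w_(n-1)` are letters. -/
def Lett {n : ℕ} (H : Fin n → List (Fin n)) (b0 : List (Fin n)) : Prop :=
  ∀ i < n, (it H i b0).length = 1

/-- (X): some product of `w_0, .., w_(n-1)` which begins with `w_0` is the image of a word. -/
def HasX {n : ℕ} (H : Fin n → List (Fin n)) (b0 : List (Fin n)) : Prop :=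
  ∃ (x : List (Fin n)) (js : List ℕ), (∀ j ∈ js, j < n) ∧
    app H x = b0 ++ (js.map fun j => it H j b0).flatten

/-- The bimarked case, given (X). -/
def BimX : Prop := ∀ (n N : ℕ) (H : Fin n → List (Fin n)) (b0 : List (Fin n)), NF H b0 N →
  Bimk H → HasX H b0 → Lett H b0

/-- Existence of (X) in the bimarked case. -/
def CaseX : Prop := ∀ (n N : ℕ) (H : Fin n → List (Fin n)) (b0 : List (Fin n)), NF H b0 N →
  Bimk H → ¬ Lett H b0 → HasX H b0

/-- The case which is not bimarked. -/
def NonBim : Prop := ∀ (n N : ℕ) (H : Fin n → List (Fin n)) (b0 : List (Fin n)), NF H b0 N →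
  ¬ Bimk H → Lett H b0

theorem cdst_of_cases (h1 : BimX) (h2 : CaseX) (h3 : NonBim) : CDst := by
  intro n N H b0 hnf
  by_cases hb : Bimk H
  · by_cases hl : Lett H b0
    · exact hl
    · exact h1 n N H b0 hnf hb (h2 n N H b0 hnf hb hl)
  · exact h3 n N H b0 hnf hb

/-- The three cases give a computable bound. -/
theorem bound_of_cases (h1 : BimX) (h2 : CaseX) (h3 : NonBim) :
    ∃ F', Computable F' ∧ Bound F' := bound_of_cdst (cdst_of_cases h1 h2 h3)

/-! ### the maps of the first and of the last letters -/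

namespace Bim

variable {n N : ℕ} {H : Fin n → List (Fin n)} {b0 : List (Fin n)}

/-- In a normal form the first letters of `w_0, w_1, ..` are given by an `n`-cycle if the first letters of the images are
different: `H` maps words beginning with the first letter of `w_i` to words beginning with the first letter of `w_(i+1)`. -/
theorem exists_fi (hnf : NF H b0 N) (hb : ∀ c d, (H c).head? = (H d).head? → c = d) :
    ∃ a : ℕ → Fin n, (∀ i, ∃ s, it H i b0 = a i :: s) ∧ (∀ i, ∃ s, H (a i) = a (i + 1) :: s) ∧
      (∀ i, a (i + n) = a i) ∧ (∀ i j, i < n → j < n → a i = a j → i = j) ∧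
      ∀ c, ∃ i < n, a i = c := by
  have hne : ∀ c, H c ≠ [] := fun c => ne_of_inj hnf.inj c
  have hneit : ∀ i, it H i b0 ≠ [] := by
    intro i h1
    have h2 := length_it_mono hne b0 (Nat.zero_le i)
    rw [it_zero, h1] at h2
    exact hnf.ne (List.length_eq_zero_iff.1 (Nat.le_zero.1 h2))
  have hex : ∀ i, ∃ a, ∃ s, it H i b0 = a :: s := fun i =>
    List.exists_cons_of_ne_nil (hneit i)
  choose a ha using hex
  have hstep : ∀ i, ∃ s, H (a i) = a (i + 1) :: s := by
    intro i
    obtain ⟨s, hs⟩ := ha i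
    obtain ⟨t, ht⟩ := ha (i + 1)
    obtain ⟨b, u, hu⟩ := List.exists_cons_of_ne_nil (hne (a i))
    rw [it_succ, hs, app_cons, hu] at ht
    rw [(List.cons.inj ht).1] at hu
    exact ⟨u, hu⟩
  have hinj : ∀ i j, i < n → j < n → a i = a j → i = j := by
    intro i j hi hj hij
    obtain ⟨s, hs⟩ := ha i
    obtain ⟨t, ht⟩ := ha j
    have h1 := first_unique hnf (i := ⟨i, hi⟩) (j := ⟨j, hj⟩) (a := a i) (s := s) (t := t) hs
      (by rw [hij]; exact ht)
    exact congrArg Fin.val h1
  have hsur : ∀ c, ∃ i < n, a i = c := by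
    intro c
    obtain ⟨i, s, hs⟩ := exists_first hnf c
    obtain ⟨t, ht⟩ := ha i
    rw [hs] at ht
    exact ⟨i, i.2, (List.cons.inj ht).1.symm⟩
  have hback : ∀ i j, a (i + 1) = a (j + 1) → a i = a j := by
    intro i j hij
    obtain ⟨s, hs⟩ := hstep i
    obtain ⟨t, ht⟩ := hstep j
    apply hb
    rw [hs, ht, hij]
    rfl
  have hn : 0 < n := pos_n hnf
  have hper0 : a n = a 0 := by
    obtain ⟨i, hi, hi'⟩ := hsur (a n)
    cases i with
    | zero => exact hi'.symm
    | succ i =>
      obtain ⟨m, rfl⟩ : ∃ m, n = m + 1 := ⟨n - 1, by omega⟩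
      have h1 := hback i m hi'
      have h2 := hinj i m (by omega) (by omega) h1
      omega
  have hper : ∀ i, a (i + n) = a i := by
    intro i
    induction i with
    | zero => rw [Nat.zero_add]; exact hper0
    | succ i ih =>
      obtain ⟨s, hs⟩ := hstep (i + n)
      obtain ⟨t, ht⟩ := hstep i
      rw [ih, ht] at hs
      have h1 := (List.cons.inj hs).1
      rw [h1]
      congr 1
      omega
  exact ⟨a, ha, hstep, hper, hinj, hsur⟩

/-- The same for the last letters. -/
theorem exists_la (hnf : NF H b0 N) (hb : ∀ c d, (H c).getLast? = (H d).getLast? → c = d) :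
    ∃ b : ℕ → Fin n, (∀ i, ∃ s, it H i b0 = s ++ [b i]) ∧ (∀ i, ∃ s, H (b i) = s ++ [b (i + 1)]) ∧
      (∀ i, b (i + n) = b i) ∧ (∀ i j, i < n → j < n → b i = b j → i = j) ∧
      ∀ c, ∃ i < n, b i = c := by
  have hne : ∀ c, H c ≠ [] := fun c => ne_of_inj hnf.inj c
  have hneit : ∀ i, it H i b0 ≠ [] := by
    intro i h1
    have h2 := length_it_mono hne b0 (Nat.zero_le i)
    rw [it_zero, h1] at h2
    exact hnf.ne (List.length_eq_zero_iff.1 (Nat.le_zero.1 h2))
  have hex' : ∀ x : List (Fin n), x ≠ [] → ∃ a, ∃ s, x = s ++ [a] := fun x hx =>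
    ⟨x.getLast hx, x.dropLast, (List.dropLast_append_getLast hx).symm⟩
  have hex : ∀ i, ∃ a, ∃ s, it H i b0 = s ++ [a] := fun i => hex' _ (hneit i)
  choose b ha using hex
  have hlast : ∀ {s t : List (Fin n)} {c d : Fin n}, s ++ [c] = t ++ [d] → c = d := by
    intro s t c d h1
    have h2 := (List.append_inj' h1 rfl).2
    simpa using h2
  have hstep : ∀ i, ∃ s, H (b i) = s ++ [b (i + 1)] := by
    intro i
    obtain ⟨s, hs⟩ := ha i
    obtain ⟨t, ht⟩ := ha (i + 1)
    obtain ⟨c, u, hu⟩ := hex' _ (hne (b i))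
    rw [it_succ, hs, app_append, app_singleton, hu, ← List.append_assoc] at ht
    rw [hlast ht] at hu
    exact ⟨u, hu⟩
  have hinj : ∀ i j, i < n → j < n → b i = b j → i = j := by
    intro i j hi hj hij
    obtain ⟨s, hs⟩ := ha i
    obtain ⟨t, ht⟩ := ha j
    have h1 := last_unique hnf (i := ⟨i, hi⟩) (j := ⟨j, hj⟩) (a := b i) (s := s) (t := t) hs
      (by rw [hij]; exact ht)
    exact congrArg Fin.val h1
  have hsur : ∀ c, ∃ i < n, b i = c := by
    intro c
    obtain ⟨i, s, hs⟩ := exists_last hnf c
    obtain ⟨t, ht⟩ := ha i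
    rw [hs] at ht
    exact ⟨i, i.2, (hlast ht).symm⟩
  have hback : ∀ i j, b (i + 1) = b (j + 1) → b i = b j := by
    intro i j hij
    obtain ⟨s, hs⟩ := hstep i
    obtain ⟨t, ht⟩ := hstep j
    apply hb
    rw [hs, ht, hij]
    simp
  have hn : 0 < n := pos_n hnf
  have hper0 : b n = b 0 := by
    obtain ⟨i, hi, hi'⟩ := hsur (b n)
    cases i with
    | zero => exact hi'.symm
    | succ i =>
      obtain ⟨m, rfl⟩ : ∃ m, n = m + 1 := ⟨n - 1, by omega⟩
      have h1 := hback i m hi'
      have h2 := hinj i m (by omega) (by omega) h1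
      omega
  have hper : ∀ i, b (i + n) = b i := by
    intro i
    induction i with
    | zero => rw [Nat.zero_add]; exact hper0
    | succ i ih =>
      obtain ⟨s, hs⟩ := hstep (i + n)
      obtain ⟨t, ht⟩ := hstep i
      rw [ih, ht] at hs
      have h1 := hlast hs
      have h2 : i + n + 1 = i + 1 + n := by omega
      rw [h2] at h1
      exact h1.symm
  exact ⟨b, ha, hstep, hper, hinj, hsur⟩

end Bim

end D0L
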